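import Mathlib

/-!
Abstract Hahn-Banach / Riesz lemma used for the existence piece EXI.
-/

set_option autoImplicit false

open MeasureTheory Set
open scoped ENNReal

namespace R197VPA

variable {X : Type*} [MeasurableSpace X] (lam : Measure X) [IsFiniteMeasure lam]

lemma integ (ψ : Lp ℝ 2 lam) : Integrable (fun x => ψ x) lam :=
  (Lp.memLp ψ).integrable (by norm_num)

lemma integ_max (ψ : Lp ℝ 2 lam) : Integrable (fun x => max (ψ x) 0) lam :=
  (integ lam ψ).pos_part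

/-- the sublinear functional -/
noncomputable def pp (c : ℝ) (ψ : Lp ℝ 2 lam) : ℝ := c⁻¹ * ∫ x, max (ψ x) 0 ∂lam

lemma pp_smul (c : ℝ) (a : ℝ) (ha : 0 < a) (ψ : Lp ℝ 2 lam) :
    pp lam c (a • ψ) = a * pp lam c ψ := by
  unfold pp
  have h1 : ∫ x, max ((a • ψ : Lp ℝ 2 lam) x) 0 ∂lam = ∫ x, a * max (ψ x) 0 ∂lam := by
    apply integral_congr_ae
    filter_upwards [Lp.coeFn_smul a ψ] with x hx
    rw [hx]
    simp only [Pi.smul_apply, smul_eq_mul]
    rw [mul_max_of_nonneg _ _ ha.le, mul_zero]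
  rw [h1, integral_const_mul]
  ring

lemma pp_add (c : ℝ) (hc : 0 < c) (ψ φ : Lp ℝ 2 lam) :
    pp lam c (ψ + φ) ≤ pp lam c ψ + pp lam c φ := by
  unfold pp
  rw [← mul_add, ← integral_add (integ_max lam ψ) (integ_max lam φ)]
  apply mul_le_mul_of_nonneg_left _ (inv_pos.mpr hc).le
  apply integral_mono_ae (integ_max lam _) ((integ_max lam ψ).add (integ_max lam φ))
  filter_upwards [Lp.coeFn_add ψ φ] with x hx
  rw [hx]
  simp only [Pi.add_apply]
  have h1 := le_max_left (ψ x) 0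
  have h2 := le_max_right (ψ x) 0
  have h3 := le_max_left (φ x) 0
  have h4 := le_max_right (φ x) 0
  apply max_le <;> linarith

lemma pp_le_norm (c : ℝ) (hc : 0 < c) :
    ∃ C : ℝ, ∀ ψ : Lp ℝ 2 lam, pp lam c ψ ≤ C * ‖ψ‖ := by
  refine ⟨c⁻¹ * (lam univ ^ (1 / (1 : ℝ≥0∞).toReal - 1 / (2 : ℝ≥0∞).toReal)).toReal, fun ψ => ?_⟩
  unfold pp
  rw [mul_assoc]
  apply mul_le_mul_of_nonneg_left _ (inv_pos.mpr hc).le
  have h1 : ∫ x, max (ψ x) 0 ∂lam ≤ ∫ x, ‖ψ x‖ ∂lam := by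
    apply integral_mono (integ_max lam ψ) (integ lam ψ).norm
    intro x
    simp only [Real.norm_eq_abs]
    exact max_le (le_abs_self _) (abs_nonneg _)
  refine h1.trans ?_
  have h2 : ∫ x, ‖ψ x‖ ∂lam = (eLpNorm ψ 1 lam).toReal := by
    rw [eLpNorm_one_eq_lintegral_enorm]
    exact integral_norm_eq_lintegral_enorm (integ lam ψ).aestronglyMeasurable
  rw [h2, Lp.norm_def, mul_comm, ← ENNReal.toReal_mul]
  apply ENNReal.toReal_mono
  · apply ENNReal.mul_ne_top (Lp.eLpNorm_ne_top ψ)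
    apply ENNReal.rpow_ne_top_of_nonneg (by norm_num) (measure_ne_top _ _)
  · exact eLpNorm_le_eLpNorm_mul_rpow_measure_univ (by norm_num) (Lp.aestronglyMeasurable ψ)

theorem riesz_hb {V : Type*} [AddCommGroup V] [Module ℝ V]
    (T : V →ₗ[ℝ] Lp ℝ 2 lam) (l : V →ₗ[ℝ] ℝ) (c : ℝ) (hc : 0 < c)
    (h : ∀ ζ, c * l ζ ≤ ∫ x, max (T ζ x) 0 ∂lam) :
    ∃ v : X → ℝ, Measurable v ∧ (∀ x, 0 ≤ v x) ∧ (∀ x, c * v x ≤ 1) ∧
      ∀ ζ, l ζ = ∫ x, v x * T ζ x ∂lam := by
  have hl : ∀ ζ, l ζ ≤ pp lam c (T ζ) := by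
    intro ζ
    unfold pp
    rw [← inv_mul_cancel_left₀ hc.ne' (l ζ)]
    exact mul_le_mul_of_nonneg_left (h ζ) (inv_pos.mpr hc).le
  have hp0 : pp lam c (0 : Lp ℝ 2 lam) = 0 := by
    unfold pp
    have : ∫ x, max ((0 : Lp ℝ 2 lam) x) 0 ∂lam = ∫ x, (0 : ℝ) ∂lam := by
      apply integral_congr_ae
      filter_upwards [Lp.coeFn_zero ℝ 2 lam] with x hx
      rw [hx]
      simp
    rw [this]
    simp
  have hker : ∀ ζ, T ζ = 0 → l ζ = 0 := by
    intro ζ hζ
    have h1 := hl ζ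
    have h2 := hl (-ζ)
    rw [map_neg, map_neg, hζ, neg_zero, hp0] at h2
    rw [hζ, hp0] at h1
    linarith
  obtain ⟨s, hs⟩ := LinearMap.exists_rightInverse_of_surjective T.rangeRestrict
    (LinearMap.range_rangeRestrict T)
  have hTs : ∀ y : LinearMap.range T, T (s y) = y := by
    intro y
    have h1 := LinearMap.congr_fun hs y
    simp only [LinearMap.comp_apply, LinearMap.id_apply] at h1
    have h2 := congrArg Subtype.val h1
    simpa using h2
  let f : (Lp ℝ 2 lam) →ₗ.[ℝ] ℝ := { domain := LinearMap.range T, toFun := l ∘ₗ s }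
  obtain ⟨g, hg1, hg2⟩ := exists_extension_of_le_sublinear f (pp lam c)
    (fun a ha ψ => pp_smul lam c a ha ψ) (fun ψ φ => pp_add lam c hc ψ φ)
    (by
      intro y
      have h1 := hl (s y)
      rw [hTs y] at h1
      exact h1)
  have hgT : ∀ ζ, g (T ζ) = l ζ := by
    intro ζ
    have h1 := hg1 ⟨T ζ, LinearMap.mem_range_self T ζ⟩
    have h2 : (f ⟨T ζ, LinearMap.mem_range_self T ζ⟩ : ℝ)
        = l (s ⟨T ζ, LinearMap.mem_range_self T ζ⟩) := rfl
    rw [h2] at h1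
    change g (T ζ) = _ at h1
    rw [h1]
    have h3 : l (s ⟨T ζ, LinearMap.mem_range_self T ζ⟩ - ζ) = 0 := by
      apply hker
      rw [map_sub, hTs, sub_self]
    rw [map_sub] at h3
    linarith
  obtain ⟨C, hC⟩ := pp_le_norm lam c hc
  have hbd : ∀ ψ, ‖g ψ‖ ≤ C * ‖ψ‖ := by
    intro ψ
    rw [Real.norm_eq_abs, abs_le]
    constructor
    · have h1 := (hg2 (-ψ)).trans (hC (-ψ))
      rw [map_neg, norm_neg] at h1
      linarith
    · exact (hg2 ψ).trans (hC ψ)
  let G : StrongDual ℝ (Lp ℝ 2 lam) := g.mkContinuous C hbd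
  have hGg : ∀ ψ, G ψ = g ψ := fun ψ => rfl
  let v₀ : Lp ℝ 2 lam := (InnerProductSpace.toDual ℝ (Lp ℝ 2 lam)).symm G
  have hv₀ : ∀ ψ : Lp ℝ 2 lam, inner ℝ v₀ ψ = g ψ := by
    intro ψ
    rw [← hGg]
    exact InnerProductSpace.toDual_symm_apply
  have hset : ∀ (A : Set X) (hA : MeasurableSet A) (hA' : lam A ≠ ⊤),
      ∫ x in A, v₀ x ∂lam = g (indicatorConstLp 2 hA hA' 1) := by
    intro A hA hA'
    rw [← hv₀, real_inner_comm, L2.inner_indicatorConstLp_one hA hA']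
  have hnn : 0 ≤ᵐ[lam] v₀ := by
    apply ae_nonneg_of_forall_setIntegral_nonneg (integ lam v₀)
    intro A hA hA'
    rw [hset A hA hA'.ne]
    have h1 := hg2 (-(indicatorConstLp 2 hA hA'.ne 1))
    rw [map_neg] at h1
    have h2 : pp lam c (-(indicatorConstLp 2 hA hA'.ne (1 : ℝ))) = 0 := by
      unfold pp
      have : ∫ x, max ((-(indicatorConstLp 2 hA hA'.ne (1 : ℝ)) : Lp ℝ 2 lam) x) 0 ∂lam
          = ∫ x, (0 : ℝ) ∂lam := by
        apply integral_congr_ae
        filter_upwards [Lp.coeFn_neg (indicatorConstLp 2 hA hA'.ne (1 : ℝ)),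
          indicatorConstLp_coeFn (p := 2) (hs := hA) (hμs := hA'.ne) (c := (1 : ℝ))] with x hx hx2
        rw [hx]
        simp only [Pi.neg_apply]
        rw [hx2]
        by_cases hxA : x ∈ A
        · simp [hxA]
        · simp [hxA]
      rw [this]
      simp
    rw [h2] at h1
    linarith
  have hle : v₀ ≤ᵐ[lam] fun _ => c⁻¹ := by
    apply ae_le_of_forall_setIntegral_le (integ lam v₀) (integrable_const _)
    intro A hA hA'
    rw [hset A hA hA'.ne]
    refine (hg2 _).trans ?_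
    unfold pp
    have : ∫ x, max ((indicatorConstLp 2 hA hA'.ne (1 : ℝ) : Lp ℝ 2 lam) x) 0 ∂lam
        = ∫ x, A.indicator (fun _ => (1 : ℝ)) x ∂lam := by
      apply integral_congr_ae
      filter_upwards [
        indicatorConstLp_coeFn (p := 2) (hs := hA) (hμs := hA'.ne) (c := (1 : ℝ))] with x hx2
      rw [hx2]
      by_cases hxA : x ∈ A
      · simp [hxA]
      · simp [hxA]
    rw [this, integral_indicator hA, ← integral_const_mul]
    simp
  refine ⟨fun x => min (max (v₀ x) 0) c⁻¹, ?_, ?_, ?_, ?_⟩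
  · exact ((Lp.stronglyMeasurable v₀).measurable.max measurable_const).min measurable_const
  · intro x
    exact le_min (le_max_right _ _) (inv_pos.mpr hc).le
  · intro x
    calc c * min (max (v₀ x) 0) c⁻¹ ≤ c * c⁻¹ :=
          mul_le_mul_of_nonneg_left (min_le_right _ _) hc.le
      _ = 1 := mul_inv_cancel₀ hc.ne'
  · intro ζ
    rw [← hgT ζ, ← hv₀, L2.inner_def]
    apply integral_congr_ae
    filter_upwards [hnn, hle] with x hx1 hx2
    have h1 : max (v₀ x) 0 = v₀ x := max_eq_left hx1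
    have h2 : min (v₀ x) c⁻¹ = v₀ x := min_eq_left hx2
    simp only [h1, h2]
    simp [mul_comm]

end R197VPA
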