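import Pool.Agent.R197.VP.Stm
import Pool.Agent.R197.VP.EXIA

/-!
Piece EXI (uses MAX and FIN).
-/

set_option autoImplicit false

open MeasureTheory Set Filter Topology Metric
open scoped ENNReal NNReal ContDiff Laplacian

namespace R197VP

lemma exi_c2 {N : ℕ} {ζ : E N → ℝ} (h : ContDiff ℝ ∞ ζ) : ContDiff ℝ 2 ζ := by
  exact_mod_cast contDiff_infty.1 h 2

lemma exi_lap_cont {N : ℕ} {ζ : E N → ℝ} (h : ContDiff ℝ ∞ ζ) : Continuous (Δ ζ) := by
  rw [InnerProductSpace.laplacian_eq_iteratedFDeriv_stdOrthonormalBasis]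
  apply continuous_finsetSum
  intro i _
  have h1 : Continuous (fun x => iteratedFDeriv ℝ 2 ζ x) :=
    (exi_c2 h).continuous_iteratedFDeriv (m := 2) le_rfl
  have h2 : Continuous (fun x => ((iteratedFDeriv ℝ 2 ζ x)
    ![(stdOrthonormalBasis ℝ (E N)) i, (stdOrthonormalBasis ℝ (E N)) i] : ℝ)) := by
    exact (ContinuousMultilinearMap.apply ℝ (fun _ : Fin 2 => E N) ℝ
      ![(stdOrthonormalBasis ℝ (E N)) i, (stdOrthonormalBasis ℝ (E N)) i]).continuous.comp h1
  exact h2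

lemma exi_ofReal_integral_le {X : Type*} [MeasurableSpace X] (μ : Measure X) (f : X → ℝ) :
    ENNReal.ofReal (∫ x, f x ∂μ) ≤ ∫⁻ x, ENNReal.ofReal (f x) ∂μ := by
  by_cases hf : Integrable f μ
  · rw [integral_eq_lintegral_pos_part_sub_lintegral_neg_part hf]
    have hfin : ∫⁻ x, ENNReal.ofReal (f x) ∂μ ≠ ⊤ := by
      have := hf.lintegral_lt_top
      exact this.ne
    calc ENNReal.ofReal ((∫⁻ x, ENNReal.ofReal (f x) ∂μ).toReal
          - (∫⁻ x, ENNReal.ofReal (-f x) ∂μ).toReal)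
        ≤ ENNReal.ofReal ((∫⁻ x, ENNReal.ofReal (f x) ∂μ).toReal) :=
          ENNReal.ofReal_le_ofReal (sub_le_self _ ENNReal.toReal_nonneg)
      _ = _ := ENNReal.ofReal_toReal hfin
  · rw [integral_undef hf]
    simp

lemma exi_gk_mul (γ : ℝ → ℝ) (hγ : ∀ t, 0 < t → 0 ≤ γ t) (t M : ℝ) (hM : 0 ≤ M) :
    ENNReal.ofReal (γ t * M) ≤ gk γ t * ENNReal.ofReal M := by
  unfold gk
  split_ifs with h
  · rcases hM.eq_or_lt with h0 | h0
    · rw [← h0]
      simp
    · rw [ENNReal.top_mul]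
      · exact le_top
      · simpa using h0
  · rw [ENNReal.ofReal_mul (hγ t (not_le.mp h))]

lemma exi_key {N : ℕ} (Ω : Set (E N)) (γ : ℝ → ℝ) (c : ℝ) (hγ : ∀ t, 0 < t → 0 ≤ γ t)
    (ν : Measure (E N)) [IsFiniteMeasure ν] (hν0 : ν Ωᶜ = 0)
    (hmeas : Measurable fun p : E N × E N => gk γ (dist p.1 p.2))
    (Mf : E N → ℝ) (hM0 : ∀ x, 0 ≤ Mf x) (hMmeas : Measurable (fun x => ENNReal.ofReal (Mf x)))
    (φ : E N → ℝ) (hφ : ∀ x ∈ Ω, c * φ x ≤ ∫ y in Ω, γ (dist x y) * Mf y) :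
    ∫⁻ x, ENNReal.ofReal (c * φ x) ∂ν ≤
      ∫⁻ x, ENNReal.ofReal (Mf x) ∂((volume.restrict Ω).withDensity (Pt γ ν)) := by
  have hU : Measurable (Pt γ ν) := hmeas.lintegral_prod_right'
  have hνΩ : ∀ᵐ x ∂ν, x ∈ Ω := by
    rw [ae_iff]
    exact hν0
  have s1 : ∀ x ∈ Ω, ENNReal.ofReal (c * φ x) ≤
      ∫⁻ y in Ω, gk γ (dist x y) * ENNReal.ofReal (Mf y) := by
    intro x hx
    calc ENNReal.ofReal (c * φ x)
        ≤ ENNReal.ofReal (∫ y in Ω, γ (dist x y) * Mf y) := ENNReal.ofReal_le_ofReal (hφ x hx)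
      _ ≤ ∫⁻ y in Ω, ENNReal.ofReal (γ (dist x y) * Mf y) := exi_ofReal_integral_le _ _
      _ ≤ _ := lintegral_mono fun y => exi_gk_mul γ hγ _ _ (hM0 y)
  have m1 : Measurable (Function.uncurry fun x y : E N =>
      gk γ (dist x y) * ENNReal.ofReal (Mf y)) := hmeas.mul (hMmeas.comp measurable_snd)
  have m2 : ∀ y : E N, Measurable (fun x : E N => gk γ (dist x y)) := fun y =>
    hmeas.comp (f := fun x : E N => (x, y)) (measurable_id.prodMk measurable_const)
  have s3 : ∀ y, ∫⁻ x, gk γ (dist x y) * ENNReal.ofReal (Mf y) ∂ν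
      = Pt γ ν y * ENNReal.ofReal (Mf y) := by
    intro y
    rw [lintegral_mul_const _ (m2 y)]
    congr 1
    exact lintegral_congr fun x => by rw [dist_comm]
  calc ∫⁻ x, ENNReal.ofReal (c * φ x) ∂ν
      ≤ ∫⁻ x, (∫⁻ y in Ω, gk γ (dist x y) * ENNReal.ofReal (Mf y)) ∂ν := by
        apply lintegral_mono_ae
        filter_upwards [hνΩ] with x hx
        exact s1 x hx
    _ = ∫⁻ y in Ω, (∫⁻ x, gk γ (dist x y) * ENNReal.ofReal (Mf y) ∂ν) :=
        lintegral_lintegral_swap m1.aemeasurable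
    _ = ∫⁻ y in Ω, Pt γ ν y * ENNReal.ofReal (Mf y) := lintegral_congr fun y => s3 y
    _ = ∫⁻ x, ENNReal.ofReal (Mf x) ∂((volume.restrict Ω).withDensity (Pt γ ν)) := by
        rw [lintegral_withDensity_eq_lintegral_mul _ hU hMmeas]
        rfl

/-- test functions as a submodule -/
def testSub {N : ℕ} (Ω : Set (E N)) : Submodule ℝ (E N → ℝ) where
  carrier := {ζ | IsTest Ω ζ}
  add_mem' := by
    rintro a b ⟨ha, ha'⟩ ⟨hb, hb'⟩
    refine ⟨ha.add hb, fun x hx => ?_⟩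
    simp [ha' x hx, hb' x hx]
  zero_mem' := ⟨contDiff_const, fun x _ => rfl⟩
  smul_mem' := by
    rintro r a ⟨ha, ha'⟩
    refine ⟨ha.const_smul r, fun x hx => ?_⟩
    simp [ha' x hx]

theorem EXI (hM : Stm_MAX) (hF : Stm_FIN) : Stm_EXI := by
  intro N Ω γ c hN hΩ hb hK ν hν hν0
  obtain ⟨hmeas, hfin, -⟩ := hF N Ω γ c hN hb hK
  have hc := hK.cpos
  have hU : Measurable (Pt γ ν) := hmeas.lintegral_prod_right'
  have hUfin : ∫⁻ x in Ω, Pt γ ν x < ⊤ := hfin ν hν
  have hUae : ∀ᵐ x ∂(volume.restrict Ω), Pt γ ν x < ⊤ := ae_lt_top hU hUfin.ne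
  set lam : Measure (E N) := (volume.restrict Ω).withDensity (Pt γ ν) with hlam
  have hlamf : IsFiniteMeasure lam := by
    constructor
    rw [hlam, withDensity_apply _ MeasurableSet.univ, Measure.restrict_univ]
    exact hUfin
  have hΩcl : IsCompact (closure Ω) := hb.isCompact_closure
  have hlamΩ : ∀ᵐ x ∂lam, x ∈ Ω := by
    have h1 : ∀ᵐ x ∂(volume.restrict Ω), x ∈ Ω := ae_restrict_mem hΩ.measurableSet
    exact (withDensity_absolutelyContinuous _ _).ae_le h1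
  -- bound
  have hbd : ∀ ζ : E N → ℝ, IsTest Ω ζ → ∃ B : ℝ, ∀ x ∈ Ω, |(Δ ζ) x| ≤ B := by
    intro ζ hζ
    obtain ⟨B, hB⟩ := hΩcl.exists_bound_of_continuousOn (exi_lap_cont hζ.1).continuousOn
    exact ⟨B, fun x hx => hB x (subset_closure hx)⟩
  have hmem : ∀ ζ : E N → ℝ, IsTest Ω ζ → MemLp (fun x => -(Δ ζ) x) 2 lam := by
    intro ζ hζ
    obtain ⟨B, hB⟩ := hbd ζ hζ
    apply MemLp.of_bound (exi_lap_cont hζ.1).neg.aestronglyMeasurable B
    filter_upwards [hlamΩ] with x hx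
    simpa using hB x hx
  -- T
  let T : testSub Ω →ₗ[ℝ] Lp ℝ 2 lam :=
    { toFun := fun ζ => (hmem ζ.1 ζ.2).toLp _
      map_add' := by
        intro a b
        apply Lp.ext
        refine (MemLp.coeFn_toLp _).trans ?_
        filter_upwards [Lp.coeFn_add ((hmem a.1 a.2).toLp _) ((hmem b.1 b.2).toLp _),
          (hmem a.1 a.2).coeFn_toLp, (hmem b.1 b.2).coeFn_toLp] with x h1 h2 h3
        rw [h1]
        simp only [Pi.add_apply]
        rw [h2, h3]
        have ha : ContDiffAt ℝ 2 (a : E N → ℝ) x :=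
          (exi_c2 a.2.1).contDiffAt
        have hb : ContDiffAt ℝ 2 (b : E N → ℝ) x :=
          (exi_c2 b.2.1).contDiffAt
        have h4 := ha.laplacian_add hb
        have h5 : ((a + b : testSub Ω) : E N → ℝ) = (a : E N → ℝ) + (b : E N → ℝ) := rfl
        rw [h5, h4]
        ring
      map_smul' := by
        intro r a
        apply Lp.ext
        refine (MemLp.coeFn_toLp _).trans ?_
        filter_upwards [Lp.coeFn_smul r ((hmem a.1 a.2).toLp _),
          (hmem a.1 a.2).coeFn_toLp] with x h1 h2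
        simp only [RingHom.id_apply]
        rw [h1]
        simp only [Pi.smul_apply]
        rw [h2]
        have ha : ContDiffAt ℝ 2 (a : E N → ℝ) x :=
          (exi_c2 a.2.1).contDiffAt
        have h4 := InnerProductSpace.laplacian_smul r ha
        have h5 : ((r • a : testSub Ω) : E N → ℝ) = r • (a : E N → ℝ) := rfl
        rw [h5, h4]
        simp }
  have hTae : ∀ ζ : testSub Ω, (T ζ : E N → ℝ) =ᵐ[lam] fun x => -(Δ (ζ : E N → ℝ)) x :=
    fun ζ => (hmem ζ.1 ζ.2).coeFn_toLp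
  -- integrability wrt nu
  have hνΩ : ∀ᵐ x ∂ν, x ∈ Ω := by
    rw [ae_iff]
    exact hν0
  have hint : ∀ ζ : E N → ℝ, IsTest Ω ζ → Integrable ζ ν := by
    intro ζ hζ
    obtain ⟨B, hB⟩ := hΩcl.exists_bound_of_continuousOn hζ.1.continuous.continuousOn
    apply Integrable.of_bound hζ.1.continuous.aestronglyMeasurable B
    filter_upwards [hνΩ] with x hx
    exact hB x (subset_closure hx)
  let l : testSub Ω →ₗ[ℝ] ℝ :=
    { toFun := fun ζ => ∫ x, (ζ : E N → ℝ) x ∂ν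
      map_add' := by
        intro a b
        exact integral_add (hint a.1 a.2) (hint b.1 b.2)
      map_smul' := by
        intro r a
        exact integral_const_mul r _ }
  -- key inequality
  have key : ∀ ζ : testSub Ω, c * l ζ ≤ ∫ x, max (T ζ x) 0 ∂lam := by
    intro ζ
    have e1 : ∫ x, max (T ζ x) 0 ∂lam = ∫ x, max (-(Δ (ζ : E N → ℝ)) x) 0 ∂lam := by
      apply integral_congr_ae
      filter_upwards [hTae ζ] with x hx
      rw [hx]
    rw [e1]
    set Mf : E N → ℝ := fun x => max (-(Δ (ζ : E N → ℝ)) x) 0 with hMf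
    have hMc : Continuous Mf := (exi_lap_cont ζ.2.1).neg.max continuous_const
    have hM0 : ∀ x, 0 ≤ Mf x := fun x => le_max_right _ _
    have hMmeas : Measurable (fun x => ENNReal.ofReal (Mf x)) :=
      hMc.measurable.ennreal_ofReal
    have s2 : ∫⁻ x, ENNReal.ofReal (c * (ζ : E N → ℝ) x) ∂ν ≤
        ∫⁻ x, ENNReal.ofReal (Mf x) ∂lam :=
      exi_key Ω γ c hK.nonneg ν hν0 hmeas Mf hM0 hMmeas (ζ : E N → ℝ)
        (fun x hx => hM N Ω γ c hN hΩ hb hK ζ.1 ζ.2 x hx)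
    obtain ⟨B, hB⟩ := hbd ζ.1 ζ.2
    have hMint : Integrable Mf lam := by
      apply Integrable.of_bound hMc.aestronglyMeasurable |B|
      filter_upwards [hlamΩ] with x hx
      have h1 := hB x hx
      rw [abs_le] at h1
      rw [Real.norm_eq_abs, abs_of_nonneg (hM0 x)]
      apply max_le _ (abs_nonneg _)
      have := le_abs_self B
      linarith [h1.1]
    have hfinM : ∫⁻ x, ENNReal.ofReal (Mf x) ∂lam ≠ ⊤ := hMint.lintegral_lt_top.ne
    have e2 : ∫ x, Mf x ∂lam = (∫⁻ x, ENNReal.ofReal (Mf x) ∂lam).toReal :=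
      integral_eq_lintegral_of_nonneg_ae (Eventually.of_forall hM0) hMc.aestronglyMeasurable
    rw [e2]
    have e3 : c * l ζ = ∫ x, c * (ζ : E N → ℝ) x ∂ν := (integral_const_mul _ _).symm
    rw [e3]
    have s3 : ENNReal.ofReal (∫ x, c * (ζ : E N → ℝ) x ∂ν) ≤ ∫⁻ x, ENNReal.ofReal (Mf x) ∂lam :=
      (exi_ofReal_integral_le _ _).trans s2
    exact (ENNReal.ofReal_le_iff_le_toReal hfinM).mp s3
  obtain ⟨v, hv1, hv2, hv3, hv4⟩ := R197VPA.riesz_hb lam T l c hc key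
  refine ⟨fun x => (Pt γ ν x).toReal * v x, hU.ennreal_toReal.mul hv1,
    fun x => mul_nonneg ENNReal.toReal_nonneg (hv2 x), ⟨?_, ?_⟩, ?_⟩
  · have h1 : Integrable (fun x => (Pt γ ν x).toReal) (volume.restrict Ω) :=
      integrable_toReal_of_lintegral_ne_top hU.aemeasurable hUfin.ne
    have h2 : Integrable (fun x => (Pt γ ν x).toReal * v x) (volume.restrict Ω) := by
      apply h1.mul_bdd (c := c⁻¹) hv1.aestronglyMeasurable
      refine Eventually.of_forall fun x => ?_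
      rw [Real.norm_eq_abs, abs_of_nonneg (hv2 x)]
      have := hv3 x
      rw [← one_div, le_div_iff₀ hc, mul_comm]
      exact this
    exact h2
  · intro ζ hζ
    have h1 := hv4 ⟨ζ, hζ⟩
    have h2 : ∫ x, v x * T ⟨ζ, hζ⟩ x ∂lam = ∫ x, v x * (-(Δ ζ) x) ∂lam := by
      apply integral_congr_ae
      filter_upwards [hTae ⟨ζ, hζ⟩] with x hx
      rw [hx]
    rw [h2, hlam, integral_withDensity_eq_integral_toReal_smul hU hUae] at h1
    have h3 : l ⟨ζ, hζ⟩ = ∫ x, ζ x ∂ν := rfl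
    rw [← h3, h1, ← integral_neg]
    apply integral_congr_ae
    refine Eventually.of_forall fun x => ?_
    simp only [smul_eq_mul]
    ring
  · filter_upwards [hUae] with x hx
    calc ENNReal.ofReal (c * ((Pt γ ν x).toReal * v x))
        ≤ ENNReal.ofReal ((Pt γ ν x).toReal) := by
          apply ENNReal.ofReal_le_ofReal
          have h1 := hv3 x
          have h2 : 0 ≤ (Pt γ ν x).toReal := ENNReal.toReal_nonneg
          nlinarith
      _ = Pt γ ν x := ENNReal.ofReal_toReal hx.ne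

end R197VP
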