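import Pool.Agent.R197.VP.Stm
import Pool.Agent.Helper486.TP.NewtonLap

/-! MP_8eef66_an, piece KER2: the logarithmic kernel of the plane. -/

set_option autoImplicit false

open MeasureTheory Set Filter Topology Metric
open scoped ENNReal NNReal ContDiff Laplacian InnerProductSpace

namespace R197VP

namespace KER2P

open Pool.Agent.Helper486.TP (nl_lap_eq int_parts lap_cont lap_supp hasFDerivAt_g kint)

/-- regularised kernel -/
noncomputable def fL (K ε : ℝ) (a y : E 2) : ℝ := K - (1 / 2) * Real.log (‖y - a‖ ^ 2 + ε ^ 2)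

theorem fL_contDiff (K : ℝ) {ε : ℝ} (hε : 0 < ε) (a : E 2) : ContDiff ℝ ∞ (fL K ε a) := by
  unfold fL
  apply contDiff_const.sub
  apply contDiff_const.mul
  apply ContDiff.log
  · exact ((contDiff_id.sub contDiff_const).norm_sq ℝ).add contDiff_const
  · intro x
    have : 0 < ‖x - a‖ ^ 2 + ε ^ 2 := by positivity
    exact this.ne'

theorem hasFDerivAt_q (ε : ℝ) (a y : E 2) :
    HasFDerivAt (fun y : E 2 => ‖y - a‖ ^ 2 + ε ^ 2) (2 • (innerSL ℝ (y - a))) y := by
  have h1 : HasFDerivAt (fun y : E 2 => y - a) (ContinuousLinearMap.id ℝ (E 2)) y :=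
    (hasFDerivAt_id y).sub_const a
  have := h1.norm_sq.add_const (ε ^ 2)
  simpa using this

theorem fL_D (K : ℝ) {ε : ℝ} (hε : 0 < ε) (a y : E 2) (i : Fin 2) :
    fderiv ℝ (fL K ε a) y (EuclideanSpace.basisFun (Fin 2) ℝ i)
      = -((y i - a i) * (‖y - a‖ ^ 2 + ε ^ 2) ^ (-1 : ℝ)) := by
  have hpos : 0 < ‖y - a‖ ^ 2 + ε ^ 2 := by positivity
  have h := (((hasFDerivAt_q ε a y).log hpos.ne').const_mul (1 / 2)).const_sub K
  have h2 : fderiv ℝ (fL K ε a) y = _ := h.fderiv
  rw [h2, Real.rpow_neg_one]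
  simp [real_inner_comm, EuclideanSpace.inner_single_left, EuclideanSpace.inner_single_right]
  ring

theorem fL_DD (K : ℝ) {ε : ℝ} (hε : 0 < ε) (a y : E 2) (i : Fin 2) :
    fderiv ℝ (fun z => fderiv ℝ (fL K ε a) z (EuclideanSpace.basisFun (Fin 2) ℝ i)) y
        (EuclideanSpace.basisFun (Fin 2) ℝ i)
      = -((‖y - a‖ ^ 2 + ε ^ 2) ^ (-1 : ℝ)
          - 2 * (y i - a i) ^ 2 * (‖y - a‖ ^ 2 + ε ^ 2) ^ (-1 - 1 : ℝ)) := by
  have h0 : (fun z => fderiv ℝ (fL K ε a) z (EuclideanSpace.basisFun (Fin 2) ℝ i))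
      = fun z : E 2 => -((z i - a i) * (‖z - a‖ ^ 2 + ε ^ 2) ^ (-1 : ℝ)) := by
    ext z; exact fL_D K hε a z i
  rw [h0]
  have h1 := hasFDerivAt_g ε (-1) hε a y
  have h2 : HasFDerivAt (fun z : E 2 => z i - a i) (EuclideanSpace.proj i : E 2 →L[ℝ] ℝ) y := by
    exact (EuclideanSpace.proj i : E 2 →L[ℝ] ℝ).hasFDerivAt.sub_const (a i)
  have h3 := (h2.mul h1).neg
  have h4 := h3.fderiv
  have h5 : fderiv ℝ (fun z : E 2 => -((z i - a i) * (‖z - a‖ ^ 2 + ε ^ 2) ^ (-1 : ℝ))) y = _ := h4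
  rw [h5]
  simp [EuclideanSpace.inner_single_right]
  ring

theorem fL_lap (K : ℝ) {ε : ℝ} (hε : 0 < ε) (a y : E 2) :
    ∑ i, fderiv ℝ (fun z => fderiv ℝ (fL K ε a) z (EuclideanSpace.basisFun (Fin 2) ℝ i)) y
        (EuclideanSpace.basisFun (Fin 2) ℝ i)
      = -(2 * ε ^ 2 * ((‖y - a‖ ^ 2 + ε ^ 2) ^ 2)⁻¹) := by
  simp_rw [fL_DD K hε a y]
  have h1 : (y 0 - a 0) ^ 2 + (y 1 - a 1) ^ 2 = ‖y - a‖ ^ 2 := by
    rw [EuclideanSpace.norm_sq_eq]
    simp [Fin.sum_univ_two]
  rw [Fin.sum_univ_two]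
  have hpos : 0 < ‖y - a‖ ^ 2 + ε ^ 2 := by positivity
  have h2 : (‖y - a‖ ^ 2 + ε ^ 2) ^ (-1 - 1 : ℝ) = ((‖y - a‖ ^ 2 + ε ^ 2) ^ 2)⁻¹ := by
    rw [show (-1 - 1 : ℝ) = -2 by norm_num, Real.rpow_neg hpos.le]
    norm_num
  rw [h2, Real.rpow_neg_one]
  generalize ‖y - a‖ ^ 2 = q at *
  field_simp
  nlinarith [h1]

theorem green (K : ℝ) {ε : ℝ} (hε : 0 < ε) {φ : E 2 → ℝ} (hφ : ContDiff ℝ ∞ φ)
    (hs : HasCompactSupport φ) (a : E 2) :
    ∫ y, fL K ε a y * (Δ φ) y
      = ∫ y, -(2 * ε ^ 2 * ((‖y - a‖ ^ 2 + ε ^ 2) ^ 2)⁻¹) * φ y := by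
  have hD : ∀ {ψ : E 2 → ℝ}, ContDiff ℝ ∞ ψ → ∀ v : E 2, ContDiff ℝ ∞ (fun z => fderiv ℝ ψ z v) := by
    intro ψ h v
    exact (h.fderiv_right (m := ∞) (by norm_cast)).clm_apply contDiff_const
  have hfe := fL_contDiff K hε a
  simp_rw [← fL_lap K hε a, nl_lap_eq hφ, Finset.mul_sum, Finset.sum_mul]
  rw [integral_finset_sum, integral_finset_sum]
  · apply Finset.sum_congr rfl
    intro i _
    set v := EuclideanSpace.basisFun (Fin 2) ℝ i
    rw [int_parts (fL K ε a) (fun z => fderiv ℝ φ z v) (hfe.of_le (by norm_cast)) ((hD hφ v).of_le (by norm_cast)) (hs.fderiv_apply (𝕜 := ℝ) v) v]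
    rw [int_parts (fun z => fderiv ℝ (fL K ε a) z v) φ ((hD hfe v).of_le (by norm_cast)) (hφ.of_le (by norm_cast)) hs v]
    ring
  · intro i _
    refine Continuous.integrable_of_hasCompactSupport ?_ (hs.mul_left)
    exact (hD (hD hfe _) _).continuous.mul hφ.continuous
  · intro i _
    refine Continuous.integrable_of_hasCompactSupport ?_ (HasCompactSupport.mul_left ?_)
    · exact hfe.continuous.mul (hD (hD hφ _) _).continuous
    · exact (hs.fderiv_apply (𝕜 := ℝ) _).fderiv_apply (𝕜 := ℝ) _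

/-- the limit kernel -/
noncomputable def kk (w : E 2) : ℝ := 2 * (((1 : ℝ) + ‖w‖ ^ 2) ^ 2)⁻¹

theorem kk_int : Integrable kk := by
  have h := (kint (n := 2)).const_mul 2
  refine h.congr (ae_of_all _ fun w => ?_)
  have hpos : 0 < (1 : ℝ) + ‖w‖ ^ 2 := by positivity
  simp only [kk]
  congr 1
  rw [show (-(((2 : ℕ) : ℝ) + 2) / 2 : ℝ) = -2 by norm_num, Real.rpow_neg hpos.le]
  norm_num

theorem subst_eq {ε : ℝ} (hε : 0 < ε) (φ : E 2 → ℝ) (a : E 2) :
    ∫ y, -(2 * ε ^ 2 * ((‖y - a‖ ^ 2 + ε ^ 2) ^ 2)⁻¹) * φ y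
      = -∫ w : E 2, kk w * φ (a + ε • w) := by
  rw [← integral_add_left_eq_self _ a]
  have h := Measure.integral_comp_smul_of_nonneg (volume : Measure (E 2))
    (fun y => -(2 * ε ^ 2 * ((‖a + y - a‖ ^ 2 + ε ^ 2) ^ 2)⁻¹) * φ (a + y)) ε (hR := hε.le)
  have hd : Module.finrank ℝ (E 2) = 2 := by simp [E]
  rw [hd] at h
  have hεn : ε ^ 2 ≠ 0 := by positivity
  have h2 : ∫ y, -(2 * ε ^ 2 * ((‖a + y - a‖ ^ 2 + ε ^ 2) ^ 2)⁻¹) * φ (a + y)
      = ε ^ 2 * ∫ x : E 2, -(2 * ε ^ 2 * ((‖a + ε • x - a‖ ^ 2 + ε ^ 2) ^ 2)⁻¹) * φ (a + ε • x) := by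
    rw [h, smul_eq_mul, mul_inv_cancel_left₀ hεn]
  rw [h2, ← integral_const_mul, ← integral_neg]
  congr 1
  ext w
  have h3 : ‖a + ε • w - a‖ ^ 2 + ε ^ 2 = ε ^ 2 * (1 + ‖w‖ ^ 2) := by
    rw [add_sub_cancel_left, norm_smul, Real.norm_of_nonneg hε.le]; ring
  rw [h3, kk]
  have hpos : 0 < (1 : ℝ) + ‖w‖ ^ 2 := by positivity
  field_simp

theorem inv_intOn (r : ℝ) : IntegrableOn (fun y : E 2 => ‖y‖⁻¹) (ball 0 r) := by
  have hd : Module.finrank ℝ (E 2) = 2 := by simp [E]
  refine integrableOn_ball_of_norm_le_rpow (μ := (volume : Measure (E 2))) (C := 1)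
    (α := 1) (by rw [hd]; omega) (by rw [hd]; norm_num) ?_ ?_
  · refine ae_of_all _ (fun x => ?_)
    rw [one_mul, Real.norm_of_nonneg (by positivity), Real.rpow_neg_one]
  · exact (measurable_norm.inv).aestronglyMeasurable

theorem inv_intOn' (a : E 2) (r : ℝ) : IntegrableOn (fun y : E 2 => ‖y - a‖⁻¹) (ball a r) := by
  have h := (measurePreserving_sub_right (volume : Measure (E 2)) a).integrableOn_comp_preimage
    (MeasurableEquiv.subRight a).measurableEmbedding (f := fun y : E 2 => ‖y‖⁻¹) (s := ball 0 r)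
  have h2 := h.2 (inv_intOn r)
  have e : (fun y : E 2 => y - a) ⁻¹' ball 0 r = ball a r := by
    ext y
    simp [dist_eq_norm]
  rw [e] at h2
  exact h2

theorem fundL (K : ℝ) {φ : E 2 → ℝ} (hφ : ContDiff ℝ ∞ φ) (hs : HasCompactSupport φ) (a : E 2) :
    ∫ y, (K - Real.log ‖y - a‖) * (Δ φ) y = -(∫ w, kk w) * φ a := by
  have hkpos : ∀ w, 0 ≤ kk w := fun w => by unfold kk; positivity
  set e : ℕ → ℝ := fun m => 1 / ((m : ℝ) + 1) with he
  have hepos : ∀ m, 0 < e m := fun m => by positivity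
  have hele : ∀ m, e m ≤ 1 := fun m => by
    rw [he]
    simp only []
    rw [div_le_one (by positivity)]
    have : (0 : ℝ) ≤ m := by positivity
    linarith
  have helim : Tendsto e atTop (𝓝 0) := tendsto_one_div_add_atTop_nhds_zero_nat
  have hLc := lap_cont hφ
  have hLs := lap_supp hφ hs
  obtain ⟨M, hM⟩ : ∃ M, ∀ y, ‖(Δ φ) y‖ ≤ M := by
    have hcs : HasCompactSupport (Δ φ) := HasCompactSupport.intro hs (fun y hy => hLs y hy)
    exact hcs.exists_bound_of_continuous hLc
  obtain ⟨M', hM'⟩ : ∃ M, ∀ y, ‖φ y‖ ≤ M := hs.exists_bound_of_continuous hφ.continuous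
  have h0 : ∀ᵐ y : E 2, y ≠ a := by
    rw [ae_iff]; simp
  -- left side
  have hL : Tendsto (fun m => ∫ y, fL K (e m) a y * (Δ φ) y) atTop
      (𝓝 (∫ y, (K - Real.log ‖y - a‖) * (Δ φ) y)) := by
    apply tendsto_integral_of_dominated_convergence
      (fun y => (|K| + (‖y - a‖ ^ 2 + 1) + ‖y - a‖⁻¹) * ‖(Δ φ) y‖)
    · intro m
      exact ((fL_contDiff K (hepos m) a).continuous.mul hLc).aestronglyMeasurable
    · obtain ⟨r, hr⟩ := hs.isBounded.subset_ball a
      have hK : IntegrableOn (fun y : E 2 => |K| + (‖y - a‖ ^ 2 + 1) + ‖y - a‖⁻¹) (tsupport φ) := by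
        apply Integrable.add
        · apply ContinuousOn.integrableOn_compact hs
          fun_prop
        · exact (inv_intOn' a r).mono_set hr
      have h1 : IntegrableOn (fun y => (|K| + (‖y - a‖ ^ 2 + 1) + ‖y - a‖⁻¹) * ‖(Δ φ) y‖) (tsupport φ) := by
        apply Integrable.mul_bdd (c := M) hK
        · exact hLc.norm.aestronglyMeasurable
        · exact ae_of_all _ (fun y => by rw [norm_norm]; exact hM y)
      rw [← integrableOn_iff_integrable_of_support_subset (s := tsupport φ)]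
      · exact h1
      · intro y hy
        by_contra h
        apply hy
        simp [hLs y h]
    · intro m
      filter_upwards [h0] with y hy
      rw [norm_mul]
      apply mul_le_mul_of_nonneg_right _ (norm_nonneg _)
      have hp : 0 < ‖y - a‖ := norm_pos_iff.2 (sub_ne_zero.2 hy)
      have he1 : (e m) ^ 2 ≤ 1 := pow_le_one₀ (hepos m).le (hele m)
      have hq : 0 < ‖y - a‖ ^ 2 + e m ^ 2 := by positivity
      have h1 : Real.log (‖y - a‖ ^ 2 + e m ^ 2) ≤ ‖y - a‖ ^ 2 + e m ^ 2 := Real.log_le_self hq.le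
      have h2 : Real.log (‖y - a‖ ^ 2) ≤ Real.log (‖y - a‖ ^ 2 + e m ^ 2) :=
        Real.log_le_log (by positivity) (by nlinarith [sq_nonneg (e m)])
      have h3 : Real.log (‖y - a‖⁻¹) ≤ ‖y - a‖⁻¹ := Real.log_le_self (by positivity)
      rw [Real.log_inv] at h3
      rw [Real.log_pow] at h2
      push_cast at h2
      have h4 : 0 ≤ ‖y - a‖⁻¹ := by positivity
      have h5 := le_abs_self K
      have h6 := neg_abs_le K
      have h7 : 0 ≤ ‖y - a‖ ^ 2 := by positivity
      rw [Real.norm_eq_abs, abs_le, fL]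
      constructor
      · linarith
      · linarith
    · filter_upwards [h0] with y hy
      apply Tendsto.mul_const
      have hp : 0 < ‖y - a‖ := norm_pos_iff.2 (sub_ne_zero.2 hy)
      have h1 : Tendsto (fun m => ‖y - a‖ ^ 2 + e m ^ 2) atTop (𝓝 (‖y - a‖ ^ 2 + 0 ^ 2)) :=
        tendsto_const_nhds.add (helim.pow 2)
      have h2 := h1.log (by positivity)
      have h3 := (h2.const_mul (1 / 2)).const_sub K
      have e1 : K - 1 / 2 * Real.log (‖y - a‖ ^ 2 + 0 ^ 2) = K - Real.log ‖y - a‖ := by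
        rw [zero_pow (by norm_num), add_zero, Real.log_pow]
        push_cast
        ring
      rw [e1] at h3
      exact h3
  -- right side
  have hR : Tendsto (fun m => -∫ w : E 2, kk w * φ (a + e m • w)) atTop (𝓝 (-∫ w : E 2, kk w * φ a)) := by
    apply Tendsto.neg
    apply tendsto_integral_of_dominated_convergence (fun w => kk w * M')
    · intro m
      apply AEStronglyMeasurable.mul kk_int.1
      have : Continuous (fun w : E 2 => φ (a + e m • w)) := hφ.continuous.comp (by fun_prop)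
      exact this.aestronglyMeasurable
    · exact kk_int.mul_const _
    · intro m
      refine ae_of_all _ (fun w => ?_)
      rw [norm_mul, Real.norm_of_nonneg (hkpos w)]
      exact mul_le_mul_of_nonneg_left (hM' _) (hkpos w)
    · refine ae_of_all _ (fun w => ?_)
      apply Tendsto.const_mul
      have h1 : Tendsto (fun m => a + e m • w) atTop (𝓝 (a + (0 : ℝ) • w)) :=
        tendsto_const_nhds.add (helim.smul_const w)
      rw [zero_smul, add_zero] at h1
      exact (hφ.continuous.tendsto a).comp h1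
  have heq : ∀ m, ∫ y, fL K (e m) a y * (Δ φ) y = -∫ w : E 2, kk w * φ (a + e m • w) := by
    intro m
    rw [green K (hepos m) hφ hs a, subst_eq (hepos m) φ a]
  have := tendsto_nhds_unique hL ((tendsto_congr heq).2 hR)
  rw [this, integral_mul_const]
  ring

/-! ### ball averages -/

/-- positive part of `log (1/|y|)` -/
noncomputable def lg (y : E 2) : ℝ≥0∞ := ENNReal.ofReal (max (Real.log (1 / ‖y‖)) 0)

theorem lg_fin : ∫⁻ y : E 2, lg y ≠ ⊤ := by
  have h1 := (inv_intOn 1).2
  rw [hasFiniteIntegral_iff_ofReal (ae_of_all _ (fun y => by positivity))] at h1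
  refine ne_top_of_le_ne_top h1.ne ?_
  rw [← lintegral_indicator measurableSet_ball]
  apply lintegral_mono
  intro y
  by_cases hy : y ∈ ball (0 : E 2) 1
  · rw [indicator_of_mem hy, lg]
    apply ENNReal.ofReal_le_ofReal
    rw [one_div]
    exact max_le (Real.log_le_self (by positivity)) (by positivity)
  · rw [indicator_of_notMem hy, lg]
    have h2 : 1 ≤ ‖y‖ := by simpa using hy
    have h3 : Real.log (1 / ‖y‖) ≤ 0 := by
      apply Real.log_nonpos (by positivity)
      rw [div_le_one (by positivity)]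
      exact h2
    rw [max_eq_right h3]
    simp

theorem lg_scale (t : ℝ) (ht : 0 < t) (w : E 2) :
    ∫⁻ y : E 2, ENNReal.ofReal (max (Real.log (t / dist y w)) 0) =
      ENNReal.ofReal (t ^ 2) * ∫⁻ y : E 2, lg y := by
  rw [← lintegral_add_right_eq_self _ w]
  have hd : Module.finrank ℝ (E 2) = 2 := by simp [E]
  have hm : Measurable (fun y : E 2 => ENNReal.ofReal (max (Real.log (t / ‖y‖)) 0)) := by
    apply ENNReal.measurable_ofReal.comp
    apply Measurable.max _ measurable_const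
    exact Real.measurable_log.comp (measurable_const.div measurable_norm)
  have h1 : ∫⁻ u : E 2, lg u = ∫⁻ u : E 2, ENNReal.ofReal (max (Real.log (t / ‖t • u‖)) 0) := by
    apply lintegral_congr
    intro u
    rw [lg, norm_smul, Real.norm_of_nonneg ht.le, div_mul_eq_div_div, div_self ht.ne']
  have h2 : ∫⁻ u : E 2, ENNReal.ofReal (max (Real.log (t / ‖t • u‖)) 0) =
      ∫⁻ y, ENNReal.ofReal (max (Real.log (t / ‖y‖)) 0) ∂(Measure.map (t • ·) (volume : Measure (E 2))) := by
    rw [lintegral_map hm (measurable_const_smul t)]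
  rw [h1, h2, Measure.map_addHaar_smul _ ht.ne', hd, lintegral_smul_measure, smul_eq_mul, ← mul_assoc,
    ← ENNReal.ofReal_mul (by positivity), abs_of_pos (by positivity),
    mul_inv_cancel₀ (by positivity), ENNReal.ofReal_one, one_mul]
  apply lintegral_congr
  intro y
  simp [dist_eq_norm]

end KER2P

open KER2P

theorem KER2 : Stm_KER2 := by
  intro Ω hΩ
  obtain ⟨R0, hR0, hsub⟩ := hΩ.subset_ball_lt 0 (0 : E 2)
  set R : ℝ := 2 * R0 + 1 with hR
  have hRpos : 0 < R := by linarith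
  set γ : ℝ → ℝ := fun t => max (Real.log (R / t)) 0 with hγ
  have hγ1 : ∀ t, γ t = max (Real.log (R / t)) 0 := fun t => rfl
  have hγ0 : ∀ t, 0 ≤ γ t := fun t => le_max_right _ _
  have hlog : ∀ s t : ℝ, 0 < s → 0 < t → γ s ≤ γ t + max (Real.log (t / s)) 0 := by
    intro s t hs ht
    rw [hγ1, hγ1]
    have h1 : Real.log (R / s) = Real.log (R / t) + Real.log (t / s) := by
      rw [← Real.log_mul (by positivity) (by positivity)]
      congr 1
      field_simp
    rw [h1]
    apply max_le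
    · exact add_le_add (le_max_left _ _) (le_max_left _ _)
    · exact add_nonneg (le_max_right _ _) (le_max_right _ _)
  have hmono : ∀ s t, 0 < s → s ≤ t → γ t ≤ γ s := by
    intro s t hs hst
    rw [hγ1, hγ1]
    apply max_le_max _ (le_refl _)
    apply Real.log_le_log (div_pos hRpos (by linarith))
    exact div_le_div_of_nonneg_left hRpos.le hs hst
  refine ⟨γ, ∫ w, kk w, ?_, fun t _ => hγ0 t, hmono, ?_, ?_, ?_, ?_, ?_⟩
  · exact (Real.measurable_log.comp (measurable_const.div measurable_id)).max measurable_const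
  · intro κ hκ hκ1
    have h1 : 0 ≤ Real.log (1 / κ) := Real.log_nonneg (by rw [le_div_iff₀ hκ]; linarith)
    refine ⟨1 + Real.log (1 / κ), by linarith, fun t ht => ?_⟩
    have h2 := hlog (κ * t) t (by positivity) ht
    have h3 : t / (κ * t) = 1 / κ := by field_simp
    rw [h3, max_eq_left h1] at h2
    have h4 := hγ0 t
    nlinarith
  · intro η hη
    refine ⟨min (1 / 2) η, by positivity, min_le_left _ _, fun t ht => ?_⟩
    set ρ := min (1 / 2) η with hρ
    have hρ0 : 0 < ρ := by positivity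
    have h2 := hlog t ((1 + ρ) * t) ht (by positivity)
    have h3 : (1 + ρ) * t / t = 1 + ρ := by field_simp
    have h4 : Real.log (1 + ρ) ≤ ρ := by
      have := Real.log_le_sub_one_of_pos (x := 1 + ρ) (by positivity)
      linarith
    rw [h3] at h2
    have h5 : max (Real.log (1 + ρ)) 0 ≤ η := max_le (h4.trans (min_le_right _ _)) hη.le
    have h6 := hγ0 ((1 + ρ) * t)
    nlinarith
  · set I := ∫⁻ y : E 2, lg y with hI
    have hIf : I ≠ ⊤ := lg_fin
    have hB0 : volume (ball (0 : E 2) 1) ≠ 0 := (measure_ball_pos _ _ one_pos).ne'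
    have hBt : volume (ball (0 : E 2) 1) ≠ ⊤ := measure_ball_lt_top.ne
    have hqf : I / volume (ball (0 : E 2) 1) ≠ ⊤ := ENNReal.div_ne_top hIf hB0
    refine ⟨1 + (I / volume (ball (0 : E 2) 1)).toReal,
      by linarith [ENNReal.toReal_nonneg (a := I / volume (ball (0 : E 2) 1))], fun z w t ht => ?_⟩
    have hd : Module.finrank ℝ (E 2) = 2 := by simp [E]
    have h1 : ∫⁻ y in ball z t, ENNReal.ofReal (γ (dist y w)) ≤
        ∫⁻ y in ball z t, (ENNReal.ofReal (γ t) + ENNReal.ofReal (max (Real.log (t / dist y w)) 0)) := by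
      apply lintegral_mono
      intro y
      show ENNReal.ofReal (γ (dist y w)) ≤
        ENNReal.ofReal (γ t) + ENNReal.ofReal (max (Real.log (t / dist y w)) 0)
      rw [← ENNReal.ofReal_add (hγ0 t) (le_max_right _ _)]
      apply ENNReal.ofReal_le_ofReal
      rcases eq_or_lt_of_le (dist_nonneg (x := y) (y := w)) with h | h
      · rw [← h, hγ1 0]
        simp
        exact hγ0 t
      · exact hlog _ _ h ht
    refine h1.trans ?_
    rw [lintegral_add_left measurable_const, setLIntegral_const]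
    have h2 : ∫⁻ y in ball z t, ENNReal.ofReal (max (Real.log (t / dist y w)) 0) ≤
        ENNReal.ofReal (t ^ 2) * I := by
      rw [hI, ← lg_scale t ht w]
      exact setLIntegral_le_lintegral _ _
    have h3 : volume (ball z t) = ENNReal.ofReal (t ^ 2) * volume (ball (0 : E 2) 1) := by
      rw [Measure.addHaar_ball _ _ ht.le, hd]
    have h4 : ENNReal.ofReal (t ^ 2) * I =
        ENNReal.ofReal (I / volume (ball (0 : E 2) 1)).toReal * volume (ball z t) := by
      rw [h3, ENNReal.ofReal_toReal hqf, mul_left_comm, ENNReal.div_mul_cancel hB0 hBt]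
    calc ENNReal.ofReal (γ t) * volume (ball z t) +
          ∫⁻ y in ball z t, ENNReal.ofReal (max (Real.log (t / dist y w)) 0)
        ≤ ENNReal.ofReal (γ t) * volume (ball z t) +
          ENNReal.ofReal (I / volume (ball (0 : E 2) 1)).toReal * volume (ball z t) := by
          rw [← h4]
          gcongr
      _ = ENNReal.ofReal (γ t + (I / volume (ball (0 : E 2) 1)).toReal) * volume (ball z t) := by
          rw [ENNReal.ofReal_add (hγ0 t) ENNReal.toReal_nonneg, add_mul]
      _ ≤ _ := by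
          gcongr
          have h5 := hγ0 t
          have h6 : 0 ≤ (I / volume (ball (0 : E 2) 1)).toReal := ENNReal.toReal_nonneg
          nlinarith
  · have hkpos : ∀ w, 0 < kk w := fun w => by unfold kk; positivity
    rw [integral_pos_iff_support_of_nonneg (fun w => (hkpos w).le) kk_int]
    have : Function.support kk = univ := by
      ext w; simp [(hkpos w).ne']
    rw [this]
    simp
  · intro φ hφ hs hsupp a ha
    rw [← fundL (Real.log R) hφ hs a]
    have h0 : ∀ᵐ y : E 2, y ≠ a := by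
      rw [ae_iff]; simp
    apply integral_congr_ae
    filter_upwards [h0] with y hy
    by_cases hyt : y ∈ tsupport φ
    · have hp : 0 < ‖y - a‖ := norm_pos_iff.2 (sub_ne_zero.2 hy)
      have h1 : ‖y‖ < R0 := by simpa using hsub (hsupp hyt)
      have h2 : ‖a‖ < R0 := by simpa using hsub ha
      have h3 : ‖y - a‖ ≤ R := by
        have := norm_sub_le y a
        linarith
      congr 1
      rw [hγ1, dist_comm, dist_eq_norm, Real.log_div hRpos.ne' hp.ne']
      apply max_eq_left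
      have := Real.log_le_log hp h3
      linarith
    · rw [Pool.Agent.Helper486.TP.lap_supp hφ hs y hyt]
      simp

end R197VP
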