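import Pool.Agent.R197.VP.Stm
import Pool.Agent.Helper486.TP.NewtonLap

/-! # Piece KER3: the Newtonian kernel, `N ≥ 3` -/

set_option autoImplicit false

open MeasureTheory Set Filter Topology Metric
open scoped ENNReal NNReal ContDiff Laplacian

namespace R197VP

namespace KER3

/-- the kernel -/
noncomputable def gam (N : ℕ) (t : ℝ) : ℝ := (t ^ (N - 2))⁻¹

theorem gam_mul {N : ℕ} (κ t : ℝ) : gam N (κ * t) = (κ ^ (N - 2))⁻¹ * gam N t := by
  unfold gam
  rw [mul_pow, mul_inv]

theorem gam_meas (N : ℕ) : Measurable (gam N) := by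
  unfold gam
  exact (measurable_id.pow_const _).inv

theorem gam_pos {N : ℕ} {t : ℝ} (ht : 0 < t) : 0 < gam N t := by
  unfold gam
  positivity

theorem gam_anti {N : ℕ} {s t : ℝ} (hs : 0 < s) (hst : s ≤ t) : gam N t ≤ gam N s := by
  unfold gam
  exact inv_anti₀ (by positivity) (pow_le_pow_left₀ hs.le hst _)

/-- the integral over the unit ball -/
noncomputable def II (N : ℕ) : ℝ≥0∞ :=
  ∫⁻ y in ball (0 : E N) 1, ENNReal.ofReal (gam N ‖y‖)

theorem II_fin {N : ℕ} (hN : 3 ≤ N) : II N ≠ ⊤ := by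
  obtain ⟨C, hC, h⟩ := Pool.Agent.Helper486.TP.newton_locInt hN
    (closedBall (0 : E N) 1) (isCompact_closedBall _ _)
  refine ne_top_of_le_ne_top hC (le_trans ?_ (h 0))
  refine le_trans (lintegral_mono_set ball_subset_closedBall) ?_
  refine lintegral_mono fun y => ?_
  unfold Pool.Agent.Helper486.TP.newton gam
  rw [zero_sub, norm_neg]
  rcases eq_or_lt_of_le (norm_nonneg y) with h0 | h0
  · rw [← h0]
    have : N - 2 ≠ 0 := by omega
    simp [this]
  · rw [ENNReal.ofReal_inv_of_pos (by positivity), ENNReal.ofReal_pow h0.le]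

theorem scal {N : ℕ} (w : E N) {r : ℝ} (hr : 0 < r) :
    ∫⁻ y in ball w r, ENNReal.ofReal (gam N (dist y w)) =
      ENNReal.ofReal (r ^ N) * (ENNReal.ofReal ((r ^ (N - 2))⁻¹) * II N) := by
  have e1 : ∫⁻ y in ball w r, ENNReal.ofReal (gam N (dist y w)) =
      ∫⁻ y in ball (0 : E N) r, ENNReal.ofReal (gam N ‖y‖) := by
    rw [← lintegral_indicator measurableSet_ball, ← lintegral_indicator measurableSet_ball,
      ← lintegral_add_left_eq_self _ w]
    refine lintegral_congr fun y => ?_
    have h1 : w + y ∈ ball w r ↔ y ∈ ball (0 : E N) r := by simp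
    by_cases hy : y ∈ ball (0 : E N) r
    · rw [indicator_of_mem (h1.2 hy), indicator_of_mem hy, dist_eq_norm, add_sub_cancel_left]
    · rw [indicator_of_notMem (fun h => hy (h1.1 h)), indicator_of_notMem hy]
  rw [e1]
  have hmap := Measure.map_addHaar_smul (volume : Measure (E N)) hr.ne'
  have hfr : Module.finrank ℝ (E N) = N := by simp
  rw [hfr] at hmap
  let H : E N → ℝ≥0∞ := (ball (0 : E N) r).indicator fun y => ENNReal.ofReal (gam N ‖y‖)
  have hm : Measurable fun y : E N => ENNReal.ofReal (gam N ‖y‖) :=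
    ENNReal.measurable_ofReal.comp ((gam_meas N).comp measurable_norm)
  have hH : Measurable H := hm.indicator measurableSet_ball
  have e2 : ∫⁻ y, H y ∂(Measure.map (r • ·) (volume : Measure (E N))) = ∫⁻ y, H (r • y) :=
    lintegral_map hH (measurable_const_smul r)
  rw [hmap, lintegral_smul_measure, smul_eq_mul] at e2
  have e3 : ∫⁻ y, H (r • y) = ENNReal.ofReal ((r ^ (N - 2))⁻¹) * II N := by
    unfold II
    rw [← lintegral_indicator measurableSet_ball, ← lintegral_const_mul _
      (hm.indicator measurableSet_ball)]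
    refine lintegral_congr fun y => ?_
    have h1 : r • y ∈ ball (0 : E N) r ↔ y ∈ ball (0 : E N) 1 := by
      rw [mem_ball_zero_iff, mem_ball_zero_iff, norm_smul, Real.norm_of_nonneg hr.le]
      constructor
      · intro h
        by_contra h2
        push Not at h2
        nlinarith
      · intro h
        nlinarith
    simp only [H]
    by_cases hy : y ∈ ball (0 : E N) 1
    · rw [indicator_of_mem (h1.2 hy), indicator_of_mem hy, norm_smul,
        Real.norm_of_nonneg hr.le, gam_mul, ENNReal.ofReal_mul (by positivity)]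
    · rw [indicator_of_notMem (fun h => hy (h1.1 h)), indicator_of_notMem hy, mul_zero]
  rw [e3] at e2
  rw [← e2, ← mul_assoc, ← ENNReal.ofReal_mul (by positivity), abs_of_pos (by positivity),
    mul_inv_cancel₀ (by positivity), ENNReal.ofReal_one, one_mul,
    lintegral_indicator measurableSet_ball]

theorem ballc {N : ℕ} (hN : 3 ≤ N) : ∃ C : ℝ, 1 ≤ C ∧ ∀ (z w : E N) (t : ℝ), 0 < t →
    ∫⁻ y in ball z t, ENNReal.ofReal (gam N (dist y w)) ≤
      ENNReal.ofReal (C * (gam N t + 1)) * volume (ball z t) := by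
  obtain ⟨i, hi⟩ : ∃ i, i = (II N).toReal := ⟨_, rfl⟩
  obtain ⟨v, hv⟩ : ∃ v, v = (volume (ball (0 : E N) 1)).toReal := ⟨_, rfl⟩
  have hi0 : 0 ≤ i := by rw [hi]; exact ENNReal.toReal_nonneg
  have hvt : volume (ball (0 : E N) 1) ≠ ⊤ := measure_ball_lt_top.ne
  have hv0 : 0 < v := by
    rw [hv]
    exact ENNReal.toReal_pos (measure_ball_pos _ _ one_pos).ne' hvt
  have hI : II N = ENNReal.ofReal i := by rw [hi, ENNReal.ofReal_toReal (II_fin hN)]
  have hV : volume (ball (0 : E N) 1) = ENNReal.ofReal v := by rw [hv, ENNReal.ofReal_toReal hvt]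
  have hC : 1 ≤ 1 + 9 * i / v := by
    have : 0 ≤ 9 * i / v := by positivity
    linarith
  refine ⟨1 + 9 * i / v, hC, fun z w t ht => ?_⟩
  have hg := gam_pos (N := N) ht
  by_cases hd : 2 * t ≤ dist z w
  · calc ∫⁻ y in ball z t, ENNReal.ofReal (gam N (dist y w))
        ≤ ∫⁻ y in ball z t, ENNReal.ofReal ((1 + 9 * i / v) * (gam N t + 1)) := by
          refine setLIntegral_mono' measurableSet_ball fun y hy => ?_
          apply ENNReal.ofReal_le_ofReal
          have h1 : t ≤ dist y w := by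
            have h2 := dist_triangle z y w
            rw [mem_ball, dist_comm] at hy
            linarith
          have h3 := gam_anti (N := N) ht h1
          nlinarith
      _ = _ := by rw [setLIntegral_const]
  · push Not at hd
    have hsub : ball z t ⊆ ball w (3 * t) := by
      intro y hy
      rw [mem_ball] at hy ⊢
      have := dist_triangle y z w
      linarith
    refine (lintegral_mono_set hsub).trans ?_
    rw [scal w (by positivity), hI, Measure.addHaar_ball_of_pos volume z ht, hV,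
      ← ENNReal.ofReal_mul (by positivity), ← ENNReal.ofReal_mul (by positivity),
      ← ENNReal.ofReal_mul (by positivity), ← ENNReal.ofReal_mul (by positivity)]
    apply ENNReal.ofReal_le_ofReal
    have hfr : Module.finrank ℝ (E N) = N := by simp
    rw [hfr]
    obtain ⟨k, rfl⟩ : ∃ k, N = k + 2 := ⟨N - 2, by omega⟩
    have e1 : k + 2 - 2 = k := by omega
    have h1 : (3 * t) ^ (k + 2) * (((3 * t) ^ (k + 2 - 2))⁻¹ * i) = 9 * t ^ 2 * i := by
      rw [e1]
      have : (3 * t) ^ k ≠ 0 := by positivity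
      rw [pow_add]
      field_simp
      ring
    have h2 : gam (k + 2) t * t ^ (k + 2) = t ^ 2 := by
      unfold gam
      rw [e1, pow_add]
      have : t ^ k ≠ 0 := by positivity
      field_simp
    rw [h1]
    have h3 : (1 + 9 * i / v) * (gam (k + 2) t + 1) * (t ^ (k + 2) * v) =
        (1 + 9 * i / v) * v * (t ^ 2 + t ^ (k + 2)) := by
      rw [← h2]; ring
    rw [h3]
    have h4 : (1 + 9 * i / v) * v = v + 9 * i := by field_simp
    rw [h4]
    have h5 : 0 < t ^ (k + 2) := by positivity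
    have h6 : 0 < t ^ 2 := by positivity
    nlinarith [mul_pos hv0 h6, mul_pos hv0 h5, mul_nonneg hi0 h5.le]

end KER3

open KER3

theorem KER3 : Stm_KER3 := by
  intro N hN Ω
  obtain ⟨c, hc, hfund⟩ := Pool.Agent.Helper486.TP.newton_laplacian hN
  refine ⟨gam N, c, gam_meas N, fun t ht => (gam_pos ht).le, fun s t hs hst => gam_anti hs hst,
    ?_, ?_, ballc hN, hc, ?_⟩
  · intro κ hκ hκ1
    refine ⟨(κ ^ (N - 2))⁻¹, ?_, fun t ht => ?_⟩
    · exact (one_le_inv₀ (by positivity)).2 (pow_le_one₀ hκ.le hκ1)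
    · rw [gam_mul]
      have : 0 < (κ ^ (N - 2))⁻¹ := by positivity
      nlinarith
  · intro η hη
    have hcont : ContinuousAt (fun ρ : ℝ => (1 + ρ) ^ (N - 2)) 0 := by fun_prop
    have h1 : ∀ᶠ ρ in 𝓝 (0 : ℝ), (1 + ρ) ^ (N - 2) < 1 + η := by
      apply hcont.eventually_lt_const
      simp only [add_zero, one_pow]
      linarith
    have h2 : ∀ᶠ ρ in 𝓝 (0 : ℝ), ρ < 1 / 2 := eventually_lt_nhds (by norm_num)
    obtain ⟨ρ, ⟨h3, h4⟩, h5⟩ := (((h1.and h2).filter_mono nhdsWithin_le_nhds).and
      (self_mem_nhdsWithin : Ioi (0 : ℝ) ∈ 𝓝[>] (0 : ℝ))).exists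
    have h5 : 0 < ρ := h5
    refine ⟨ρ, h5, h4.le, fun t ht => ?_⟩
    rw [gam_mul]
    have h6 : 0 < (1 + ρ) ^ (N - 2) := by positivity
    have h7 : 1 ≤ (1 + η) * ((1 + ρ) ^ (N - 2))⁻¹ := by
      rw [← div_eq_mul_inv, one_le_div h6]
      exact h3.le
    have h8 := gam_pos (N := N) ht
    nlinarith
  · intro φ hφ hφc _ a _
    rw [← hfund φ hφ hφc a]
    refine integral_congr_ae (ae_of_all _ fun y => ?_)
    simp only
    congr 1
    unfold gam Pool.Agent.Helper486.TP.newton
    rw [ENNReal.toReal_inv, ENNReal.toReal_pow, ENNReal.toReal_ofReal (norm_nonneg _),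
      dist_eq_norm]

end R197VP
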