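import Pool.Agent.R197.VP.Stm

set_option autoImplicit false

open MeasureTheory Set Filter Topology Metric
open scoped ENNReal NNReal ContDiff Laplacian

namespace R197VP

namespace KeyAux

variable {N : ℕ}

theorem gk_le {γ : ℝ → ℝ} (hanti : ∀ s t, 0 < s → s ≤ t → γ t ≤ γ s) {a t : ℝ} (ha : 0 < a)
    (hat : a ≤ t) : gk γ t ≤ ENNReal.ofReal (γ a) := by
  unfold gk
  rw [if_neg (by linarith)]
  exact ENNReal.ofReal_le_ofReal (hanti a t ha hat)

theorem le_gk {γ : ℝ → ℝ} (hanti : ∀ s t, 0 < s → s ≤ t → γ t ≤ γ s) {b t : ℝ}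
    (htb : t ≤ b) : ENNReal.ofReal (γ b) ≤ gk γ t := by
  unfold gk
  split_ifs with h
  · exact le_top
  · exact ENNReal.ofReal_le_ofReal (hanti t b (by linarith) htb)

theorem gk_meas {γ : ℝ → ℝ} (h : Measurable γ) : Measurable (gk γ) := by
  unfold gk
  exact Measurable.ite measurableSet_Iic measurable_const h.ennreal_ofReal

theorem radial (γ : ℝ → ℝ) (hmeas : Measurable γ) (hnn : ∀ t, 0 < t → 0 ≤ γ t)
    (hanti : ∀ s t, 0 < s → s ≤ t → γ t ≤ γ s)
    (μ H : Measure (E N)) (x : E N) (d r₀ ε₀ : ℝ) (hd : 0 < d) (hr : 0 < r₀)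
    (hH : ∀ r, 0 < r → r < r₀ →
      H (closedBall x r) ≤ ENNReal.ofReal ε₀ * μ (closedBall x r)) :
    ∫⁻ w, ENNReal.ofReal (γ (max (dist w x) d)) ∂H ≤
      ENNReal.ofReal ε₀ * ∫⁻ w, ENNReal.ofReal (γ (max (dist w x) d)) ∂μ +
        ENNReal.ofReal (γ (r₀ / 2)) * H univ := by
  set c : ℝ := γ (r₀ / 2) with hc
  have hc0 : 0 ≤ c := hnn _ (by linarith)
  set m : E N → ℝ := fun w => max (dist w x) d with hm
  have hmd : ∀ w, d ≤ m w := fun w => le_max_right _ _
  have hmm : Measurable m := (measurable_id.dist measurable_const).max measurable_const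
  set φ : E N → ℝ := fun w => γ (m w) with hφ
  have hφm : Measurable φ := hmeas.comp hmm
  have hφ0 : ∀ w, 0 ≤ φ w := fun w => hnn _ (lt_of_lt_of_le hd (hmd w))
  set g : E N → ℝ := fun w => max (φ w - c) 0 with hg
  have hgm : Measurable g := (hφm.sub_const c).max measurable_const
  have hg0 : ∀ w, 0 ≤ g w := fun w => le_max_right _ _
  have h1 : ∫⁻ w, ENNReal.ofReal (φ w) ∂H ≤
      ∫⁻ w, ENNReal.ofReal (g w) ∂H + ENNReal.ofReal c * H univ := by
    rw [← lintegral_const, ← lintegral_add_right _ measurable_const]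
    apply lintegral_mono
    intro w
    refine le_trans (ENNReal.ofReal_le_ofReal ?_) ENNReal.ofReal_add_le
    have := le_max_left (φ w - c) 0
    change φ w ≤ max (φ w - c) 0 + c
    linarith
  have h2 : ∫⁻ w, ENNReal.ofReal (g w) ∂μ ≤ ∫⁻ w, ENNReal.ofReal (φ w) ∂μ := by
    apply lintegral_mono
    intro w
    apply ENNReal.ofReal_le_ofReal
    exact max_le (by linarith) (hφ0 w)
  have key : ∀ s : ℝ, 0 < s → H {w | s < g w} ≤ ENNReal.ofReal ε₀ * μ {w | s < g w} := by
    intro s hs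
    set S : Set (E N) := {w | s < g w} with hSdef
    have hSmem : ∀ w, w ∈ S ↔ c + s < φ w := by
      intro w
      change s < max (φ w - c) 0 ↔ _
      rw [lt_max_iff]
      constructor
      · rintro (h | h) <;> linarith
      · intro h; left; linarith
    rcases S.eq_empty_or_nonempty with hE | hE
    · rw [hE]; simp
    have hdown : ∀ w ∈ S, ∀ w', m w' ≤ m w → w' ∈ S := by
      intro w hw w' hw'
      rw [hSmem] at hw ⊢
      have : φ w ≤ φ w' := hanti _ _ (lt_of_lt_of_le hd (hmd w')) hw'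
      linarith
    have hlt : ∀ w ∈ S, m w < r₀ / 2 := by
      intro w hw
      by_contra hcon
      push Not at hcon
      rw [hSmem] at hw
      have : φ w ≤ c := hanti _ _ (by linarith) hcon
      linarith
    set A : Set ℝ := m '' S with hA
    have hAne : A.Nonempty := hE.image m
    have hAb : BddAbove A := ⟨r₀ / 2, by rintro _ ⟨w, hw, rfl⟩; exact (hlt w hw).le⟩
    obtain ⟨u, hu1, hu2, hu3⟩ := exists_seq_tendsto_sSup hAne hAb
    have hball : ∀ r ∈ A, closedBall x r ⊆ S := by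
      rintro _ ⟨w, hw, rfl⟩ w' hw'
      apply hdown w hw
      exact max_le (mem_closedBall.1 hw') (hmd w)
    have hballH : ∀ r ∈ A, H (closedBall x r) ≤ ENNReal.ofReal ε₀ * μ S := by
      intro r hr'
      refine (hH r ?_ ?_).trans ?_
      · obtain ⟨w, hw, rfl⟩ := hr'
        exact lt_of_lt_of_le hd (hmd w)
      · obtain ⟨w, hw, rfl⟩ := hr'
        have := hlt w hw
        linarith
      · gcongr
        exact hball r hr'
    by_cases hR : sSup A ∈ A
    · have : S = closedBall x (sSup A) := by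
        apply Subset.antisymm
        · intro w hw
          exact mem_closedBall.2 ((le_max_left _ _).trans (le_csSup hAb ⟨w, hw, rfl⟩))
        · exact hball _ hR
      calc H S = H (closedBall x (sSup A)) := by rw [← this]
        _ ≤ _ := hballH _ hR
    · have hU : S = ⋃ n, closedBall x (u n) := by
        apply Subset.antisymm
        · intro w hw
          have h3 : m w < sSup A := lt_of_le_of_ne (le_csSup hAb ⟨w, hw, rfl⟩)
            (fun h => hR (h ▸ ⟨w, hw, rfl⟩))
          obtain ⟨n, hn⟩ := (hu2.eventually (lt_mem_nhds h3)).exists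
          exact mem_iUnion.2 ⟨n, mem_closedBall.2 ((le_max_left _ _).trans hn.le)⟩
        · exact iUnion_subset fun n => hball _ (hu3 n)
      have hmono : Monotone fun n => closedBall x (u n) := fun a b hab =>
        closedBall_subset_closedBall (hu1 hab)
      calc H S = ⨆ n, H (closedBall x (u n)) := by
            rw [← hmono.measure_iUnion, ← hU]
        _ ≤ _ := iSup_le fun n => hballH _ (hu3 n)
  have h3 : ∫⁻ w, ENNReal.ofReal (g w) ∂H ≤ ENNReal.ofReal ε₀ * ∫⁻ w, ENNReal.ofReal (g w) ∂μ := by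
    rw [lintegral_eq_lintegral_meas_lt H (Eventually.of_forall hg0) hgm.aemeasurable,
      lintegral_eq_lintegral_meas_lt μ (Eventually.of_forall hg0) hgm.aemeasurable,
      ← lintegral_const_mul' _ _ ENNReal.ofReal_ne_top]
    apply setLIntegral_mono_ae' measurableSet_Ioi
    exact Eventually.of_forall fun s hs => key s hs
  refine h1.trans ?_
  gcongr
  exact h3.trans (by gcongr)

theorem far {γ : ℝ → ℝ} (hnn : ∀ t, 0 < t → 0 ≤ γ t)
    (hanti : ∀ s t, 0 < s → s ≤ t → γ t ≤ γ s) {ρ d : ℝ} (hρ : 0 < ρ)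
    (hd : 0 < d) {Cκ : ℝ} (hCκ : 1 ≤ Cκ)
    (hdbl : ∀ t, 0 < t → γ (ρ / (2 * ρ + 1) * t) ≤ Cκ * (γ t + 1))
    {x z z' w : E N} (hx : dist z x = d) (hz' : z' ∈ ball z (ρ * d))
    (hw : w ∉ ball z (2 * ρ * d)) :
    gk γ (dist z' w) ≤ ENNReal.ofReal Cκ * (ENNReal.ofReal (γ (max (dist w x) d)) + 1) := by
  have h1 : dist z' z < ρ * d := mem_ball.1 hz'
  have h2 : 2 * ρ * d ≤ dist w z := by
    by_contra hcon
    push Not at hcon
    exact hw (mem_ball.2 hcon)
  have h3 : dist w z ≤ dist z' w + dist z' z := by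
    rw [dist_comm z' w]
    exact dist_triangle w z' z
  have h4 : dist w x ≤ dist w z + d := by
    rw [← hx]
    exact dist_triangle _ _ _
  set m : ℝ := max (dist w x) d with hmdef
  have hm : 0 < m := lt_of_lt_of_le hd (le_max_right _ _)
  have hκ : 0 < ρ / (2 * ρ + 1) := by positivity
  have hρd : 0 < ρ * d := by positivity
  have hle : ρ / (2 * ρ + 1) * m ≤ dist z' w := by
    rw [div_mul_eq_mul_div, div_le_iff₀ (by positivity)]
    rcases le_total (dist w x) d with h | h
    · have : m = d := max_eq_right h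
      rw [this]
      nlinarith
    · have : m = dist w x := max_eq_left h
      rw [this]
      nlinarith
  refine (gk_le hanti (by positivity) hle).trans ?_
  refine (ENNReal.ofReal_le_ofReal (hdbl m hm)).trans ?_
  rw [ENNReal.ofReal_mul (by linarith), ENNReal.ofReal_add (hnn m hm) zero_le_one,
    ENNReal.ofReal_one]

theorem gk_meas2 {γ : ℝ → ℝ} (h : Measurable γ) :
    Measurable fun p : E N × E N => gk γ (dist p.1 p.2) :=
  (gk_meas h).comp (measurable_fst.dist measurable_snd)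

theorem near {γ : ℝ → ℝ} (hmeas : Measurable γ) (hnn : ∀ t, 0 < t → 0 ≤ γ t)
    (hanti : ∀ s t, 0 < s → s ≤ t → γ t ≤ γ s) {ρ d ε₀ Cb Cρ : ℝ} (hρ : 0 < ρ)
    (hρ2 : ρ ≤ 1 / 2) (hd : 0 < d) (hε₀ : 0 < ε₀) (hCb : 1 ≤ Cb) (hCρ : 1 ≤ Cρ)
    (hball : ∀ (z w : E N) (t : ℝ), 0 < t →
      ∫⁻ y in Metric.ball z t, ENNReal.ofReal (γ (dist y w)) ≤
        ENNReal.ofReal (Cb * (γ t + 1)) * volume (Metric.ball z t))
    (hdbl : ∀ t, 0 < t → γ (ρ / 2 * t) ≤ Cρ * (γ t + 1))
    (μ H : Measure (E N)) [IsFiniteMeasure H] {x z : E N} (hx : dist z x = d)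
    (hH : H (closedBall x (2 * d)) ≤ ENNReal.ofReal ε₀ * μ (closedBall x (2 * d)))
    (hN : 1 ≤ N) :
    ∫⁻ z' in ball z (ρ * d), ∫⁻ w in ball z (2 * ρ * d), gk γ (dist z' w) ∂H ≤
      ENNReal.ofReal (2 * Cb * Cρ * ε₀) *
        (∫⁻ w, ENNReal.ofReal (γ (max (dist w x) d)) ∂μ + μ univ) *
          volume (ball z (ρ * d)) := by
  have : Nonempty (Fin N) := ⟨⟨0, by omega⟩⟩
  have : Nontrivial (E N) := inferInstance
  have hρd : 0 < ρ * d := by positivity
  rw [lintegral_lintegral_swap (gk_meas2 hmeas).aemeasurable]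
  have hin : ∀ w : E N, ∫⁻ z' in ball z (ρ * d), gk γ (dist z' w) ≤
      ENNReal.ofReal (Cb * (γ (ρ * d) + 1)) * volume (ball z (ρ * d)) := by
    intro w
    refine le_trans (le_of_eq ?_) (hball z w (ρ * d) hρd)
    apply lintegral_congr_ae
    have hne : ∀ᵐ y ∂(volume : Measure (E N)), y ≠ w := by
      rw [ae_iff]
      have : {y : E N | ¬ y ≠ w} = {w} := by
        ext y
        simp
      rw [this]
      exact measure_singleton w
    filter_upwards [ae_restrict_of_ae hne] with y hy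
    unfold gk
    rw [if_neg (by have := dist_pos.2 hy; linarith)]
  have hmid : ENNReal.ofReal (Cb * (γ (ρ * d) + 1)) * μ (closedBall x (2 * d)) ≤
      ENNReal.ofReal (2 * Cb * Cρ) *
        (∫⁻ w, ENNReal.ofReal (γ (max (dist w x) d)) ∂μ + μ univ) := by
    calc ENNReal.ofReal (Cb * (γ (ρ * d) + 1)) * μ (closedBall x (2 * d))
        = ∫⁻ w in closedBall x (2 * d), ENNReal.ofReal (Cb * (γ (ρ * d) + 1)) ∂μ :=
          (setLIntegral_const _ _).symm
      _ ≤ ∫⁻ w in closedBall x (2 * d), ENNReal.ofReal (2 * Cb * Cρ) *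
            (ENNReal.ofReal (γ (max (dist w x) d)) + 1) ∂μ := by
          apply setLIntegral_mono' measurableSet_closedBall
          intro w hw
          have hm0 : 0 < max (dist w x) d := lt_of_lt_of_le hd (le_max_right _ _)
          have hm2 : max (dist w x) d ≤ 2 * d := max_le (mem_closedBall.1 hw) (by linarith)
          have e1 : ENNReal.ofReal (γ (max (dist w x) d)) + 1 =
              ENNReal.ofReal (γ (max (dist w x) d) + 1) := by
            rw [ENNReal.ofReal_add (hnn _ hm0) zero_le_one, ENNReal.ofReal_one]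
          rw [e1, ← ENNReal.ofReal_mul (by positivity)]
          apply ENNReal.ofReal_le_ofReal
          have e2 : γ (ρ * d) ≤ Cρ * (γ (2 * d) + 1) := by
            have := hdbl (2 * d) (by positivity)
            rwa [show ρ / 2 * (2 * d) = ρ * d by ring] at this
          have e3 : γ (2 * d) ≤ γ (max (dist w x) d) := hanti _ _ hm0 hm2
          have e4 : 0 ≤ γ (max (dist w x) d) := hnn _ hm0
          have e5 : Cρ * (γ (2 * d) + 1) ≤ Cρ * (γ (max (dist w x) d) + 1) := by
            apply mul_le_mul_of_nonneg_left _ (by linarith)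
            linarith
          have e6 : 1 ≤ Cρ * (γ (max (dist w x) d) + 1) := by
            nlinarith
          have e7 : γ (ρ * d) + 1 ≤ 2 * Cρ * (γ (max (dist w x) d) + 1) := by linarith
          calc Cb * (γ (ρ * d) + 1) ≤ Cb * (2 * Cρ * (γ (max (dist w x) d) + 1)) :=
                mul_le_mul_of_nonneg_left e7 (by linarith)
            _ = 2 * Cb * Cρ * (γ (max (dist w x) d) + 1) := by ring
      _ ≤ ∫⁻ w, ENNReal.ofReal (2 * Cb * Cρ) *
            (ENNReal.ofReal (γ (max (dist w x) d)) + 1) ∂μ := setLIntegral_le_lintegral _ _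
      _ = _ := by
          rw [lintegral_const_mul' _ _ ENNReal.ofReal_ne_top,
            lintegral_add_right _ measurable_const, lintegral_const, one_mul]
  calc ∫⁻ w in ball z (2 * ρ * d), ∫⁻ z' in ball z (ρ * d), gk γ (dist z' w) ∂volume ∂H
      ≤ ∫⁻ w in ball z (2 * ρ * d), ENNReal.ofReal (Cb * (γ (ρ * d) + 1)) *
          volume (ball z (ρ * d)) ∂H := lintegral_mono fun w => hin w
    _ = ENNReal.ofReal (Cb * (γ (ρ * d) + 1)) * volume (ball z (ρ * d)) *
          H (ball z (2 * ρ * d)) := setLIntegral_const _ _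
    _ ≤ ENNReal.ofReal (Cb * (γ (ρ * d) + 1)) * volume (ball z (ρ * d)) *
          (ENNReal.ofReal ε₀ * μ (closedBall x (2 * d))) := by
        gcongr
        refine (measure_mono ?_).trans hH
        intro w hw
        rw [mem_closedBall]
        have h1 : dist w z < 2 * ρ * d := mem_ball.1 hw
        have h2 : dist w x ≤ dist w z + dist z x := dist_triangle _ _ _
        rw [hx] at h2
        nlinarith
    _ = ENNReal.ofReal ε₀ * (ENNReal.ofReal (Cb * (γ (ρ * d) + 1)) * μ (closedBall x (2 * d))) *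
          volume (ball z (ρ * d)) := by ring
    _ ≤ ENNReal.ofReal ε₀ * (ENNReal.ofReal (2 * Cb * Cρ) *
        (∫⁻ w, ENNReal.ofReal (γ (max (dist w x) d)) ∂μ + μ univ)) *
          volume (ball z (ρ * d)) := by
        gcongr
    _ = _ := by
        rw [← mul_assoc (ENNReal.ofReal ε₀), ← ENNReal.ofReal_mul hε₀.le]
        congr 3
        ring

theorem alg (ε a b m h C A2 : ℝ) (hε : 0 < ε) (hε1 : ε < 1) (ha : 0 ≤ a) (hm : 0 ≤ m)
    (hC : 0 ≤ C) (hA : 0 ≤ A2) (h6 : h ≤ ε / 4 * (a + m + 1) + A2)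
    (h7 : b ≤ (1 + ε / 4) * a + ε / 4 * m) (hM : 2 * (C + m + 1 + A2) / ε ≤ b) :
    h + C + (1 - ε) * b ≤ a := by
  obtain ⟨x, hx⟩ : ∃ x, x = ε / 4 := ⟨_, rfl⟩
  have hε' : ε = 4 * x := by linarith
  subst hε'
  have hx0 : 0 < x := by linarith
  have hx1 : x < 1 / 4 := by linarith
  have e0 : 4 * x / 4 = x := by ring
  rw [e0] at h6 h7
  rw [div_le_iff₀ hε] at hM
  have h1 : (1 - 2 * x) * (b - x * m) ≤ (1 - 2 * x) * ((1 + x) * a) :=
    mul_le_mul_of_nonneg_left (by linarith) (by linarith)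
  have h2 : (1 - 2 * x) * ((1 + x) * a) ≤ (1 - x) * a := by nlinarith [mul_nonneg (mul_nonneg hx0.le hx0.le) ha]
  have h3 : x * m ≤ m / 4 := by nlinarith
  have h4 : 0 ≤ x * (x * m) := by positivity
  nlinarith

end KeyAux

open KeyAux in
theorem KEY : Stm_KEY := by
  intro N Ω γ c hN hker ε hε hε1
  obtain ⟨ρ, hρ, hρ2, hhar⟩ := hker.har (ε / 4) (by positivity)
  have hanti := hker.anti
  have hnn := hker.nonneg
  obtain ⟨Cκ, hCκ, hdκ⟩ := hker.dbl (ρ / (2 * ρ + 1)) (by positivity)
    (by rw [div_le_one (by positivity)]; linarith)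
  obtain ⟨Cρ, hCρ, hdρ⟩ := hker.dbl (ρ / 2) (by positivity) (by linarith)
  obtain ⟨C3, hC3, hd3⟩ := hker.dbl (1 / 3) (by norm_num) (by norm_num)
  obtain ⟨Cb, hCb, hball⟩ := hker.ball
  have hCκ0 : 0 < Cκ := by linarith
  have hCρ0 : 0 < Cρ := by linarith
  have hC30 : 0 < C3 := by linarith
  have hCb0 : 0 < Cb := by linarith
  set A1 : ℝ := 4 * Cb * Cρ + Cκ with hA1
  have hA1pos : 0 < A1 := by positivity
  set ε₀ : ℝ := ε / 4 / (A1 * (C3 + 1)) with hε₀
  have hε₀pos : 0 < ε₀ := by positivity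
  have hε₀mul : ε₀ * (A1 * (C3 + 1)) = ε / 4 := by
    rw [hε₀]
    exact div_mul_cancel₀ _ (by positivity)
  refine ⟨ρ, ε₀, hρ, hρ2, hε₀pos, ?_⟩
  intro μ H ν hμ hHf hν hνμ K hK hKne hνK r₀ hr₀ hHμ C
  have hμ' := hμ
  have hHf' := hHf
  have hν' := hν
  set mR : ℝ := (μ univ).toReal with hmR
  set HR : ℝ := (H univ).toReal with hHR
  have hmR0 : 0 ≤ mR := ENNReal.toReal_nonneg
  have hHR0 : 0 ≤ HR := ENNReal.toReal_nonneg
  have hγ0 : 0 ≤ γ (r₀ / 2) := hnn _ (by positivity)
  set A2 : ℝ := Cκ * (γ (r₀ / 2) + 1) * HR with hA2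
  have hA20 : 0 ≤ A2 := by positivity
  refine ⟨(2 * (C + mR + 1 + A2) / ε).toNNReal, r₀ / 2, by positivity, ?_⟩
  intro z hz hzr hM
  obtain ⟨x, hxK, hxd⟩ := hK.exists_infDist_eq_dist hKne z
  have hinf : ∀ w ∈ K, infDist z K ≤ dist z w := fun w hw => infDist_le_dist_of_mem hw
  generalize infDist z K = d at *
  have hdx : dist z x = d := hxd.symm
  set Qμ : ℝ≥0∞ := ∫⁻ w, ENNReal.ofReal (γ (max (dist w x) d)) ∂μ with hQμ
  set QH : ℝ≥0∞ := ∫⁻ w, ENNReal.ofReal (γ (max (dist w x) d)) ∂H with hQH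
  have hQμtop : Qμ ≠ ⊤ := by
    refine ne_top_of_le_ne_top ?_ (lintegral_mono (g := fun _ => ENNReal.ofReal (γ d)) ?_)
    · rw [lintegral_const]
      exact ENNReal.mul_ne_top ENNReal.ofReal_ne_top (measure_ne_top _ _)
    · intro w
      exact ENNReal.ofReal_le_ofReal (hanti _ _ hz (le_max_right _ _))
  have hQHle : QH ≤ ENNReal.ofReal ε₀ * Qμ + ENNReal.ofReal (γ (r₀ / 2)) * H univ :=
    radial γ hker.meas hnn hanti μ H x d r₀ ε₀ hz hr₀ (hHμ x hxK)
  set Λ : ℝ≥0∞ := ENNReal.ofReal (4 * Cb * Cρ * ε₀) * (Qμ + μ univ + 1) with hΛ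
  have hΛ0 : Λ ≠ 0 := by
    rw [hΛ]
    refine mul_ne_zero ?_ (by simp)
    rw [Ne, ENNReal.ofReal_eq_zero, not_le]
    positivity
  have hΛtop : Λ ≠ ⊤ := by
    rw [hΛ]
    refine ENNReal.mul_ne_top ENNReal.ofReal_ne_top ?_
    exact ENNReal.add_ne_top.2 ⟨ENNReal.add_ne_top.2 ⟨hQμtop, measure_ne_top _ _⟩,
      ENNReal.one_ne_top⟩
  set L : E N → ℝ≥0∞ := fun z' => ∫⁻ w in ball z (2 * ρ * d), gk γ (dist z' w) ∂H with hL
  have hmeasL : Measurable L := Measurable.lintegral_prod_right (gk_meas2 hker.meas)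
  have hT : volume {z' | z' ∈ ball z (ρ * d) ∧ Λ ≤ L z'} ≤ volume (ball z (ρ * d)) / 2 := by
    have h1 : Λ * (volume.restrict (ball z (ρ * d))) {z' | Λ ≤ L z'} ≤
        ∫⁻ z' in ball z (ρ * d), L z' := mul_meas_ge_le_lintegral hmeasL Λ
    have h2 : ∫⁻ z' in ball z (ρ * d), L z' ≤ ENNReal.ofReal (2 * Cb * Cρ * ε₀) *
        (Qμ + μ univ) * volume (ball z (ρ * d)) :=
      near hker.meas hnn hanti hρ hρ2 hz hε₀pos hCb hCρ hball hdρ μ H hdx
        (hHμ x hxK (2 * d) (by positivity) (by linarith)) hN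
    have h3 : (volume.restrict (ball z (ρ * d))) {z' | Λ ≤ L z'} =
        volume {z' | z' ∈ ball z (ρ * d) ∧ Λ ≤ L z'} := by
      rw [Measure.restrict_apply (measurableSet_le measurable_const hmeasL)]
      congr 1
      ext y
      exact and_comm
    rw [h3] at h1
    have h4 : ∫⁻ z' in ball z (ρ * d), L z' ≤ Λ * (volume (ball z (ρ * d)) / 2) := by
      refine h2.trans ?_
      have h5 : ENNReal.ofReal (4 * Cb * Cρ * ε₀) = ENNReal.ofReal (2 * Cb * Cρ * ε₀) * 2 := by
        rw [show (2 : ℝ≥0∞) = ENNReal.ofReal 2 by simp, ← ENNReal.ofReal_mul (by positivity)]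
        congr 1
        ring
      calc ENNReal.ofReal (2 * Cb * Cρ * ε₀) * (Qμ + μ univ) * volume (ball z (ρ * d))
          ≤ ENNReal.ofReal (2 * Cb * Cρ * ε₀) * (Qμ + μ univ + 1) *
              volume (ball z (ρ * d)) :=
            mul_le_mul' (mul_le_mul' le_rfl le_self_add) le_rfl
        _ = ENNReal.ofReal (2 * Cb * Cρ * ε₀) * (Qμ + μ univ + 1) *
              volume (ball z (ρ * d)) * (2 * 2⁻¹) := by
            rw [ENNReal.mul_inv_cancel (by norm_num) (by norm_num), mul_one]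
        _ = Λ * (volume (ball z (ρ * d)) / 2) := by
            rw [hΛ, h5, div_eq_mul_inv]
            ring
    exact (ENNReal.mul_le_mul_iff_right hΛ0 hΛtop).1 (h1.trans h4)
  refine (measure_mono ?_).trans hT
  rintro z' ⟨hz'B, hbad⟩
  refine ⟨hz'B, ?_⟩
  by_contra hcon
  push Not at hcon
  have hz'd : dist z' z < ρ * d := mem_ball.1 hz'B
  have ha : Pt γ μ z' ≠ ⊤ := ne_top_of_lt hbad
  have haeK : ∀ᵐ w ∂ν, w ∈ K := by
    rw [ae_iff]
    exact hνK
  have hb : Pt γ ν z ≠ ⊤ := by
    refine ne_top_of_le_ne_top ?_ (lintegral_mono_ae (g := fun _ => ENNReal.ofReal (γ d)) ?_)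
    · rw [lintegral_const]
      exact ENNReal.mul_ne_top ENNReal.ofReal_ne_top (measure_ne_top _ _)
    · filter_upwards [haeK] with w hw
      exact gk_le hanti hz (hinf w hw)
  have hmpos : ∀ w, 0 < max (dist w x) d := fun w => lt_of_lt_of_le hz (le_max_right _ _)
  have hPH : Pt γ H z' = L z' + ∫⁻ w in (ball z (2 * ρ * d))ᶜ, gk γ (dist z' w) ∂H :=
    (lintegral_add_compl _ measurableSet_ball).symm
  have hF : ∫⁻ w in (ball z (2 * ρ * d))ᶜ, gk γ (dist z' w) ∂H ≤
      ENNReal.ofReal Cκ * (QH + H univ) := by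
    calc ∫⁻ w in (ball z (2 * ρ * d))ᶜ, gk γ (dist z' w) ∂H
        ≤ ∫⁻ w in (ball z (2 * ρ * d))ᶜ, ENNReal.ofReal Cκ *
            (ENNReal.ofReal (γ (max (dist w x) d)) + 1) ∂H :=
          setLIntegral_mono' measurableSet_ball.compl
            (fun w hw => far hnn hanti hρ hz hCκ hdκ hdx hz'B hw)
      _ ≤ ∫⁻ w, ENNReal.ofReal Cκ * (ENNReal.ofReal (γ (max (dist w x) d)) + 1) ∂H :=
          setLIntegral_le_lintegral _ _
      _ = _ := by
          rw [lintegral_const_mul' _ _ ENNReal.ofReal_ne_top,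
            lintegral_add_right _ measurable_const, lintegral_const, one_mul]
  have h6 : Pt γ H z' ≤ ENNReal.ofReal (4 * Cb * Cρ * ε₀) * (Qμ + μ univ + 1) +
      ENNReal.ofReal Cκ * (ENNReal.ofReal ε₀ * Qμ + ENNReal.ofReal (γ (r₀ / 2)) * H univ +
        H univ) := by
    rw [hPH]
    refine add_le_add hcon.le (hF.trans ?_)
    gcongr
  have h4 : Qμ ≤ ENNReal.ofReal C3 * (Pt γ μ z' + μ univ) := by
    calc Qμ ≤ ∫⁻ w, ENNReal.ofReal C3 * (gk γ (dist z' w) + 1) ∂μ := by
          apply lintegral_mono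
          intro w
          change ENNReal.ofReal (γ (max (dist w x) d)) ≤
            ENNReal.ofReal C3 * (gk γ (dist z' w) + 1)
          have e1 : γ (max (dist w x) d) ≤ C3 * (γ (3 * max (dist w x) d) + 1) := by
            have := hd3 (3 * max (dist w x) d) (by have := hmpos w; positivity)
            rwa [show (1 / 3 : ℝ) * (3 * max (dist w x) d) = max (dist w x) d by ring] at this
          refine (ENNReal.ofReal_le_ofReal e1).trans ?_
          rw [ENNReal.ofReal_mul (by linarith),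
            ENNReal.ofReal_add (hnn _ (by have := hmpos w; positivity)) zero_le_one,
            ENNReal.ofReal_one]
          gcongr
          apply le_gk hanti
          have t1 : dist z' w ≤ dist z' z + dist z w := dist_triangle _ _ _
          have t2 : dist z w ≤ dist z x + dist x w := dist_triangle _ _ _
          have t3 : dist x w = dist w x := dist_comm _ _
          have t4 : dist w x ≤ max (dist w x) d := le_max_left _ _
          have t5 : d ≤ max (dist w x) d := le_max_right _ _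
          have t6 : ρ * d ≤ d := by nlinarith
          linarith
      _ = _ := by
          rw [lintegral_const_mul' _ _ ENNReal.ofReal_ne_top,
            lintegral_add_right _ measurable_const, lintegral_const, one_mul]
          rfl
  have h7 : Pt γ ν z ≤ ENNReal.ofReal (1 + ε / 4) * Pt γ μ z' +
      ENNReal.ofReal (ε / 4) * μ univ := by
    calc Pt γ ν z ≤ ∫⁻ w, (ENNReal.ofReal (1 + ε / 4) * gk γ (dist z' w) +
            ENNReal.ofReal (ε / 4)) ∂ν := by
          apply lintegral_mono_ae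
          filter_upwards [haeK] with w hw
          have hD := hinf w hw
          have hD0 : 0 < dist z w := lt_of_lt_of_le hz hD
          have e1 := hhar (dist z w) hD0
          refine (gk_le hanti hD0 le_rfl).trans ((ENNReal.ofReal_le_ofReal e1).trans ?_)
          have e2 : 0 ≤ γ ((1 + ρ) * dist z w) := hnn _ (by positivity)
          rw [ENNReal.ofReal_add (by positivity) (by positivity),
            ENNReal.ofReal_mul (by positivity)]
          gcongr
          apply le_gk hanti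
          have t1 : dist z' w ≤ dist z' z + dist z w := dist_triangle _ _ _
          have t2 : ρ * d ≤ ρ * dist z w := mul_le_mul_of_nonneg_left hD hρ.le
          linarith
      _ ≤ ∫⁻ w, (ENNReal.ofReal (1 + ε / 4) * gk γ (dist z' w) +
            ENNReal.ofReal (ε / 4)) ∂μ := lintegral_mono' hνμ le_rfl
      _ = _ := by
          rw [lintegral_add_right _ measurable_const,
            lintegral_const_mul' _ _ ENNReal.ofReal_ne_top, lintegral_const]
          rfl
  have hμt : μ univ ≠ ⊤ := measure_ne_top _ _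
  have hHt : H univ ≠ ⊤ := measure_ne_top _ _
  have hRHS6 : ENNReal.ofReal (4 * Cb * Cρ * ε₀) * (Qμ + μ univ + 1) +
      ENNReal.ofReal Cκ * (ENNReal.ofReal ε₀ * Qμ + ENNReal.ofReal (γ (r₀ / 2)) * H univ +
        H univ) ≠ ⊤ := by finiteness
  have hPHt : Pt γ H z' ≠ ⊤ := ne_top_of_le_ne_top hRHS6 h6
  have h6R := ENNReal.toReal_mono hRHS6 h6
  have h4R := ENNReal.toReal_mono (by finiteness) h4
  have h7R := ENNReal.toReal_mono (by finiteness) h7
  have hbR := (ENNReal.toReal_lt_toReal ha (by finiteness)).2 hbad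
  rw [ENNReal.toReal_add (by finiteness) (by finiteness), ENNReal.toReal_mul,
    ENNReal.toReal_add (by finiteness) (by finiteness),
    ENNReal.toReal_add (by finiteness) (by finiteness), ENNReal.toReal_mul,
    ENNReal.toReal_add (by finiteness) (by finiteness),
    ENNReal.toReal_add (by finiteness) (by finiteness), ENNReal.toReal_mul,
    ENNReal.toReal_mul, ENNReal.toReal_ofReal (by positivity), ENNReal.toReal_ofReal (by positivity),
    ENNReal.toReal_ofReal (by positivity), ENNReal.toReal_ofReal (by positivity),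
    ENNReal.toReal_one] at h6R
  rw [ENNReal.toReal_mul, ENNReal.toReal_add (by finiteness) (by finiteness),
    ENNReal.toReal_ofReal (by positivity)] at h4R
  rw [ENNReal.toReal_add (by finiteness) (by finiteness), ENNReal.toReal_mul,
    ENNReal.toReal_mul, ENNReal.toReal_ofReal (by positivity),
    ENNReal.toReal_ofReal (by positivity)] at h7R
  rw [ENNReal.toReal_add (by finiteness) (by finiteness),
    ENNReal.toReal_add (by finiteness) (by finiteness), ENNReal.toReal_mul,
    ENNReal.toReal_ofReal (by linarith)] at hbR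
  have hMR : 2 * (C + mR + 1 + A2) / ε ≤ (Pt γ ν z).toReal := by
    have e1 : ((2 * (C + mR + 1 + A2) / ε).toNNReal : ℝ) < (Pt γ ν z).toReal := by
      have := (ENNReal.toReal_lt_toReal (by finiteness) hb).2 hM
      simpa using this
    rw [Real.coe_toNNReal _ (by positivity)] at e1
    exact e1.le
  have haR0 : 0 ≤ (Pt γ μ z').toReal := ENNReal.toReal_nonneg
  have hQR0 : 0 ≤ Qμ.toReal := ENNReal.toReal_nonneg
  have hfin := alg ε (Pt γ μ z').toReal (Pt γ ν z).toReal mR (Pt γ H z').toReal C A2 hε hε1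
    haR0 hmR0 C.2 hA20 ?_ h7R hMR
  · have : ((C : ℝ≥0∞)).toReal = (C : ℝ) := rfl
    rw [this] at hbR
    linarith
  · have s1 : (4 * Cb * Cρ * ε₀) * (Qμ.toReal + mR + 1) + Cκ * (ε₀ * Qμ.toReal) ≤
        ε₀ * A1 * (Qμ.toReal + mR + 1) := by
      rw [hA1]
      have : 0 ≤ Cκ * ε₀ * (mR + 1) := by positivity
      nlinarith
    have s2 : Qμ.toReal + mR + 1 ≤ (C3 + 1) * ((Pt γ μ z').toReal + mR + 1) := by
      have : (μ univ).toReal = mR := rfl
      rw [this] at h4R
      nlinarith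
    have s3 : ε₀ * A1 * (Qμ.toReal + mR + 1) ≤
        ε₀ * A1 * ((C3 + 1) * ((Pt γ μ z').toReal + mR + 1)) :=
      mul_le_mul_of_nonneg_left s2 (by positivity)
    have s4 : ε₀ * A1 * ((C3 + 1) * ((Pt γ μ z').toReal + mR + 1)) =
        ε / 4 * ((Pt γ μ z').toReal + mR + 1) := by
      rw [← hε₀mul]
      ring
    have s5 : Cκ * (ε₀ * Qμ.toReal + γ (r₀ / 2) * HR + HR) = Cκ * (ε₀ * Qμ.toReal) + A2 := by
      rw [hA2]
      ring
    have s6 : (Pt γ H z').toReal ≤ (4 * Cb * Cρ * ε₀) * (Qμ.toReal + mR + 1) +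
        Cκ * (ε₀ * Qμ.toReal + γ (r₀ / 2) * HR + HR) := h6R
    linarith

end R197VP
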