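import Pool.Agent.R197.VP.Stm

/-! Piece MAX: the maximum principle through the kernel. -/

set_option autoImplicit false

open MeasureTheory Set Filter Topology Metric
open scoped ENNReal NNReal ContDiff Laplacian

namespace R197VP

namespace MAXx

variable {N : ℕ}

theorem lap_eq {φ : E N → ℝ} (hφ : ContDiff ℝ ∞ φ) (y : E N) :
    (Δ φ) y = ∑ i, fderiv ℝ (fun z => fderiv ℝ φ z (EuclideanSpace.basisFun (Fin N) ℝ i)) y
        (EuclideanSpace.basisFun (Fin N) ℝ i) := by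
  rw [InnerProductSpace.laplacian_eq_iteratedFDeriv_orthonormalBasis φ
    (EuclideanSpace.basisFun (Fin N) ℝ)]
  apply Finset.sum_congr rfl
  intro i _
  rw [iteratedFDeriv_two_apply]
  have h1 : DifferentiableAt ℝ (fderiv ℝ φ) y :=
    ((hφ.fderiv_right (m := 1) (by norm_cast)).differentiable (by norm_num)) y
  have h2 : fderiv ℝ (fun z => fderiv ℝ φ z (EuclideanSpace.basisFun (Fin N) ℝ i)) y
      = (ContinuousLinearMap.apply ℝ ℝ (EuclideanSpace.basisFun (Fin N) ℝ i)).comp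
        (fderiv ℝ (fderiv ℝ φ) y) := by
    have := (ContinuousLinearMap.apply ℝ ℝ (EuclideanSpace.basisFun (Fin N) ℝ i)).hasFDerivAt.comp y
      h1.hasFDerivAt
    exact this.fderiv
  rw [h2]
  simp

theorem fd_smooth {ψ : E N → ℝ} (h : ContDiff ℝ ∞ ψ) (v : E N) :
    ContDiff ℝ ∞ (fun z => fderiv ℝ ψ z v) :=
  (h.fderiv_right (m := ∞) (by norm_cast)).clm_apply contDiff_const

theorem lap_cont {φ : E N → ℝ} (hφ : ContDiff ℝ ∞ φ) : Continuous (Δ φ) := by
  have h : (Δ φ) = fun y => ∑ i, fderiv ℝ (fun z => fderiv ℝ φ z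
      (EuclideanSpace.basisFun (Fin N) ℝ i)) y (EuclideanSpace.basisFun (Fin N) ℝ i) := by
    ext y; exact lap_eq hφ y
  rw [h]
  exact continuous_finset_sum _ (fun i _ => (fd_smooth (fd_smooth hφ _) _).continuous)

theorem deriv_smooth {θ : ℝ → ℝ} (hθ : ContDiff ℝ ∞ θ) : ContDiff ℝ ∞ (deriv θ) :=
  (contDiff_infty_iff_deriv.1 hθ).2

theorem comp_fderiv {θ : ℝ → ℝ} (hθ : ContDiff ℝ ∞ θ) {ζ : E N → ℝ} (hζ : ContDiff ℝ ∞ ζ)
    (z : E N) : HasFDerivAt (fun z => θ (ζ z)) (deriv θ (ζ z) • fderiv ℝ ζ z) z :=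
  HasDerivAt.comp_hasFDerivAt (h₂ := θ) z
    ((hθ.differentiable (by norm_num)) (ζ z)).hasDerivAt
    ((hζ.differentiable (by norm_num)) z).hasFDerivAt

theorem lap_comp {θ : ℝ → ℝ} (hθ : ContDiff ℝ ∞ θ) {ζ : E N → ℝ} (hζ : ContDiff ℝ ∞ ζ) (y : E N) :
    (Δ (fun z => θ (ζ z))) y = deriv θ (ζ y) * (Δ ζ) y + deriv (deriv θ) (ζ y) *
      ∑ i, (fderiv ℝ ζ y (EuclideanSpace.basisFun (Fin N) ℝ i)) ^ 2 := by
  have hc : ContDiff ℝ ∞ (fun z => θ (ζ z)) := hθ.comp hζ
  rw [lap_eq hc, lap_eq hζ, Finset.mul_sum, Finset.mul_sum, ← Finset.sum_add_distrib]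
  apply Finset.sum_congr rfl
  intro i _
  set e := EuclideanSpace.basisFun (Fin N) ℝ i with he
  have h2 : (fun z => fderiv ℝ (fun z => θ (ζ z)) z e) =
      fun z => deriv θ (ζ z) * fderiv ℝ ζ z e := by
    funext z
    rw [(comp_fderiv hθ hζ z).fderiv]
    simp
  rw [h2]
  have h3 := comp_fderiv (deriv_smooth hθ) hζ y
  have h4 : HasFDerivAt (fun z => fderiv ℝ ζ z e) (fderiv ℝ (fun z => fderiv ℝ ζ z e) y) y :=
    (((fd_smooth hζ e).differentiable (by norm_num)) y).hasFDerivAt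
  have h5 : HasFDerivAt (fun z => deriv θ (ζ z) * fderiv ℝ ζ z e) _ y := h3.mul h4
  rw [h5.fderiv]
  simp
  ring

/-- the convex cut-off -/
noncomputable def Th (s : ℝ) : ℝ := ∫ r in (0 : ℝ)..s, Real.smoothTransition (r - 1)

theorem S_cont : Continuous fun r : ℝ => Real.smoothTransition (r - 1) :=
  Real.smoothTransition.continuous.comp (continuous_id.sub continuous_const)

theorem Th_hasDeriv (s : ℝ) : HasDerivAt Th (Real.smoothTransition (s - 1)) s :=
  intervalIntegral.integral_hasDerivAt_right (S_cont.intervalIntegrable _ _)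
    (S_cont.stronglyMeasurableAtFilter _ _) S_cont.continuousAt

theorem Th_deriv : deriv Th = fun s => Real.smoothTransition (s - 1) :=
  funext fun s => (Th_hasDeriv s).deriv

theorem S_smooth : ContDiff ℝ ∞ Real.smoothTransition := Real.smoothTransition.contDiff

theorem Th_smooth : ContDiff ℝ ∞ Th := by
  rw [contDiff_infty_iff_deriv]
  refine ⟨fun s => (Th_hasDeriv s).differentiableAt, ?_⟩
  rw [Th_deriv]
  exact S_smooth.comp (contDiff_id.sub contDiff_const)

theorem Th_zero (s : ℝ) (hs : s ≤ 1) : Th s = 0 := by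
  unfold Th
  rw [intervalIntegral.integral_congr (g := fun _ => (0 : ℝ))]
  · simp
  · intro r hr
    apply Real.smoothTransition.zero_of_nonpos
    rw [mem_uIcc] at hr
    rcases hr with h | h <;> linarith [h.1, h.2]

theorem Th_nonneg (s : ℝ) : 0 ≤ Th s := by
  by_cases hs : s ≤ 1
  · rw [Th_zero s hs]
  · push Not at hs
    exact intervalIntegral.integral_nonneg (by linarith)
      (fun r _ => Real.smoothTransition.nonneg _)

theorem Th_ge (s : ℝ) : s - 2 ≤ Th s := by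
  by_cases hs : s ≤ 2
  · linarith [Th_nonneg s]
  · push Not at hs
    have h1 : Th s = Th 2 + ∫ r in (2 : ℝ)..s, Real.smoothTransition (r - 1) :=
      (intervalIntegral.integral_add_adjacent_intervals (S_cont.intervalIntegrable _ _)
        (S_cont.intervalIntegrable _ _)).symm
    have h2 : ∫ r in (2 : ℝ)..s, Real.smoothTransition (r - 1) = s - 2 := by
      rw [intervalIntegral.integral_congr (g := fun _ => (1 : ℝ))]
      · simp
      · intro r hr
        apply Real.smoothTransition.one_of_one_le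
        rw [uIcc_of_le hs.le] at hr
        linarith [hr.1]
    rw [h1, h2]
    linarith [Th_nonneg 2]

/-- the cut-off at scale `δ` -/
noncomputable def th (δ s : ℝ) : ℝ := δ * Th (s / δ)

theorem th_smooth (δ : ℝ) : ContDiff ℝ ∞ (th δ) := by
  unfold th
  exact contDiff_const.mul (Th_smooth.comp (contDiff_id.div_const δ))

theorem th_deriv {δ : ℝ} (hδ : 0 < δ) : deriv (th δ) = fun s => Real.smoothTransition (s / δ - 1) := by
  funext s
  have h1 : HasDerivAt (fun s : ℝ => s / δ) (1 / δ) s := (hasDerivAt_id s).div_const δ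
  have h2 := ((Th_hasDeriv (s / δ)).comp s h1).const_mul δ
  have h3 : HasDerivAt (th δ) (δ * (Real.smoothTransition (s / δ - 1) * (1 / δ))) s := h2
  rw [h3.deriv]
  field_simp

theorem th_deriv2 {δ : ℝ} (hδ : 0 < δ) (s : ℝ) : 0 ≤ deriv (deriv (th δ)) s := by
  rw [th_deriv hδ]
  apply Monotone.deriv_nonneg
  intro a b hab
  apply Real.smoothTransition.monotone
  have := div_le_div_of_nonneg_right hab hδ.le
  linarith

theorem th_zero {δ : ℝ} (hδ : 0 < δ) (s : ℝ) (hs : s ≤ δ) : th δ s = 0 := by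
  unfold th
  rw [Th_zero _ ((div_le_one hδ).2 hs), mul_zero]

theorem th_ge {δ : ℝ} (hδ : 0 < δ) (s : ℝ) : s - 2 * δ ≤ th δ s := by
  unfold th
  have h := mul_le_mul_of_nonneg_left (Th_ge (s / δ)) hδ.le
  have h2 : δ * (s / δ - 2) = s - 2 * δ := by field_simp
  linarith

open Classical in
/-- the truncated function -/
noncomputable def Z (Ω : Set (E N)) (δ : ℝ) (ζ : E N → ℝ) (x : E N) : ℝ :=
  if x ∈ Ω then th δ (ζ x) else 0

/-- the compact set containing the support -/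
def KK (Ω : Set (E N)) (δ : ℝ) (ζ : E N → ℝ) : Set (E N) := closure Ω ∩ {x | δ ≤ ζ x}

theorem KK_compact {Ω : Set (E N)} (hb : Bornology.IsBounded Ω) (δ : ℝ) {ζ : E N → ℝ}
    (hζ : Continuous ζ) : IsCompact (KK Ω δ ζ) :=
  (hb.isCompact_closure).inter_right (isClosed_le continuous_const hζ)

theorem KK_sub {Ω : Set (E N)} (ho : IsOpen Ω) {δ : ℝ} (hδ : 0 < δ) {ζ : E N → ℝ}
    (h0 : ∀ x ∈ frontier Ω, ζ x = 0) : KK Ω δ ζ ⊆ Ω := by
  intro x hx
  by_contra hn
  have h1 : x ∈ frontier Ω := by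
    rw [ho.frontier_eq]
    exact ⟨hx.1, hn⟩
  have h2 := h0 x h1
  have h3 : δ ≤ ζ x := hx.2
  linarith

theorem Z_off {Ω : Set (E N)} {δ : ℝ} (hδ : 0 < δ) {ζ : E N → ℝ} (x : E N) (hx : x ∉ KK Ω δ ζ) :
    Z Ω δ ζ x = 0 := by
  unfold Z
  split_ifs with h
  · apply th_zero hδ
    by_contra hn
    push Not at hn
    exact hx ⟨subset_closure h, hn.le⟩
  · rfl

theorem Z_tsupport {Ω : Set (E N)} (hb : Bornology.IsBounded Ω) {δ : ℝ} (hδ : 0 < δ)
    {ζ : E N → ℝ} (hζ : Continuous ζ) : tsupport (Z Ω δ ζ) ⊆ KK Ω δ ζ := by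
  apply closure_minimal _ (KK_compact hb δ hζ).isClosed
  intro x hx
  by_contra hn
  exact hx (Z_off hδ x hn)

theorem Z_near {Ω : Set (E N)} (ho : IsOpen Ω) {δ : ℝ} {ζ : E N → ℝ} {x : E N} (hx : x ∈ Ω) :
    Z Ω δ ζ =ᶠ[𝓝 x] fun z => th δ (ζ z) := by
  filter_upwards [ho.mem_nhds hx] with z hz
  unfold Z
  rw [if_pos hz]

theorem Z_far {Ω : Set (E N)} (ho : IsOpen Ω) (hb : Bornology.IsBounded Ω) {δ : ℝ} (hδ : 0 < δ)
    {ζ : E N → ℝ} (hζ : Continuous ζ) (h0 : ∀ x ∈ frontier Ω, ζ x = 0) {x : E N} (hx : x ∉ Ω) :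
    Z Ω δ ζ =ᶠ[𝓝 x] fun _ => (0 : ℝ) := by
  have h1 : (KK Ω δ ζ)ᶜ ∈ 𝓝 x :=
    (KK_compact hb δ hζ).isClosed.isOpen_compl.mem_nhds (fun h => hx (KK_sub ho hδ h0 h))
  filter_upwards [h1] with z hz
  exact Z_off hδ z hz

theorem Z_smooth {Ω : Set (E N)} (ho : IsOpen Ω) (hb : Bornology.IsBounded Ω) {δ : ℝ} (hδ : 0 < δ)
    {ζ : E N → ℝ} (hζ : ContDiff ℝ ∞ ζ) (h0 : ∀ x ∈ frontier Ω, ζ x = 0) :
    ContDiff ℝ ∞ (Z Ω δ ζ) := by
  rw [contDiff_iff_contDiffAt]
  intro x
  by_cases hx : x ∈ Ω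
  · exact (((th_smooth δ).comp hζ).contDiffAt).congr_of_eventuallyEq (Z_near ho hx)
  · exact contDiffAt_const.congr_of_eventuallyEq (Z_far ho hb hδ hζ.continuous h0 hx)

theorem Z_lap {Ω : Set (E N)} (ho : IsOpen Ω) (hb : Bornology.IsBounded Ω) {δ : ℝ} (hδ : 0 < δ)
    {ζ : E N → ℝ} (hζ : ContDiff ℝ ∞ ζ) (h0 : ∀ x ∈ frontier Ω, ζ x = 0) (y : E N) :
    -(Δ (Z Ω δ ζ)) y ≤ Ω.indicator (fun y => max (-(Δ ζ) y) 0) y := by
  by_cases hy : y ∈ Ω
  · rw [indicator_of_mem hy]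
    have h1 := (InnerProductSpace.laplacian_congr_nhds (Z_near (δ := δ) (ζ := ζ) ho hy)).eq_of_nhds
    rw [h1, lap_comp (th_smooth δ) hζ]
    have h2 : 0 ≤ deriv (deriv (th δ)) (ζ y) *
        ∑ i, (fderiv ℝ ζ y (EuclideanSpace.basisFun (Fin N) ℝ i)) ^ 2 :=
      mul_nonneg (th_deriv2 hδ _) (Finset.sum_nonneg fun i _ => sq_nonneg _)
    have h3 : 0 ≤ deriv (th δ) (ζ y) := by
      rw [th_deriv hδ]
      exact Real.smoothTransition.nonneg _
    have h4 : deriv (th δ) (ζ y) ≤ 1 := by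
      rw [th_deriv hδ]
      exact Real.smoothTransition.le_one _
    rcases le_total 0 ((Δ ζ) y) with h5 | h5
    · have h6 : 0 ≤ deriv (th δ) (ζ y) * (Δ ζ) y := mul_nonneg h3 h5
      have h7 := le_max_right (-(Δ ζ) y) 0
      linarith
    · have h6 : (Δ ζ) y ≤ deriv (th δ) (ζ y) * (Δ ζ) y := by nlinarith
      have h7 := le_max_left (-(Δ ζ) y) 0
      linarith
  · rw [indicator_of_notMem hy]
    have h1 := (InnerProductSpace.laplacian_congr_nhds
      (Z_far ho hb hδ hζ.continuous h0 hy)).eq_of_nhds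
    rw [h1]
    simp

theorem gam_int {Ω : Set (E N)} {γ : ℝ → ℝ} {c : ℝ} (hK : Ker N Ω γ c) (hN : 1 ≤ N) (x : E N)
    {s : Set (E N)} (hb : Bornology.IsBounded s) :
    IntegrableOn (fun y => γ (dist x y)) s := by
  obtain ⟨C, -, hC⟩ := hK.ball
  obtain ⟨t, ht⟩ := hb.subset_ball x
  set t' := max t 1 with ht'
  have ht'0 : 0 < t' := lt_of_lt_of_le one_pos (le_max_right _ _)
  have hsub : s ⊆ ball x t' := ht.trans (ball_subset_ball (le_max_left _ _))
  refine IntegrableOn.mono_set ?_ hsub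
  have hm : Measurable (fun y => γ (dist x y)) :=
    hK.meas.comp (measurable_const.dist measurable_id)
  refine ⟨hm.aestronglyMeasurable, ?_⟩
  rw [hasFiniteIntegral_iff_enorm]
  haveI : Nonempty (Fin N) := ⟨⟨0, by omega⟩⟩
  haveI : Nontrivial (E N) := inferInstance
  have h1 : ∫⁻ y in ball x t', ‖γ (dist x y)‖ₑ =
      ∫⁻ y in ball x t', ENNReal.ofReal (γ (dist y x)) := by
    apply lintegral_congr_ae
    have h2 : ∀ᵐ y ∂(volume.restrict (ball x t')), y ≠ x := by
      apply ae_restrict_of_ae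
      rw [ae_iff]
      simp
    filter_upwards [h2] with y hy
    have h3 : 0 ≤ γ (dist x y) := hK.nonneg _ (dist_pos.2 hy.symm)
    rw [Real.enorm_of_nonneg h3, dist_comm]
  rw [h1]
  refine lt_of_le_of_lt (hC x x t' ht'0) ?_
  exact ENNReal.mul_lt_top ENNReal.ofReal_lt_top measure_ball_lt_top

end MAXx

open MAXx in
theorem MAX : Stm_MAX := by
  intro N Ω γ c hN ho hb hK ζ hζ x hx
  obtain ⟨hs, h0⟩ := hζ
  have hg := gam_int hK hN x hb
  have hgm : Measurable (fun y => γ (dist x y)) :=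
    hK.meas.comp (measurable_const.dist measurable_id)
  haveI : Nonempty (Fin N) := ⟨⟨0, by omega⟩⟩
  haveI : Nontrivial (E N) := inferInstance
  have hne : ∀ᵐ y ∂(volume : Measure (E N)), y ≠ x := by
    rw [ae_iff]
    simp
  have hpos : ∀ᵐ y ∂(volume : Measure (E N)), 0 ≤ γ (dist x y) := by
    filter_upwards [hne] with y hy
    exact hK.nonneg _ (dist_pos.2 hy.symm)
  set h : E N → ℝ := fun y => max (-(Δ ζ) y) 0 with hh
  have hcont : Continuous h := ((lap_cont hs).neg).max continuous_const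
  obtain ⟨B, hB⟩ := (hb.isCompact_closure).exists_bound_of_continuousOn hcont.continuousOn
  have hint : IntegrableOn (fun y => γ (dist x y) * h y) Ω := by
    refine Integrable.mono' (hg.norm.const_mul B) (hgm.mul hcont.measurable).aestronglyMeasurable ?_
    filter_upwards [ae_restrict_mem ho.measurableSet] with y hy
    rw [norm_mul, mul_comm]
    exact mul_le_mul_of_nonneg_right (hB y (subset_closure hy)) (norm_nonneg _)
  have hR0 : 0 ≤ ∫ y in Ω, γ (dist x y) * h y := by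
    apply integral_nonneg_of_ae
    filter_upwards [ae_restrict_of_ae hpos] with y hy
    exact mul_nonneg hy (le_max_right _ _)
  have key : ∀ δ : ℝ, 0 < δ → c * Z Ω δ ζ x ≤ ∫ y in Ω, γ (dist x y) * h y := by
    intro δ hδ
    have hZs := Z_smooth ho hb hδ hs h0
    have hts := Z_tsupport (δ := δ) hb hδ hs.continuous
    have hf := hK.fund (Z Ω δ ζ) hZs
      ((KK_compact hb δ hs.continuous).of_isClosed_subset (isClosed_tsupport _) hts)
      (hts.trans (KK_sub ho hδ h0)) x hx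
    have hf' : c * Z Ω δ ζ x = ∫ y, γ (dist x y) * (-(Δ (Z Ω δ ζ)) y) := by
      have h1 : ∫ y, γ (dist x y) * (-(Δ (Z Ω δ ζ)) y) =
          -∫ y, γ (dist x y) * (Δ (Z Ω δ ζ)) y := by
        rw [← integral_neg]
        congr 1
        funext y
        ring
      rw [h1, hf]
      ring
    rw [hf']
    by_cases hI : Integrable (fun y => γ (dist x y) * (-(Δ (Z Ω δ ζ)) y))
    · rw [← integral_indicator ho.measurableSet]
      apply integral_mono_ae hI ((integrable_indicator_iff ho.measurableSet).2 hint)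
      filter_upwards [hpos] with y hy
      have h1 := mul_le_mul_of_nonneg_left (Z_lap ho hb hδ hs h0 y) hy
      refine h1.trans (le_of_eq ?_)
      by_cases hyΩ : y ∈ Ω
      · rw [indicator_of_mem hyΩ, indicator_of_mem hyΩ]
      · rw [indicator_of_notMem hyΩ, indicator_of_notMem hyΩ, mul_zero]
    · rw [integral_undef hI]
      exact hR0
  apply le_of_forall_pos_le_add
  intro ε hε
  have hc := hK.cpos
  have h1 := key (ε / (2 * c)) (by positivity)
  have h2 : Z Ω (ε / (2 * c)) ζ x = th (ε / (2 * c)) (ζ x) := by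
    unfold Z
    rw [if_pos hx]
  have h3 := th_ge (show 0 < ε / (2 * c) by positivity) (ζ x)
  rw [← h2] at h3
  have h4 := mul_le_mul_of_nonneg_left h3 hc.le
  have h5 : c * (ζ x - 2 * (ε / (2 * c))) = c * ζ x - ε := by field_simp
  rw [h5] at h4
  linarith

end R197VP
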