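import Pool.Agent.R197.VP.Stm

/-!
MP_8eef66_an (Veron): strong density of nonnegative measures with integrable nonlinear potential.
The assembly of the pieces.
-/

set_option autoImplicit false

open MeasureTheory Set Filter Topology Metric
open scoped ENNReal NNReal ContDiff Laplacian

namespace R197VP

namespace MainP

theorem tv_eq {X : Type} [MeasurableSpace X] (ν μ : Measure X) [IsFiniteMeasure ν]
    [IsFiniteMeasure μ] (h : ν ≤ μ) :
    (ν.toSignedMeasure - μ.toSignedMeasure).totalVariation = μ - ν := by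
  rw [SignedMeasure.totalVariation, Measure.toJordanDecomposition_toSignedMeasure_sub]
  show (ν - μ) + (μ - ν) = μ - ν
  rw [Measure.sub_eq_zero_of_le h, zero_add]

theorem exists_trunc {X : Type} [MeasurableSpace X] (m : Measure X) (f : X → ℝ≥0∞)
    (hf : Measurable f) (hfin : ∫⁻ x, f x ∂m ≠ ⊤) (δ : ℝ≥0∞) (hδ : δ ≠ 0) :
    ∃ k : ℕ, ∫⁻ x, f x ∂m ≤ ∫⁻ x, min (f x) (k : ℝ≥0∞) ∂m + δ := by
  have h1 : Tendsto (fun k : ℕ => ∫⁻ x, min (f x) (k : ℝ≥0∞) ∂m) atTop (𝓝 (∫⁻ x, f x ∂m)) := by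
    apply lintegral_tendsto_of_tendsto_of_monotone
    · intro k
      exact (hf.min measurable_const).aemeasurable
    · refine ae_of_all _ fun x => ?_
      intro a b hab
      exact min_le_min le_rfl (by exact_mod_cast hab)
    · refine ae_of_all _ fun x => ?_
      have h2 : Tendsto (fun k : ℕ => min (f x) (k : ℝ≥0∞)) atTop (𝓝 (min (f x) ⊤)) :=
        tendsto_const_nhds.min ENNReal.tendsto_nat_nhds_top
      rwa [min_eq_left le_top] at h2
  by_contra hcon
  push Not at hcon
  have h3 : ∫⁻ x, f x ∂m + δ ≤ ∫⁻ x, f x ∂m :=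
    le_of_tendsto (h1.add tendsto_const_nhds) (Eventually.of_forall fun k => (hcon k).le)
  exact absurd h3 (not_le.2 (ENNReal.lt_add_right hfin hδ))

/-- potential of the density -/
noncomputable abbrev HH {N : ℕ} (g : ℝ → ℝ) (Ω : Set (E N)) (u : E N → ℝ) : Measure (E N) :=
  (volume.restrict Ω).withDensity fun y => ENNReal.ofReal |g (u y)|

theorem finite_HH {N : ℕ} (g : ℝ → ℝ) (Ω : Set (E N)) (u : E N → ℝ)
    (h : IntegrableOn (fun x => g (u x)) Ω) : IsFiniteMeasure (HH g Ω u) := by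
  apply isFiniteMeasure_withDensity
  have h1 := h.2
  rw [hasFiniteIntegral_iff_norm] at h1
  exact h1.ne

theorem measurable_Pt {N : ℕ} {γ : ℝ → ℝ}
    (hm : Measurable fun p : E N × E N => gk γ (dist p.1 p.2)) (ν : Measure (E N)) [SFinite ν] :
    Measurable (Pt γ ν) :=
  hm.lintegral_prod_right'

theorem Pt_le_far {N : ℕ} {Ω : Set (E N)} {γ : ℝ → ℝ} {c : ℝ} (hker : Ker N Ω γ c)
    (ν : Measure (E N)) (K : Set (E N)) (hνK : ν Kᶜ = 0) (z : E N) (t : ℝ) (ht : 0 < t)
    (hz : t ≤ infDist z K) : Pt γ ν z ≤ ENNReal.ofReal (γ t) * ν univ := by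
  have h1 : ∀ᵐ w ∂ν, w ∈ K := by
    rw [ae_iff]
    exact hνK
  have h2 : Pt γ ν z ≤ ∫⁻ _, ENNReal.ofReal (γ t) ∂ν := by
    unfold Pt
    apply lintegral_mono_ae
    filter_upwards [h1] with w hw
    have h3 : t ≤ dist z w := hz.trans (infDist_le_dist_of_mem hw)
    unfold gk
    rw [if_neg (not_le.2 (ht.trans_le h3))]
    exact ENNReal.ofReal_le_ofReal (hker.anti t _ ht h3)
  rwa [lintegral_const] at h2

theorem nonlinear_fin (hREP : Stm_REP) (hFIN : Stm_FIN) (hTON : Stm_TON)
    {N : ℕ} (hN : 1 ≤ N) {Ω : Set (E N)} (hΩ : IsOpen Ω) (hb : Bornology.IsBounded Ω)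
    {γ : ℝ → ℝ} {c : ℝ} (hker : Ker N Ω γ c)
    (g : ℝ → ℝ) (hg : Continuous g) (hm : Monotone g)
    (μ : Measure (E N)) [hμfin : IsFiniteMeasure μ] (hμ : μ Ωᶜ = 0) (u : E N → ℝ)
    (hum : Measurable u) (hu : IsSol g Ω μ u)
    (ε ρ ε₀ : ℝ) (hε1 : ε < 1) (hρ0 : 0 < ρ) (hρ1 : ρ ≤ 1 / 2)
    (hkey : ∀ (μ H ν : Measure (E N)), IsFiniteMeasure μ → IsFiniteMeasure H → IsFiniteMeasure ν →
      ν ≤ μ → ∀ K : Set (E N), IsCompact K → K.Nonempty → ν Kᶜ = 0 →
      ∀ r₀ : ℝ, 0 < r₀ →
      (∀ x ∈ K, ∀ r, 0 < r → r < r₀ →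
        H (closedBall x r) ≤ ENNReal.ofReal ε₀ * μ (closedBall x r)) →
      ∀ C : ℝ≥0, ∃ (M : ℝ≥0) (r₁ : ℝ), 0 < r₁ ∧ ∀ z : E N, 0 < infDist z K → infDist z K < r₁ →
        (M : ℝ≥0∞) < Pt γ ν z →
        volume {z' | z' ∈ Metric.ball z (ρ * infDist z K) ∧
          Pt γ μ z' < Pt γ H z' + C + ENNReal.ofReal (1 - ε) * Pt γ ν z} ≤
          volume (Metric.ball z (ρ * infDist z K)) / 2)
    (ν : Measure (E N)) [hνfin : IsFiniteMeasure ν] (hν : ν ≤ μ) (K : Set (E N))
    (hK : IsCompact K) (hKΩ : K ⊆ Ω) (hK0 : volume K = 0) (hνK : ν Kᶜ = 0)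
    (r₀ : ℝ) (hr₀ : 0 < r₀) (hsel : ∀ x ∈ K, ∀ r, 0 < r → r < r₀ →
      (HH g Ω u) (closedBall x r) ≤ ENNReal.ofReal ε₀ * μ (closedBall x r)) :
    ∫⁻ z in Ω, ENNReal.ofReal (g ((1 - ε) * (Pt γ ν z).toReal / c)) < ⊤ := by
  obtain ⟨hF1, hF2, hF3⟩ := hFIN N Ω γ c hN hb hker
  have hc := hker.cpos
  have hHf : IsFiniteMeasure (HH g Ω u) := finite_HH g Ω u hu.2.1
  rcases K.eq_empty_or_nonempty with hKe | hne
  · -- `ν = 0`
    have hν0 : ν = 0 := by
      rw [← Measure.measure_univ_eq_zero, ← compl_empty, ← hKe]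
      exact hνK
    have h1 : ∀ z : E N, Pt γ ν z = 0 := by
      intro z
      unfold Pt
      rw [hν0, lintegral_zero_measure]
    simp_rw [h1]
    rw [setLIntegral_const]
    exact ENNReal.mul_lt_top ENNReal.ofReal_lt_top hb.measure_lt_top
  · obtain ⟨r₂, hr₂, hr₂Ω⟩ := hK.exists_cthickening_subset_open hΩ hKΩ
    have hK' : IsCompact (cthickening r₂ K) := hK.cthickening
    obtain ⟨CA, hCA0, hCA⟩ := hREP N Ω γ c hN hΩ hb hker μ hμfin hμ u (fun x => g (u x)) hu.1 hu.2.1
      (by
        intro φ h1 h2 h3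
        refine hu.2.2 φ ⟨h1, fun x hx => ?_⟩
        apply image_eq_zero_of_notMem_tsupport
        intro h4
        rw [hΩ.frontier_eq] at hx
        exact hx.2 (h3 h4)) (cthickening r₂ K) hK' hr₂Ω
    obtain ⟨M, r₁, hr₁, hM⟩ := hkey μ (HH g Ω u) ν hμfin hHf hνfin hν K hK hne hνK r₀ hr₀ hsel
      CA.toNNReal
    have hr₃ : 0 < min r₁ (r₂ / 2) := lt_min hr₁ (by positivity)
    set B : ℝ≥0∞ := ENNReal.ofReal (γ (min r₁ (r₂ / 2))) * ν univ with hB
    have hBtop : B ≠ ⊤ := ENNReal.mul_ne_top ENNReal.ofReal_ne_top (measure_ne_top _ _)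
    have hmono : ∀ a b : ℝ, a ≤ b →
        ENNReal.ofReal (g ((1 - ε) * a / c)) ≤ ENNReal.ofReal (g ((1 - ε) * b / c)) := by
      intro a b hab
      apply ENNReal.ofReal_le_ofReal
      apply hm
      apply div_le_div_of_nonneg_right _ hc.le
      exact mul_le_mul_of_nonneg_left hab (by linarith)
    have hfinz : ∀ z, 0 < infDist z K → Pt γ ν z < ⊤ := by
      intro z hz
      refine lt_of_le_of_lt (Pt_le_far hker ν K hνK z _ hz le_rfl) ?_
      exact ENNReal.mul_lt_top ENNReal.ofReal_lt_top (measure_lt_top _ _)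
    have hcl : ∀ᵐ z' ∂(volume : Measure (E N)), z' ∈ cthickening r₂ K →
        Pt γ μ z' ≤ ENNReal.ofReal (c * u z' + CA) + Pt γ (HH g Ω u) z' := by
      rw [← ae_restrict_iff' hK'.isClosed.measurableSet]
      exact hCA
    have hHt : ∀ᵐ z' ∂(volume : Measure (E N)), z' ∈ Ω → Pt γ (HH g Ω u) z' < ⊤ := by
      rw [← ae_restrict_iff' hΩ.measurableSet]
      exact ae_lt_top (measurable_Pt hF1 _) (hF2 _ hHf).ne
    refine hTON N hN Ω K hΩ hb hK hne hK0
      (fun z => ENNReal.ofReal (g ((1 - ε) * (Pt γ ν z).toReal / c)))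
      (Ω.indicator fun y => ENNReal.ofReal |g (u y)|) ?_ ?_ ?_ ρ (min r₁ (r₂ / 2))
      ((g ((1 - ε) * B.toReal / c)).toNNReal + (g ((1 - ε) * (M : ℝ) / c)).toNNReal)
      hρ0 hρ1 hr₃ ?_ ?_
    · exact ENNReal.measurable_ofReal.comp (hg.measurable.comp
        (((measurable_Pt hF1 ν).ennreal_toReal.const_mul (1 - ε)).div_const c))
    · refine Measurable.indicator ?_ hΩ.measurableSet
      exact ENNReal.measurable_ofReal.comp ((hg.measurable.comp hum).norm)
    · rw [lintegral_indicator hΩ.measurableSet]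
      have h1 := hu.2.1.2
      rw [hasFiniteIntegral_iff_norm] at h1
      exact h1
    · intro z hz
      have h1 : Pt γ ν z ≤ B := Pt_le_far hker ν K hνK z _ hr₃ hz
      refine (hmono _ _ (ENNReal.toReal_mono hBtop h1)).trans ?_
      rw [ENNReal.coe_add]
      exact le_add_of_nonneg_right zero_le
    · intro z hz1 hz2
      by_cases hMz : Pt γ ν z ≤ M
      · left
        refine (hmono _ _ (ENNReal.toReal_mono ENNReal.coe_ne_top hMz)).trans ?_
        rw [ENNReal.coe_add, ENNReal.coe_toReal]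
        exact le_add_of_nonneg_left zero_le
      · right
        rw [not_le] at hMz
        refine le_trans (measure_mono_ae ?_) (hM z hz1 (hz2.trans_le (min_le_left _ _)) hMz)
        filter_upwards [hcl, hHt] with z' h1 h2
        rintro ⟨h3, h4⟩
        refine ⟨h3, ?_⟩
        by_contra h5
        rw [not_lt] at h5
        have h6 : infDist z' K < r₂ := by
          have h7 : infDist z' K ≤ infDist z K + dist z' z := infDist_le_infDist_add_dist
          have h8 : dist z' z < ρ * infDist z K := mem_ball.1 h3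
          have h9 : ρ * infDist z K ≤ 1 / 2 * infDist z K :=
            mul_le_mul_of_nonneg_right hρ1 hz1.le
          have h10 : infDist z K < r₂ / 2 := hz2.trans_le (min_le_right _ _)
          linarith
        have h7 : z' ∈ cthickening r₂ K := by
          obtain ⟨w, hw, hw'⟩ := (infDist_lt_iff hne).1 h6
          exact mem_cthickening_of_dist_le z' w r₂ K hw hw'.le
        have h8 : z' ∈ Ω := hr₂Ω h7
        have h9 := h5.trans (h1 h7)
        have h10 : (CA.toNNReal : ℝ≥0∞) + ENNReal.ofReal (1 - ε) * Pt γ ν z ≤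
            ENNReal.ofReal (c * u z' + CA) := by
          rw [add_assoc, add_comm (ENNReal.ofReal (c * u z' + CA))] at h9
          exact (ENNReal.add_le_add_iff_left (h2 h8).ne).1 h9
        have h11 : Pt γ ν z = ENNReal.ofReal (Pt γ ν z).toReal :=
          (ENNReal.ofReal_toReal (hfinz z hz1).ne).symm
        have h12 : 0 < (Pt γ ν z).toReal :=
          ENNReal.toReal_pos (ne_of_gt (lt_of_le_of_lt zero_le hMz)) (hfinz z hz1).ne
        have h13 : ENNReal.ofReal (CA + (1 - ε) * (Pt γ ν z).toReal) ≤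
            ENNReal.ofReal (c * u z' + CA) := by
          rw [ENNReal.ofReal_add hCA0 (mul_nonneg (by linarith) h12.le),
            ENNReal.ofReal_mul (by linarith), ← h11]
          exact h10
        have h14 : CA + (1 - ε) * (Pt γ ν z).toReal ≤ c * u z' + CA := by
          rw [ENNReal.ofReal_le_ofReal_iff'] at h13
          rcases h13 with h13 | h13
          · exact h13
          · have : 0 < (1 - ε) * (Pt γ ν z).toReal := mul_pos (by linarith) h12
            linarith
        have h15 : (1 - ε) * (Pt γ ν z).toReal / c ≤ u z' := by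
          rw [div_le_iff₀ hc]
          linarith
        have h16 : ENNReal.ofReal (g ((1 - ε) * (Pt γ ν z).toReal / c)) ≤
            Ω.indicator (fun y => ENNReal.ofReal |g (u y)|) z' := by
          rw [indicator_of_mem h8]
          exact ENNReal.ofReal_le_ofReal ((hm h15).trans (le_abs_self _))
        exact absurd h4 (not_lt.2 h16)

/-- the final estimate of the mass and the integrability of `g(w)` -/
theorem main_aux (hREP : Stm_REP) (hFIN : Stm_FIN) (hSEL : Stm_SEL) (hKEY : Stm_KEY)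
    (hTON : Stm_TON) (hEXI : Stm_EXI)
    {N : ℕ} (hN : 1 ≤ N) {Ω : Set (E N)} (hΩ : IsOpen Ω) (hb : Bornology.IsBounded Ω)
    {γ : ℝ → ℝ} {c : ℝ} (hker : Ker N Ω γ c)
    (g : ℝ → ℝ) (hg : Continuous g) (hm : Monotone g)
    (μ : Measure (E N)) [hμfin : IsFiniteMeasure μ] (hμ : μ Ωᶜ = 0) (u : E N → ℝ)
    (hum : Measurable u) (hu : IsSol g Ω μ u) (e : ℝ) (he : 0 < e) :
    ∃ (ν : Measure (E N)) (_ : IsFiniteMeasure ν), ν ∈ VPlus g Ω ∧ ν ≤ μ ∧
      μ univ < ν univ + ENNReal.ofReal e := by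
  have hc := hker.cpos
  have hHf : IsFiniteMeasure (HH g Ω u) := finite_HH g Ω u hu.2.1
  -- the parameters
  set m : ℝ := (μ univ).toReal with hmdef
  have hm0 : 0 ≤ m := ENNReal.toReal_nonneg
  set ε : ℝ := min (1 / 8) (e / (16 * (m + 1))) with hεdef
  have hε0 : 0 < ε := lt_min (by norm_num) (by positivity)
  have hε1 : ε ≤ 1 / 8 := min_le_left _ _
  have hε2 : 2 * ε * m ≤ e / 4 := by
    have h1 : ε ≤ e / (16 * (m + 1)) := min_le_right _ _
    have h2 : ε * (16 * (m + 1)) ≤ e := (le_div_iff₀ (by positivity)).1 h1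
    nlinarith [mul_nonneg hε0.le hm0]
  obtain ⟨ρ, ε₀, hρ0, hρ1, hε₀, hkey⟩ := hKEY N Ω γ c hN hker ε hε0 (by linarith)
  have hHac : HH g Ω u ≪ volume :=
    (withDensity_absolutelyContinuous _ _).trans Measure.absolutelyContinuous_restrict
  obtain ⟨K, r₀, hK, hKΩ, hK0, hr₀, hsing, hsel⟩ := hSEL N hN Ω hΩ μ (HH g Ω u) hμfin hHf hμ hHac
    ε₀ (e / 4) hε₀ (by positivity)
  set ν : Measure (E N) := (μ.singularPart volume).restrict K with hνdef
  have hνs : ν ≤ μ.singularPart volume := Measure.restrict_le_self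
  have hνμ : ν ≤ μ := hνs.trans (Measure.singularPart_le _ _)
  have hνfin : IsFiniteMeasure ν := isFiniteMeasure_of_le μ hνμ
  have hνK : ν Kᶜ = 0 := by
    rw [hνdef, Measure.restrict_apply hK.isClosed.measurableSet.compl, compl_inter_self,
      measure_empty]
  have hF := nonlinear_fin hREP hFIN hTON hN hΩ hb hker g hg hm μ hμ u hum hu ε ρ ε₀
    (by linarith) hρ0 hρ1 hkey ν hνμ K hK hKΩ hK0 hνK r₀ hr₀ hsel
  obtain ⟨hF1, hF2, hF3⟩ := hFIN N Ω γ c hN hb hker
  -- the regular part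
  set f : E N → ℝ≥0∞ := μ.rnDeriv volume with hfdef
  have hfm : Measurable f := Measure.measurable_rnDeriv _ _
  have hdec : μ = μ.singularPart volume + volume.withDensity f :=
    Measure.haveLebesgueDecomposition_add μ volume
  have hfμ : volume.withDensity f ≤ μ := by
    conv_rhs => rw [hdec]
    exact Measure.le_add_left le_rfl
  have hfΩ : ∫⁻ x in Ω, f x ≠ ⊤ := by
    rw [← withDensity_apply f hΩ.measurableSet]
    exact ((hfμ Ω).trans_lt (measure_lt_top μ Ω)).ne
  obtain ⟨k, hk⟩ := exists_trunc (volume.restrict Ω) f hfm hfΩ (ENNReal.ofReal (e / 4))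
    (by
      rw [ne_eq, ENNReal.ofReal_eq_zero]
      linarith)
  set fk : E N → ℝ≥0∞ := fun x => min (f x) (k : ℝ≥0∞) with hfkdef
  have hfkm : Measurable fk := hfm.min measurable_const
  set ν₁ : Measure (E N) := (volume.restrict Ω).withDensity fk with hν₁def
  have hν₁le : ν₁ ≤ volume.withDensity f := by
    rw [hν₁def, ← restrict_withDensity hΩ.measurableSet]
    exact Measure.restrict_le_self.trans
      (withDensity_mono (ae_of_all _ fun x => min_le_left _ _))
  have hν₁fin : IsFiniteMeasure ν₁ := isFiniteMeasure_of_le μ (hν₁le.trans hfμ)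
  -- the measure
  have hθ : ENNReal.ofReal (1 - 2 * ε) ≤ 1 := by
    rw [← ENNReal.ofReal_one]
    exact ENNReal.ofReal_le_ofReal (by linarith)
  have hθν : ENNReal.ofReal (1 - 2 * ε) • ν ≤ ν := by
    intro s
    rw [Measure.smul_apply, smul_eq_mul]
    exact mul_le_of_le_one_left zero_le hθ
  set νt : Measure (E N) := ν₁ + ENNReal.ofReal (1 - 2 * ε) • ν with hνtdef
  have hνtμ : νt ≤ μ := by
    conv_rhs => rw [hdec]
    rw [hνtdef, add_comm]
    exact add_le_add (hθν.trans hνs) hν₁le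
  have hνtfin : IsFiniteMeasure νt := isFiniteMeasure_of_le μ hνtμ
  have hνtΩ : νt Ωᶜ = 0 := le_antisymm ((hνtμ Ωᶜ).trans hμ.le) zero_le
  obtain ⟨w, hwm, hw0, hwsol, hwle⟩ := hEXI N Ω γ c hN hΩ hb hker νt hνtfin hνtΩ
  refine ⟨νt, hνtfin, ⟨hνtfin, hνtΩ, w, hwsol, ?_⟩, hνtμ, ?_⟩
  · -- integrability
    obtain ⟨C, hC⟩ := hF3 (k : ℝ≥0)
    have hCk : ∀ x ∈ Ω, Pt γ ν₁ x ≤ C := hC fk fun x => by
      show min (f x) (k : ℝ≥0∞) ≤ ((k : ℝ≥0) : ℝ≥0∞)
      rw [ENNReal.coe_natCast]
      exact min_le_right _ _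
    have hPt : ∀ x, Pt γ νt x = Pt γ ν₁ x + ENNReal.ofReal (1 - 2 * ε) * Pt γ ν x := by
      intro x
      unfold Pt
      rw [hνtdef, lintegral_add_measure, lintegral_smul_measure, smul_eq_mul]
    have hfin : ∀ᵐ x ∂(volume.restrict Ω), Pt γ ν x < ⊤ :=
      ae_lt_top (measurable_Pt hF1 _) (hF2 _ hνfin).ne
    have hgw : Measurable fun x => g (w x) := hg.measurable.comp hwm
    refine ⟨hgw.aestronglyMeasurable, ?_⟩
    set B : ℝ := g (((C : ℝ) + (C : ℝ) / ε) / c) with hB
    have hbound : ∀ᵐ x ∂(volume.restrict Ω), ‖g (w x)‖ₑ ≤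
        ENNReal.ofReal (g ((1 - ε) * (Pt γ ν x).toReal / c)) +
          (ENNReal.ofReal B + ENNReal.ofReal |g 0|) := by
      filter_upwards [hwle, hfin, ae_restrict_mem hΩ.measurableSet] with x h1 h2 hx
      set P : ℝ := (Pt γ ν x).toReal with hP
      have hP0 : 0 ≤ P := ENNReal.toReal_nonneg
      have h3 : Pt γ ν x = ENNReal.ofReal P := (ENNReal.ofReal_toReal h2.ne).symm
      have h4 : ENNReal.ofReal (c * w x) ≤ ENNReal.ofReal ((C : ℝ) + (1 - 2 * ε) * P) := by
        refine h1.trans ?_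
        rw [hPt, h3, ENNReal.ofReal_add C.coe_nonneg (mul_nonneg (by linarith) hP0),
          ENNReal.ofReal_mul (by linarith), ENNReal.ofReal_coe_nnreal]
        exact add_le_add (hCk x hx) le_rfl
      have h5 : c * w x ≤ (C : ℝ) + (1 - 2 * ε) * P :=
        (ENNReal.ofReal_le_ofReal_iff
          (add_nonneg C.coe_nonneg (mul_nonneg (by linarith) hP0))).1 h4
      have h6 : ENNReal.ofReal (g (w x)) ≤
          ENNReal.ofReal (g ((1 - ε) * P / c)) + ENNReal.ofReal B := by
        by_cases h7 : (C : ℝ) ≤ ε * P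
        · refine le_trans ?_ (le_add_of_nonneg_right zero_le)
          apply ENNReal.ofReal_le_ofReal
          apply hm
          rw [le_div_iff₀ hc]
          linarith
        · refine le_trans ?_ (le_add_of_nonneg_left zero_le)
          apply ENNReal.ofReal_le_ofReal
          apply hm
          rw [le_div_iff₀ hc]
          rw [not_le] at h7
          have h8 : P ≤ (C : ℝ) / ε := by
            rw [le_div_iff₀ hε0]
            linarith
          have h9 : (1 - 2 * ε) * P ≤ P := by nlinarith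
          linarith
      have h7 : ‖g (w x)‖ₑ ≤ ENNReal.ofReal (g (w x)) + ENNReal.ofReal |g 0| := by
        rw [← ofReal_norm, Real.norm_eq_abs]
        rcases le_or_gt 0 (g (w x)) with h8 | h8
        · rw [abs_of_nonneg h8]
          exact le_add_of_nonneg_right zero_le
        · refine le_trans ?_ (le_add_of_nonneg_left zero_le)
          apply ENNReal.ofReal_le_ofReal
          have h9 : g 0 ≤ g (w x) := hm (hw0 x)
          rw [abs_of_neg h8, abs_of_neg (lt_of_le_of_lt h9 h8)]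
          linarith
      refine h7.trans ?_
      rw [← add_assoc]
      exact add_le_add h6 le_rfl
    refine (lintegral_mono_ae hbound).trans_lt ?_
    rw [lintegral_add_right _ measurable_const, setLIntegral_const]
    exact ENNReal.add_lt_top.2 ⟨hF, ENNReal.mul_lt_top
      (ENNReal.add_lt_top.2 ⟨ENNReal.ofReal_lt_top, ENNReal.ofReal_lt_top⟩) hb.measure_lt_top⟩
  · -- the mass
    have h1 : (volume.withDensity f) univ ≤ ν₁ univ + ENNReal.ofReal (e / 4) := by
      have h2 : (volume.withDensity f) Ωᶜ = 0 := le_antisymm ((hfμ Ωᶜ).trans hμ.le) zero_le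
      rw [← measure_add_measure_compl hΩ.measurableSet, h2, add_zero,
        withDensity_apply f hΩ.measurableSet, hν₁def, withDensity_apply _ MeasurableSet.univ,
        Measure.restrict_univ]
      exact hk
    have h2 : (μ.singularPart volume) univ ≤ ν univ + ENNReal.ofReal (e / 4) := by
      rw [← measure_add_measure_compl hK.isClosed.measurableSet, hνdef,
        Measure.restrict_apply MeasurableSet.univ, univ_inter]
      exact add_le_add le_rfl hsing
    have h3 : ν univ ≤ ENNReal.ofReal (1 - 2 * ε) * ν univ + ENNReal.ofReal (e / 4) := by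
      have h4 : ν univ = ENNReal.ofReal (1 - 2 * ε) * ν univ + ENNReal.ofReal (2 * ε) * ν univ := by
        rw [← add_mul, ← ENNReal.ofReal_add (by linarith) (by linarith), sub_add_cancel,
          ENNReal.ofReal_one, one_mul]
      conv_lhs => rw [h4]
      refine add_le_add le_rfl ?_
      have h5 : ν univ ≤ ENNReal.ofReal m := by
        rw [hmdef, ENNReal.ofReal_toReal (measure_ne_top _ _)]
        exact hνμ univ
      refine (mul_le_mul_right h5 _).trans ?_
      rw [← ENNReal.ofReal_mul (by linarith)]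
      exact ENNReal.ofReal_le_ofReal hε2
    have h4 : μ univ ≤ νt univ + ENNReal.ofReal (3 * (e / 4)) := by
      have h5 : μ univ = (μ.singularPart volume) univ + (volume.withDensity f) univ := by
        conv_lhs => rw [hdec]
        rw [Measure.add_apply]
      have h6 : νt univ = ν₁ univ + ENNReal.ofReal (1 - 2 * ε) * ν univ := by
        rw [hνtdef, Measure.add_apply, Measure.smul_apply, smul_eq_mul]
      have h7 : ENNReal.ofReal (3 * (e / 4)) = ENNReal.ofReal (e / 4) + ENNReal.ofReal (e / 4) +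
          ENNReal.ofReal (e / 4) := by
        rw [← ENNReal.ofReal_add (by positivity) (by positivity),
          ← ENNReal.ofReal_add (by positivity) (by positivity)]
        congr 1
        ring
      rw [h5, h6, h7]
      calc (μ.singularPart volume) univ + (volume.withDensity f) univ
          ≤ ((ENNReal.ofReal (1 - 2 * ε) * ν univ + ENNReal.ofReal (e / 4)) +
            ENNReal.ofReal (e / 4)) + (ν₁ univ + ENNReal.ofReal (e / 4)) :=
            add_le_add (h2.trans (add_le_add h3 le_rfl)) h1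
        _ = ν₁ univ + ENNReal.ofReal (1 - 2 * ε) * ν univ +
            (ENNReal.ofReal (e / 4) + ENNReal.ofReal (e / 4) + ENNReal.ofReal (e / 4)) := by
            ring
    refine h4.trans_lt (ENNReal.add_lt_add_left (measure_ne_top _ _) ?_)
    rw [ENNReal.ofReal_lt_ofReal_iff he]
    linarith

end MainP

/-- The assembly: Veron's question has a positive answer, given the pieces. -/
theorem Main (hK3 : Stm_KER3) (hK2 : Stm_KER2) (hREP : Stm_REP) (hFIN : Stm_FIN)
    (hSEL : Stm_SEL) (hKEY : Stm_KEY) (hTON : Stm_TON) (hEXI : Stm_EXI) : Stm_Main := by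
  intro N hN Ω hΩ hb g hg hm _ μ hμfin hμ ⟨u, hu⟩ e he
  have hker : ∃ (γ : ℝ → ℝ) (c : ℝ), Ker N Ω γ c := by
    rcases Nat.lt_or_ge N 3 with h | h
    · obtain rfl : N = 2 := by omega
      exact hK2 Ω hb
    · exact hK3 N h Ω
  obtain ⟨γ, c, hker⟩ := hker
  -- a measurable representative
  have hum : AEStronglyMeasurable u (volume.restrict Ω) := hu.1.1
  have hae : u =ᵐ[volume.restrict Ω] hum.mk u := hum.ae_eq_mk
  have hu' : IsSol g Ω μ (hum.mk u) := by
    refine ⟨hu.1.congr hae, hu.2.1.congr (hae.mono fun x hx => by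
      show g (u x) = g (hum.mk u x)
      rw [hx]), fun ζ hζ => ?_⟩
    rw [← hu.2.2 ζ hζ]
    congr 1
    · congr 1
      apply integral_congr_ae
      filter_upwards [hae] with x hx
      rw [hx]
    · apply integral_congr_ae
      filter_upwards [hae] with x hx
      rw [hx]
  obtain ⟨ν, hνfin, hνV, hνμ, hmass⟩ := MainP.main_aux hREP hFIN hSEL hKEY hTON hEXI
    (by omega : 1 ≤ N) hΩ hb hker g hg hm μ hμ (hum.mk u) hum.stronglyMeasurable_mk.measurable
    hu' e he
  refine ⟨ν, hνfin, hνV, ?_⟩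
  rw [MainP.tv_eq ν μ hνμ, Measure.sub_apply MeasurableSet.univ hνμ]
  exact ENNReal.sub_lt_of_lt_add (hνμ univ) (by rwa [add_comm])

end R197VP
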