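import Pool.Agent.R197.VP.Stm

/-!
MP_8eef66_an: pieces FIN and REP.
-/

set_option autoImplicit false

open MeasureTheory Set Filter Topology Metric
open scoped ENNReal NNReal ContDiff Laplacian

namespace R197VP

namespace RepAux

variable {N : ℕ} {Ω : Set (E N)} {γ : ℝ → ℝ} {c : ℝ}

/-! ### Laplacian of a test function -/

theorem lap_continuous {φ : E N → ℝ} (hφ : ContDiff ℝ ∞ φ) : Continuous (Δ φ) := by
  rw [InnerProductSpace.laplacian_eq_iteratedFDeriv_stdOrthonormalBasis]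
  refine continuous_finsetSum _ fun i _ => ?_
  have h : Continuous fun x => iteratedFDeriv ℝ 2 φ x :=
    (contDiff_infty.1 hφ 2).continuous_iteratedFDeriv'
  exact (ContinuousMultilinearMap.apply ℝ (fun _ : Fin 2 => E N) ℝ _).continuous.comp h

theorem lap_zero {φ : E N → ℝ} {x : E N} (hx : x ∉ tsupport φ) : (Δ φ) x = 0 := by
  have h1 : φ =ᶠ[𝓝 x] (fun _ => 0) := notMem_tsupport_iff_eventuallyEq.1 hx
  have h2 := (InnerProductSpace.laplacian_congr_nhds h1).eq_of_nhds
  rw [h2, InnerProductSpace.laplacian_const]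
  rfl

theorem lap_bounded {φ : E N → ℝ} (hφ : ContDiff ℝ ∞ φ) (hc : HasCompactSupport φ) :
    ∃ C, ∀ x, ‖(Δ φ) x‖ ≤ C := by
  have h : HasCompactSupport (Δ φ) := hc.mono' (fun x hx => by
    by_contra h
    exact hx (lap_zero h))
  exact (lap_continuous hφ).bounded_above_of_compact_support h

/-! ### The kernel -/

theorem gk_meas (hγ : Measurable γ) : Measurable (gk γ) := by
  unfold gk
  exact Measurable.ite (measurableSet_le measurable_id measurable_const) measurable_const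
    hγ.ennreal_ofReal

theorem gk_pos {t : ℝ} (ht : 0 < t) : gk γ t = ENNReal.ofReal (γ t) := by
  unfold gk
  rw [if_neg (not_le.2 ht)]

theorem ae_ne (hN : 1 ≤ N) (w : E N) : ∀ᵐ x ∂(volume : Measure (E N)), x ≠ w := by
  have : Nontrivial (E N) := by
    apply Module.nontrivial_of_finrank_pos (R := ℝ)
    rw [finrank_euclideanSpace, Fintype.card_fin]
    omega
  rw [ae_iff]
  simp

theorem exists_A (hN : 1 ≤ N) (hΩ : Bornology.IsBounded Ω) (hK : Ker N Ω γ c) :
    ∃ A : ℝ≥0, ∀ w, ∫⁻ x in Ω, gk γ (dist x w) ≤ A := by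
  obtain ⟨t, ht0, ht⟩ := hΩ.subset_ball_lt 0 (0 : E N)
  obtain ⟨C, -, hC⟩ := hK.ball
  have hfin : ENNReal.ofReal (C * (γ t + 1)) * volume (Metric.ball (0 : E N) t) ≠ ⊤ :=
    ENNReal.mul_ne_top ENNReal.ofReal_ne_top measure_ball_lt_top.ne
  refine ⟨(ENNReal.ofReal (C * (γ t + 1)) * volume (Metric.ball (0 : E N) t)).toNNReal,
    fun w => ?_⟩
  rw [ENNReal.coe_toNNReal hfin]
  calc ∫⁻ x in Ω, gk γ (dist x w) ≤ ∫⁻ x in Metric.ball (0 : E N) t, gk γ (dist x w) :=
        lintegral_mono_set ht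
    _ = ∫⁻ x in Metric.ball (0 : E N) t, ENNReal.ofReal (γ (dist x w)) := by
        refine lintegral_congr_ae ?_
        filter_upwards [ae_restrict_of_ae (ae_ne hN w)] with x hx
        exact gk_pos (dist_pos.2 hx)
    _ ≤ _ := hC 0 w t ht0

theorem gk_meas2 (hK : Ker N Ω γ c) : Measurable fun p : E N × E N => gk γ (dist p.1 p.2) :=
  (gk_meas hK.meas).comp measurable_dist

end RepAux

open RepAux

/-- Piece FIN. -/
theorem FIN : Stm_FIN := by
  intro N Ω γ c hN hΩ hK
  obtain ⟨A, hA⟩ := exists_A hN hΩ hK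
  have hm := gk_meas2 hK
  refine ⟨hm, ?_, ?_⟩
  · intro ν hν
    unfold Pt
    rw [lintegral_lintegral_swap hm.aemeasurable]
    calc ∫⁻ w, (∫⁻ x in Ω, gk γ (dist x w)) ∂ν ≤ ∫⁻ _, (A : ℝ≥0∞) ∂ν := lintegral_mono hA
      _ = A * ν univ := lintegral_const _
      _ < ⊤ := ENNReal.mul_lt_top ENNReal.coe_lt_top (measure_lt_top ν _)
  · intro k
    refine ⟨k * A, fun f hf x _ => ?_⟩
    unfold Pt
    have h1 : (volume.restrict Ω).withDensity f ≤ (k : ℝ≥0∞) • (volume : Measure (E N)).restrict Ω := by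
      rw [← withDensity_const]
      exact withDensity_mono (Eventually.of_forall hf)
    calc ∫⁻ w, gk γ (dist x w) ∂((volume.restrict Ω).withDensity f)
        ≤ ∫⁻ w, gk γ (dist x w) ∂((k : ℝ≥0∞) • (volume : Measure (E N)).restrict Ω) :=
          lintegral_mono' h1 le_rfl
      _ = k * ∫⁻ w in Ω, gk γ (dist x w) := lintegral_smul_measure _ _
      _ ≤ k * A := by
          gcongr
          simpa [dist_comm] using hA x
      _ = ((k * A : ℝ≥0) : ℝ≥0∞) := by push_cast; rfl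

namespace RepAux

variable {N : ℕ} {Ω : Set (E N)} {γ : ℝ → ℝ} {c : ℝ}

/-- the real kernel -/
noncomputable def G (γ : ℝ → ℝ) (x w : E N) : ℝ := (gk γ (dist x w)).toReal

theorem G_meas (hK : Ker N Ω γ c) : Measurable fun p : E N × E N => G γ p.1 p.2 :=
  (gk_meas2 hK).ennreal_toReal

theorem G_eq (hK : Ker N Ω γ c) {x w : E N} (h : x ≠ w) : G γ x w = γ (dist w x) := by
  unfold G
  rw [gk_pos (dist_pos.2 h), ENNReal.toReal_ofReal (hK.nonneg _ (dist_pos.2 h)), dist_comm]

theorem enorm_G_le (x w : E N) : ‖G γ x w‖ₑ ≤ gk γ (dist x w) := by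
  unfold G
  by_cases h : gk γ (dist x w) = ⊤
  · rw [h]; exact le_top
  · rw [Real.enorm_toReal h]

theorem fub (hN : 1 ≤ N) (hΩ : Bornology.IsBounded Ω) (hK : Ker N Ω γ c) (ν : Measure (E N))
    [SFinite ν] (hν : ∀ᵐ w ∂ν, w ∈ Ω) (h : E N → ℝ) (hh : Integrable h ν) :
    IntegrableOn (fun x => ∫ w, G γ x w * h w ∂ν) Ω ∧
    ∀ φ : E N → ℝ, ContDiff ℝ ∞ φ → HasCompactSupport φ → tsupport φ ⊆ Ω →
      ∫ x in Ω, (∫ w, G γ x w * h w ∂ν) * (Δ φ) x = -c * ∫ w, φ w * h w ∂ν := by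
  obtain ⟨A, hA⟩ := exists_A hN hΩ hK
  have haes : AEStronglyMeasurable (fun p : E N × E N => G γ p.1 p.2 * h p.2)
      ((volume.restrict Ω).prod ν) :=
    (G_meas hK).aestronglyMeasurable.mul hh.1.comp_snd
  have hG : Integrable (fun p : E N × E N => G γ p.1 p.2 * h p.2)
      ((volume.restrict Ω).prod ν) := by
    refine ⟨haes, ?_⟩
    rw [hasFiniteIntegral_iff_enorm, lintegral_prod_symm _ haes.enorm]
    calc ∫⁻ w, (∫⁻ x in Ω, ‖G γ x w * h w‖ₑ) ∂ν ≤ ∫⁻ w, A * ‖h w‖ₑ ∂ν := by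
          refine lintegral_mono fun w => ?_
          simp_rw [enorm_mul]
          rw [lintegral_mul_const' _ _ enorm_ne_top]
          gcongr
          exact (lintegral_mono fun x => enorm_G_le x w).trans (hA w)
      _ = A * ∫⁻ w, ‖h w‖ₑ ∂ν := lintegral_const_mul' _ _ ENNReal.coe_ne_top
      _ < ⊤ := ENNReal.mul_lt_top ENNReal.coe_lt_top hh.2
  refine ⟨hG.integral_prod_left, ?_⟩
  intro φ hφ hc hs
  obtain ⟨M, hM⟩ := lap_bounded hφ hc
  have h2 : Integrable (fun p : E N × E N => G γ p.1 p.2 * h p.2 * (Δ φ) p.1)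
      ((volume.restrict Ω).prod ν) := by
    refine hG.mul_bdd (c := M) ?_ (Eventually.of_forall fun p => hM p.1)
    exact ((lap_continuous hφ).comp continuous_fst).aestronglyMeasurable
  calc ∫ x in Ω, (∫ w, G γ x w * h w ∂ν) * (Δ φ) x
      = ∫ x in Ω, ∫ w, G γ x w * h w * (Δ φ) x ∂ν := by
        simp_rw [integral_mul_const]
    _ = ∫ w, (∫ x in Ω, G γ x w * h w * (Δ φ) x) ∂ν := integral_integral_swap h2
    _ = ∫ w, -c * (φ w * h w) ∂ν := by
        refine integral_congr_ae ?_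
        filter_upwards [hν] with w hw
        have e1 : ∫ x in Ω, G γ x w * h w * (Δ φ) x = h w * ∫ x in Ω, G γ x w * (Δ φ) x := by
          rw [← integral_const_mul]
          congr 1
          funext x
          ring
        have e2 : ∫ x in Ω, G γ x w * (Δ φ) x = ∫ x, G γ x w * (Δ φ) x := by
          apply setIntegral_eq_integral_of_forall_compl_eq_zero
          intro x hx
          rw [lap_zero (fun h => hx (hs h)), mul_zero]
        have e3 : ∫ x, G γ x w * (Δ φ) x = ∫ x, γ (dist w x) * (Δ φ) x := by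
          refine integral_congr_ae ?_
          filter_upwards [ae_ne hN w] with x hx
          rw [G_eq hK hx]
        rw [e1, e2, e3, hK.fund φ hφ hc hs w hw]
        ring
    _ = -c * ∫ w, φ w * h w ∂ν := integral_const_mul _ _

end RepAux

/-- Piece REP. -/
theorem REP (hW : Stm_WEYL) : Stm_REP := by
  intro N Ω γ c hN hΩo hΩ hK μ hμ hμΩ u h hu hh heq K hKc hKΩ
  have hμ' : ∀ᵐ w ∂μ, w ∈ Ω := by
    rw [ae_iff]
    exact hμΩ
  obtain ⟨hp1, hp2⟩ := fub hN hΩ hK μ hμ' (fun _ => 1) (integrable_const _)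
  obtain ⟨hq1, hq2⟩ := fub hN hΩ hK (volume.restrict Ω)
    (ae_restrict_mem hΩo.measurableSet) h hh
  set p : E N → ℝ := fun x => ∫ w, G γ x w * 1 ∂μ with hp
  set q : E N → ℝ := fun x => ∫ w in Ω, G γ x w * h w with hq
  set v : E N → ℝ := fun x => c * u x - p x + q x with hv
  have hvint : IntegrableOn v Ω := ((hu.const_mul c).sub hp1).add hq1
  have hveq : ∀ φ : E N → ℝ, ContDiff ℝ ∞ φ → HasCompactSupport φ → tsupport φ ⊆ Ω →
      ∫ x in Ω, v x * (Δ φ) x = 0 := by
    intro φ hφ hc hs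
    obtain ⟨M, hM⟩ := lap_bounded hφ hc
    have hint : ∀ f : E N → ℝ, IntegrableOn f Ω → IntegrableOn (fun x => f x * (Δ φ) x) Ω :=
      fun f hf => Integrable.mul_bdd (c := M) hf (lap_continuous hφ).aestronglyMeasurable
        (Eventually.of_forall hM)
    have e1 : ∫ x in Ω, v x * (Δ φ) x = c * (∫ x in Ω, u x * (Δ φ) x)
        - (∫ x in Ω, p x * (Δ φ) x) + ∫ x in Ω, q x * (Δ φ) x := by
      rw [← integral_const_mul, ← integral_sub, ← integral_add]
      · congr 1
        funext x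
        simp only [hv]
        ring
      · exact ((hint u hu).const_mul c).sub (hint p hp1)
      · exact hint q hq1
      · exact (hint u hu).const_mul c
      · exact hint p hp1
    have e2 := heq φ hφ hc hs
    have e3 : ∫ x in Ω, p x * (Δ φ) x = -c * ∫ w, φ w * 1 ∂μ := hp2 φ hφ hc hs
    have e4 : ∫ x in Ω, q x * (Δ φ) x = -c * ∫ w in Ω, φ w * h w := hq2 φ hφ hc hs
    have e5 : ∫ w, φ w * 1 ∂μ = ∫ w, φ w ∂μ := by simp
    have e6 : ∫ w in Ω, φ w * h w = ∫ w in Ω, h w * φ w := by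
      congr 1
      funext w
      ring
    rw [e1, e3, e4, e5, e6]
    linear_combination (-c) * e2
  obtain ⟨C, hC0, hC⟩ := hW N hN Ω hΩo v hvint hveq K hKc hKΩ
  refine ⟨C, hC0, ?_⟩
  have hfin : ∀ᵐ x ∂((volume : Measure (E N)).restrict Ω), Pt γ μ x < ⊤ := by
    refine ae_lt_top ?_ ((FIN N Ω γ c hN hΩ hK).2.1 μ hμ).ne
    exact Measurable.lintegral_prod_right' (f := fun p : E N × E N => gk γ (dist p.1 p.2))
      (gk_meas2 hK)
  have hfin' : ∀ᵐ x ∂((volume : Measure (E N)).restrict K), Pt γ μ x < ⊤ :=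
    ae_restrict_of_ae_restrict_of_subset hKΩ hfin
  filter_upwards [hC, hfin'] with x hx1 hx2
  have hgx : Measurable fun w => gk γ (dist x w) :=
    (gk_meas hK.meas).comp (measurable_const.dist measurable_id)
  have hpx : p x = (Pt γ μ x).toReal := by
    have : ∀ᵐ w ∂μ, gk γ (dist x w) < ⊤ := ae_lt_top hgx hx2.ne
    show ∫ w, G γ x w * 1 ∂μ = _
    simp only [mul_one]
    exact integral_toReal hgx.aemeasurable this
  have hqx : ENNReal.ofReal (q x) ≤
      Pt γ ((volume.restrict Ω).withDensity fun y => ENNReal.ofReal |h y|) x := by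
    calc ENNReal.ofReal (q x) ≤ ‖q x‖ₑ := Real.ofReal_le_enorm _
      _ ≤ ∫⁻ w in Ω, ‖G γ x w * h w‖ₑ := enorm_integral_le_lintegral_enorm _
      _ ≤ ∫⁻ w in Ω, ((fun y => ENNReal.ofReal |h y|) * fun w => gk γ (dist x w)) w := by
          refine lintegral_mono fun w => ?_
          simp only [Pi.mul_apply]
          rw [enorm_mul, mul_comm, Real.enorm_eq_ofReal_abs]
          gcongr
          exact enorm_G_le x w
      _ = Pt γ ((volume.restrict Ω).withDensity fun y => ENNReal.ofReal |h y|) x := by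
          unfold Pt
          rw [lintegral_withDensity_eq_lintegral_mul₀ _ hgx.aemeasurable]
          have : AEStronglyMeasurable h (volume.restrict Ω) := hh.1
          exact (this.aemeasurable.norm).ennreal_ofReal
  have hle : p x ≤ (c * u x + C) + q x := by
    have h1 := (abs_le.1 hx1).1
    simp only [hv] at h1
    linarith
  calc Pt γ μ x = ENNReal.ofReal (p x) := by rw [hpx, ENNReal.ofReal_toReal hx2.ne]
    _ ≤ ENNReal.ofReal ((c * u x + C) + q x) := ENNReal.ofReal_le_ofReal hle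
    _ ≤ ENNReal.ofReal (c * u x + C) + ENNReal.ofReal (q x) := ENNReal.ofReal_add_le
    _ ≤ _ := by gcongr

end R197VP
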