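import Pool.Agent.R197.VP.Stm

/-! Piece SEL. -/

set_option autoImplicit false

open MeasureTheory Set Filter Topology Metric
open scoped ENNReal NNReal

namespace R197VP

theorem sel_right {N : ℕ} (μ H : Measure (E N)) [IsFiniteMeasure μ] (ε : ℝ≥0∞) (hε : ε ≠ ⊤)
    (x : E N) (r₀ : ℝ)
    (h : ∀ q : ℚ, 0 < (q : ℝ) → (q : ℝ) < r₀ → H (closedBall x q) ≤ ε * μ (closedBall x q)) :
    ∀ r, 0 < r → r < r₀ → H (closedBall x r) ≤ ε * μ (closedBall x r) := by
  intro r hr hr0
  have h1 : Tendsto (μ ∘ fun r' => closedBall x r') (𝓝[>] r)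
      (𝓝 (μ (⋂ r' > r, closedBall x r'))) := by
    apply tendsto_measure_biInter_gt
    · intro r' _
      exact measurableSet_closedBall.nullMeasurableSet
    · intro i j _ hij
      exact closedBall_subset_closedBall hij
    · exact ⟨r + 1, by linarith, measure_ne_top _ _⟩
  have h2 : (⋂ r' > r, closedBall x r') = closedBall x r := by
    ext y
    simp only [mem_iInter, mem_closedBall]
    constructor
    · intro h3
      exact le_of_forall_gt_imp_ge_of_dense (fun a ha => h3 a ha)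
    · intro h3 a ha
      exact h3.trans ha.le
  rw [h2] at h1
  have h3 : Tendsto (fun r' => ε * μ (closedBall x r')) (𝓝[>] r) (𝓝 (ε * μ (closedBall x r))) :=
    ENNReal.Tendsto.const_mul h1 (Or.inr hε)
  by_contra hcon
  push Not at hcon
  have h4 : ∀ᶠ r' in 𝓝[>] r, ε * μ (closedBall x r') < H (closedBall x r) :=
    h3.eventually (Iio_mem_nhds hcon)
  have h5 : ∀ᶠ r' in 𝓝[>] r, r' < r₀ := mem_nhdsWithin_of_mem_nhds (Iio_mem_nhds hr0)
  obtain ⟨u, hu, hu'⟩ := (mem_nhdsGT_iff_exists_Ioo_subset).1 (h4.and h5)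
  obtain ⟨q, hq1, hq2⟩ := exists_rat_btwn (show r < u from hu)
  have h6 := hu' ⟨hq1, hq2⟩
  have h7 := h q (by linarith) h6.2
  have h8 : H (closedBall x r) ≤ H (closedBall x q) :=
    measure_mono (closedBall_subset_closedBall hq1.le)
  exact absurd (h8.trans h7) (not_le.2 h6.1)

theorem sel_meas {N : ℕ} (μ : Measure (E N)) [IsFiniteMeasure μ] (r : ℝ) :
    Measurable (fun x : E N => μ (closedBall x r)) := by
  have h : MeasurableSet {p : E N × E N | dist p.2 p.1 ≤ r} :=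
    (isClosed_le (by fun_prop) continuous_const).measurableSet
  exact measurable_measure_prodMk_left h

theorem SEL : Stm_SEL := by
  intro N hN Ω hΩ μ H hμ hH hμΩ hHv ε₀ δ hε₀ hδ
  set μs : Measure (E N) := μ.singularPart volume with hμs
  have hfin : IsFiniteMeasure μs := by
    rw [hμs]; infer_instance
  have hle : μs ≤ μ := Measure.singularPart_le μ volume
  have hms : μs ⟂ₘ volume := Measure.mutuallySingular_singularPart μ volume
  obtain ⟨s, hs, hs1, hs2⟩ := hms
  have hHs : H ⟂ₘ μs := Measure.MutuallySingular.mono_ac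
    (Measure.mutuallySingular_singularPart μ volume).symm hHv Measure.AbsolutelyContinuous.rfl
  have hrn : H.rnDeriv μs =ᵐ[μs] 0 := hHs.rnDeriv_ae_eq_zero
  have hbes := Besicovitch.ae_tendsto_rnDeriv H μs
  set ε : ℝ≥0∞ := ENNReal.ofReal ε₀ with hε
  have hεtop : ε ≠ ⊤ := ENNReal.ofReal_ne_top
  have hε0 : 0 < ε := ENNReal.ofReal_pos.2 hε₀
  set B : ℕ → Set (E N) := fun m => {x | ∀ q : ℚ, 0 < (q : ℝ) → (q : ℝ) < 1 / ((m : ℝ) + 1) →
    H (closedBall x q) ≤ ε * μs (closedBall x q)} with hB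
  have hBm : ∀ m, MeasurableSet (B m) := by
    intro m
    have h1 : B m = ⋂ q : ℚ, {x | 0 < (q : ℝ) → (q : ℝ) < 1 / ((m : ℝ) + 1) →
        H (closedBall x q) ≤ ε * μs (closedBall x q)} := by
      ext x
      simp [hB]
    rw [h1]
    refine MeasurableSet.iInter (fun q => ?_)
    by_cases h2 : 0 < (q : ℝ) ∧ (q : ℝ) < 1 / ((m : ℝ) + 1)
    · have h3 : {x : E N | 0 < (q : ℝ) → (q : ℝ) < 1 / ((m : ℝ) + 1) →
          H (closedBall x q) ≤ ε * μs (closedBall x q)} =
          {x | H (closedBall x q) ≤ ε * μs (closedBall x q)} := by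
        ext x
        exact ⟨fun h => h h2.1 h2.2, fun h _ _ => h⟩
      rw [h3]
      exact measurableSet_le (sel_meas H q) ((sel_meas μs q).const_mul ε)
    · have h3 : {x : E N | 0 < (q : ℝ) → (q : ℝ) < 1 / ((m : ℝ) + 1) →
          H (closedBall x q) ≤ ε * μs (closedBall x q)} = univ := by
        ext x
        simp only [mem_ofPred_eq, mem_univ, iff_true]
        exact fun h h' => absurd ⟨h, h'⟩ h2
      rw [h3]
      exact MeasurableSet.univ
  have hBmono : Monotone B := by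
    intro m m' hmm x hx q hq hq'
    refine hx q hq (hq'.trans_le ?_)
    have h1 : (m : ℝ) ≤ m' := by exact_mod_cast hmm
    apply one_div_le_one_div_of_le
    · positivity
    · linarith
  have hBfull : μs (⋂ m, (B m)ᶜ) = 0 := by
    rw [← compl_iUnion]
    have h1 : ∀ᵐ x ∂μs, x ∈ ⋃ m, B m := by
      filter_upwards [hbes, hrn] with x hx hx0
      rw [hx0] at hx
      have h2 : ∀ᶠ r in 𝓝[>] (0 : ℝ), H (closedBall x r) / μs (closedBall x r) < ε :=
        hx.eventually (Iio_mem_nhds hε0)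
      obtain ⟨u, hu, hu'⟩ := (mem_nhdsGT_iff_exists_Ioo_subset).1 h2
      have hu0 : (0 : ℝ) < u := hu
      obtain ⟨m, hm⟩ := exists_nat_one_div_lt hu0
      refine mem_iUnion.2 ⟨m, ?_⟩
      intro q hq hq'
      have h3 : H (closedBall x q) / μs (closedBall x q) < ε := hu' ⟨hq, hq'.trans hm⟩
      exact (ENNReal.div_le_iff_le_mul (Or.inr hεtop) (Or.inl (measure_ne_top _ _))).1 h3.le
    exact h1
  have htend : Tendsto (fun m => μs ((B m)ᶜ)) atTop (𝓝 0) := by
    rw [← hBfull]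
    exact tendsto_measure_iInter_atTop (fun m => (hBm m).compl.nullMeasurableSet)
      (fun m m' h => compl_subset_compl.2 (hBmono h)) ⟨0, measure_ne_top _ _⟩
  have hδ2 : (0 : ℝ≥0∞) < ENNReal.ofReal (δ / 2) := ENNReal.ofReal_pos.2 (by linarith)
  obtain ⟨m, hm⟩ := (htend.eventually (Iio_mem_nhds hδ2)).exists
  have hm' : μs ((B m)ᶜ) < ENNReal.ofReal (δ / 2) := hm
  set S : Set (E N) := B m ∩ sᶜ ∩ Ω with hS
  have hSm : MeasurableSet S := ((hBm m).inter hs.compl).inter hΩ.measurableSet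
  have hSc : μs Sᶜ ≤ ENNReal.ofReal (δ / 2) := by
    have h1 : Sᶜ ⊆ (B m)ᶜ ∪ (s ∪ Ωᶜ) := by
      intro x hx
      by_contra hcon
      simp only [mem_union, mem_compl_iff, not_or, not_not] at hcon
      exact hx ⟨⟨hcon.1, hcon.2.1⟩, hcon.2.2⟩
    have h2 : μs Ωᶜ = 0 := le_antisymm ((hle Ωᶜ).trans hμΩ.le) zero_le
    calc μs Sᶜ ≤ μs ((B m)ᶜ ∪ (s ∪ Ωᶜ)) := measure_mono h1
      _ ≤ μs (B m)ᶜ + (μs s + μs Ωᶜ) :=
          (measure_union_le _ _).trans (add_le_add le_rfl (measure_union_le _ _))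
      _ = μs (B m)ᶜ := by rw [hs1, h2]; simp
      _ ≤ _ := hm'.le
  obtain ⟨K, hKS, hK, hKd⟩ := hSm.exists_isCompact_sdiff_lt (μ := μs) (measure_ne_top _ _) hδ2.ne'
  refine ⟨K, 1 / ((m : ℝ) + 1), hK, fun x hx => (hKS hx).2, ?_, by positivity, ?_, ?_⟩
  · have h1 : K ⊆ sᶜ := fun x hx => (hKS hx).1.2
    exact le_antisymm ((measure_mono h1).trans hs2.le) zero_le
  · have h1 : Kᶜ ⊆ Sᶜ ∪ (S \ K) := by
      intro x hx
      by_cases h : x ∈ S
      · exact Or.inr ⟨h, hx⟩
      · exact Or.inl h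
    calc μs Kᶜ ≤ μs (Sᶜ ∪ (S \ K)) := measure_mono h1
      _ ≤ μs Sᶜ + μs (S \ K) := measure_union_le _ _
      _ ≤ ENNReal.ofReal (δ / 2) + ENNReal.ofReal (δ / 2) := add_le_add hSc hKd.le
      _ = ENNReal.ofReal δ := by
          rw [← ENNReal.ofReal_add (by linarith) (by linarith)]
          congr 1; ring
  · intro x hx r hr hr'
    have h1 : x ∈ B m := (hKS hx).1.1
    refine (sel_right μs H ε hεtop x _ h1 r hr hr').trans ?_
    exact mul_le_mul' le_rfl (hle _)

end R197VP
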