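import Mathlib

/-!
MP_8eef66_an (Veron): strong density of nonnegative measures with integrable nonlinear potential.
Definitions and exact statements of the pieces.
-/

set_option autoImplicit false

open MeasureTheory Set Filter Topology Metric
open scoped ENNReal NNReal ContDiff Laplacian

namespace R197VP

abbrev E (N : ℕ) := EuclideanSpace ℝ (Fin N)

/-- test functions: restrictions to `closure Ω` of smooth functions on `ℝ^N`, vanishing on the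
boundary of `Ω`. -/
def IsTest {N : ℕ} (Ω : Set (E N)) (ζ : E N → ℝ) : Prop :=
  ContDiff ℝ ∞ ζ ∧ ∀ x ∈ frontier Ω, ζ x = 0

/-- `w` solves `-Δ w = ν` in `Ω`, `w = 0` on the boundary (weak sense). -/
def IsLinSol {N : ℕ} (Ω : Set (E N)) (ν : Measure (E N)) (w : E N → ℝ) : Prop :=
  IntegrableOn w Ω ∧ ∀ ζ : E N → ℝ, IsTest Ω ζ → -∫ x in Ω, w x * (Δ ζ) x = ∫ x, ζ x ∂ν

/-- `u` solves `-Δ u + g(u) = μ` in `Ω`, `u = 0` on the boundary (weak sense). -/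
def IsSol {N : ℕ} (g : ℝ → ℝ) (Ω : Set (E N)) (μ : Measure (E N)) (u : E N → ℝ) : Prop :=
  IntegrableOn u Ω ∧ IntegrableOn (fun x => g (u x)) Ω ∧
    ∀ ζ : E N → ℝ, IsTest Ω ζ →
      -(∫ x in Ω, u x * (Δ ζ) x) + ∫ x in Ω, g (u x) * ζ x = ∫ x, ζ x ∂μ

/-- The nonnegative finite measures on `Ω` whose potential `w` has `g(w) ∈ L¹(Ω)`. -/
def VPlus {N : ℕ} (g : ℝ → ℝ) (Ω : Set (E N)) : Set (Measure (E N)) :=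
  {ν | IsFiniteMeasure ν ∧ ν Ωᶜ = 0 ∧
    ∃ w : E N → ℝ, IsLinSol Ω ν w ∧ IntegrableOn (fun x => g (w x)) Ω}

/-- kernels -/
structure Ker (N : ℕ) (Ω : Set (E N)) (γ : ℝ → ℝ) (c : ℝ) : Prop where
  meas : Measurable γ
  nonneg : ∀ t, 0 < t → 0 ≤ γ t
  anti : ∀ s t, 0 < s → s ≤ t → γ t ≤ γ s
  dbl : ∀ κ, 0 < κ → κ ≤ 1 → ∃ C : ℝ, 1 ≤ C ∧ ∀ t, 0 < t → γ (κ * t) ≤ C * (γ t + 1)
  har : ∀ η, 0 < η → ∃ ρ, 0 < ρ ∧ ρ ≤ 1 / 2 ∧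
    ∀ t, 0 < t → γ t ≤ (1 + η) * γ ((1 + ρ) * t) + η
  ball : ∃ C : ℝ, 1 ≤ C ∧ ∀ (z w : E N) (t : ℝ), 0 < t →
    ∫⁻ y in Metric.ball z t, ENNReal.ofReal (γ (dist y w)) ≤
      ENNReal.ofReal (C * (γ t + 1)) * volume (Metric.ball z t)
  cpos : 0 < c
  fund : ∀ φ : E N → ℝ, ContDiff ℝ ∞ φ → HasCompactSupport φ → tsupport φ ⊆ Ω → ∀ a ∈ Ω,
    ∫ y, γ (dist a y) * (Δ φ) y = -c * φ a

/-- the kernel with value `⊤` at `0` -/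
noncomputable def gk (γ : ℝ → ℝ) (t : ℝ) : ℝ≥0∞ := if t ≤ 0 then ⊤ else ENNReal.ofReal (γ t)

/-- potential of a measure -/
noncomputable def Pt {N : ℕ} (γ : ℝ → ℝ) (ν : Measure (E N)) (z : E N) : ℝ≥0∞ :=
  ∫⁻ w, gk γ (dist z w) ∂ν

/-- Piece KER3: `N ≥ 3`, `γ t = (t^(N-2))⁻¹`. -/
def Stm_KER3 : Prop := ∀ (N : ℕ), 3 ≤ N → ∀ Ω : Set (E N), ∃ (γ : ℝ → ℝ) (c : ℝ), Ker N Ω γ c

/-- Piece KER2: `N = 2`, `γ t = max (log (R / t)) 0`. -/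
def Stm_KER2 : Prop := ∀ Ω : Set (E 2), Bornology.IsBounded Ω → ∃ (γ : ℝ → ℝ) (c : ℝ), Ker 2 Ω γ c

/-- Piece WEYL. -/
def Stm_WEYL : Prop := ∀ (N : ℕ), 1 ≤ N → ∀ Ω : Set (E N), IsOpen Ω → ∀ v : E N → ℝ,
  IntegrableOn v Ω →
  (∀ φ : E N → ℝ, ContDiff ℝ ∞ φ → HasCompactSupport φ → tsupport φ ⊆ Ω →
    ∫ x in Ω, v x * (Δ φ) x = 0) →
  ∀ K : Set (E N), IsCompact K → K ⊆ Ω →
    ∃ C : ℝ, 0 ≤ C ∧ ∀ᵐ x ∂(volume.restrict K), |v x| ≤ C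

/-- Piece REP (uses WEYL). -/
def Stm_REP : Prop := ∀ (N : ℕ) (Ω : Set (E N)) (γ : ℝ → ℝ) (c : ℝ), 1 ≤ N → IsOpen Ω →
  Bornology.IsBounded Ω → Ker N Ω γ c →
  ∀ (μ : Measure (E N)), IsFiniteMeasure μ → μ Ωᶜ = 0 → ∀ (u h : E N → ℝ),
    IntegrableOn u Ω → IntegrableOn h Ω →
    (∀ φ : E N → ℝ, ContDiff ℝ ∞ φ → HasCompactSupport φ → tsupport φ ⊆ Ω →
      -(∫ x in Ω, u x * (Δ φ) x) + ∫ x in Ω, h x * φ x = ∫ x, φ x ∂μ) →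
    ∀ K : Set (E N), IsCompact K → K ⊆ Ω →
      ∃ C : ℝ, 0 ≤ C ∧ ∀ᵐ x ∂(volume.restrict K),
        Pt γ μ x ≤ ENNReal.ofReal (c * u x + C) +
          Pt γ ((volume.restrict Ω).withDensity fun y => ENNReal.ofReal |h y|) x

/-- Piece FIN: potentials of finite measures are integrable on bounded sets, hence a.e. finite;
potentials of bounded densities are bounded. -/
def Stm_FIN : Prop := ∀ (N : ℕ) (Ω : Set (E N)) (γ : ℝ → ℝ) (c : ℝ), 1 ≤ N →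
  Bornology.IsBounded Ω → Ker N Ω γ c →
  (Measurable fun p : E N × E N => gk γ (dist p.1 p.2)) ∧
  (∀ (ν : Measure (E N)), IsFiniteMeasure ν → ∫⁻ x in Ω, Pt γ ν x < ⊤) ∧
  (∀ k : ℝ≥0, ∃ C : ℝ≥0, ∀ f : E N → ℝ≥0∞, (∀ x, f x ≤ k) → ∀ x ∈ Ω,
    Pt γ ((volume.restrict Ω).withDensity f) x ≤ C)

/-- Piece SEL. -/
def Stm_SEL : Prop := ∀ (N : ℕ), 1 ≤ N → ∀ Ω : Set (E N), IsOpen Ω → ∀ (μ H : Measure (E N)),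
  IsFiniteMeasure μ → IsFiniteMeasure H → μ Ωᶜ = 0 → H ≪ volume →
  ∀ (ε₀ δ : ℝ), 0 < ε₀ → 0 < δ →
  ∃ (K : Set (E N)) (r₀ : ℝ), IsCompact K ∧ K ⊆ Ω ∧ volume K = 0 ∧ 0 < r₀ ∧
    (μ.singularPart volume) Kᶜ ≤ ENNReal.ofReal δ ∧
    ∀ x ∈ K, ∀ r, 0 < r → r < r₀ → H (closedBall x r) ≤ ENNReal.ofReal ε₀ * μ (closedBall x r)

/-- Piece KEY. -/
def Stm_KEY : Prop := ∀ (N : ℕ) (Ω : Set (E N)) (γ : ℝ → ℝ) (c : ℝ), 1 ≤ N → Ker N Ω γ c →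
  ∀ ε : ℝ, 0 < ε → ε < 1 → ∃ ρ ε₀ : ℝ, 0 < ρ ∧ ρ ≤ 1 / 2 ∧ 0 < ε₀ ∧
    ∀ (μ H ν : Measure (E N)), IsFiniteMeasure μ → IsFiniteMeasure H → IsFiniteMeasure ν →
      ν ≤ μ → ∀ K : Set (E N), IsCompact K → K.Nonempty → ν Kᶜ = 0 →
      ∀ r₀ : ℝ, 0 < r₀ →
      (∀ x ∈ K, ∀ r, 0 < r → r < r₀ →
        H (closedBall x r) ≤ ENNReal.ofReal ε₀ * μ (closedBall x r)) →
      ∀ C : ℝ≥0, ∃ (M : ℝ≥0) (r₁ : ℝ), 0 < r₁ ∧ ∀ z : E N, 0 < infDist z K → infDist z K < r₁ →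
        (M : ℝ≥0∞) < Pt γ ν z →
        volume {z' | z' ∈ Metric.ball z (ρ * infDist z K) ∧
          Pt γ μ z' < Pt γ H z' + C + ENNReal.ofReal (1 - ε) * Pt γ ν z} ≤
          volume (Metric.ball z (ρ * infDist z K)) / 2

/-- Piece TON. -/
def Stm_TON : Prop := ∀ (N : ℕ), 1 ≤ N → ∀ (Ω K : Set (E N)), IsOpen Ω → Bornology.IsBounded Ω →
  IsCompact K → K.Nonempty → volume K = 0 → ∀ (F h : E N → ℝ≥0∞), Measurable F → Measurable h →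
  ∫⁻ x, h x < ⊤ → ∀ (ρ r₁ : ℝ) (M : ℝ≥0), 0 < ρ → ρ ≤ 1 / 2 → 0 < r₁ →
  (∀ z, r₁ ≤ infDist z K → F z ≤ M) →
  (∀ z, 0 < infDist z K → infDist z K < r₁ → F z ≤ M ∨
    volume {z' | z' ∈ Metric.ball z (ρ * infDist z K) ∧ h z' < F z} ≤
      volume (Metric.ball z (ρ * infDist z K)) / 2) →
  ∫⁻ x in Ω, F x < ⊤

/-- Piece MAX. -/
def Stm_MAX : Prop := ∀ (N : ℕ) (Ω : Set (E N)) (γ : ℝ → ℝ) (c : ℝ), 1 ≤ N → IsOpen Ω →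
  Bornology.IsBounded Ω → Ker N Ω γ c → ∀ ζ : E N → ℝ, IsTest Ω ζ → ∀ x ∈ Ω,
    c * ζ x ≤ ∫ y in Ω, γ (dist x y) * max (-(Δ ζ) y) 0

/-- Piece EXI (uses MAX). -/
def Stm_EXI : Prop := ∀ (N : ℕ) (Ω : Set (E N)) (γ : ℝ → ℝ) (c : ℝ), 1 ≤ N → IsOpen Ω →
  Bornology.IsBounded Ω → Ker N Ω γ c → ∀ ν : Measure (E N), IsFiniteMeasure ν → ν Ωᶜ = 0 →
    ∃ w : E N → ℝ, Measurable w ∧ (∀ x, 0 ≤ w x) ∧ IsLinSol Ω ν w ∧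
      ∀ᵐ x ∂(volume.restrict Ω), ENNReal.ofReal (c * w x) ≤ Pt γ ν x

/-- Final theorem. -/
def Stm_Main : Prop := ∀ (N : ℕ), 2 ≤ N → ∀ Ω : Set (E N), IsOpen Ω → Bornology.IsBounded Ω →
  ∀ g : ℝ → ℝ, Continuous g → Monotone g → (∀ t, 0 ≤ g t * t) →
  ∀ (μ : Measure (E N)) [IsFiniteMeasure μ], μ Ωᶜ = 0 → (∃ u : E N → ℝ, IsSol g Ω μ u) →
  ∀ ε : ℝ, 0 < ε → ∃ (ν : Measure (E N)) (_ : IsFiniteMeasure ν), ν ∈ VPlus g Ω ∧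
    (ν.toSignedMeasure - μ.toSignedMeasure).totalVariation univ < ENNReal.ofReal ε

end R197VP
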