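import Pool.Agent.R197.VP.Stm

set_option autoImplicit false

open MeasureTheory Set Filter Topology Metric
open scoped ENNReal NNReal ContDiff Laplacian

namespace R197VP

theorem TON : Stm_TON := by
  intro N hN Ω K hΩ hb hK hKne hK0 F h hF hh hint ρ r₁ M hρ hρ2 hr₁ hfar hnear
  haveI : Nonempty (Fin N) := ⟨⟨0, hN⟩⟩
  set d : E N → ℝ := fun z => infDist z K with hd
  have hdm : Measurable d := measurable_infDist
  have hd0 : ∀ z, 0 ≤ d z := fun z => infDist_nonneg
  have hdl : ∀ z z', d z ≤ d z' + dist z z' := fun z z' => infDist_le_infDist_add_dist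
  set c : ℝ≥0∞ := volume (ball (0 : E N) 1) with hc
  have hc0 : c ≠ 0 := (measure_ball_pos volume 0 one_pos).ne'
  have hct : c ≠ ⊤ := measure_ball_lt_top.ne
  have hvol : ∀ (z : E N) (r : ℝ), 0 ≤ r → volume (ball z r) = ENNReal.ofReal (r ^ N) * c := by
    intro z r hr
    have := Measure.addHaar_ball (volume : Measure (E N)) z hr
    rw [this]; simp [c]
  set β : E N → ℝ≥0∞ := fun z => (ENNReal.ofReal ((ρ * d z) ^ N) * c)⁻¹ with hβ
  have hβm : Measurable β := by
    have h1 : Measurable fun z => (ρ * d z) ^ N := (hdm.const_mul ρ).pow_const N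
    exact (h1.ennreal_ofReal.mul_const c).inv
  set S : Set (E N × E N) := {p | 0 < d p.1 ∧ dist p.1 p.2 < ρ * d p.1} with hS
  have hSm : MeasurableSet S := by
    have h1 : Measurable fun p : E N × E N => d p.1 := hdm.comp measurable_fst
    exact (measurableSet_lt measurable_const h1).inter
      (measurableSet_lt measurable_dist (h1.const_mul ρ))
  set Φ : E N → E N → ℝ≥0∞ := fun z z' => S.indicator (fun p => β p.1 * h p.2) (z, z') with hΦ
  have hΦm : Measurable (Function.uncurry Φ) := by
    have : Measurable (S.indicator (fun p : E N × E N => β p.1 * h p.2)) :=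
      ((hβm.comp measurable_fst).mul (hh.comp measurable_snd)).indicator hSm
    exact this
  have hpt : ∀ z, 0 < d z → F z ≤ M + 2 * ∫⁻ z', Φ z z' := by
    intro z hz
    by_cases hzr : r₁ ≤ d z
    · exact (hfar z hzr).trans le_self_add
    · rw [not_le] at hzr
      rcases hnear z hz hzr with h1 | h1
      · exact h1.trans le_self_add
      · have hBpos : 0 < ρ * d z := mul_pos hρ hz
        have hB : volume (ball z (ρ * d z)) = ENNReal.ofReal ((ρ * d z) ^ N) * c :=
          hvol z _ hBpos.le
        have hB0 : volume (ball z (ρ * d z)) ≠ 0 := (measure_ball_pos volume z hBpos).ne'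
        have hBt : volume (ball z (ρ * d z)) ≠ ⊤ := measure_ball_lt_top.ne
        have e1 : ∫⁻ z', Φ z z' = (volume (ball z (ρ * d z)))⁻¹ *
            ∫⁻ z' in ball z (ρ * d z), h z' := by
          rw [← lintegral_indicator measurableSet_ball, ← lintegral_const_mul _
            (hh.indicator measurableSet_ball)]
          refine lintegral_congr fun z' => ?_
          by_cases hz' : z' ∈ ball z (ρ * d z)
          · have : (z, z') ∈ S := ⟨hz, by
              rw [mem_ball, dist_comm] at hz'; exact hz'⟩
            simp only [Φ, indicator_of_mem this, indicator_of_mem hz', β, hB]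
          · have : (z, z') ∉ S := fun hs => hz' (by
              rw [mem_ball, dist_comm]; exact hs.2)
            simp only [Φ, indicator_of_notMem this, indicator_of_notMem hz', mul_zero]
        have h5 : volume (ball z (ρ * d z)) / 2 ≠ ⊤ :=
          (ENNReal.div_lt_top hBt (by norm_num)).ne
        have h50 : volume (ball z (ρ * d z)) / 2 ≠ 0 := by
          simp [hB0]
        have e2 : F z * (volume (ball z (ρ * d z)) / 2) ≤
            ∫⁻ z' in ball z (ρ * d z), h z' := by
          have h3 := mul_meas_ge_le_lintegral (μ := volume.restrict (ball z (ρ * d z))) hh (F z)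
          refine le_trans ?_ h3
          gcongr
          rw [Measure.restrict_apply (measurableSet_le measurable_const hh)]
          have hsum : volume (ball z (ρ * d z)) ≤ volume ({x | F z ≤ h x} ∩ ball z (ρ * d z)) +
              volume {z' | z' ∈ ball z (ρ * d z) ∧ h z' < F z} := by
            refine le_trans (measure_mono ?_) (measure_union_le _ _)
            intro x hx
            rcases le_or_gt (F z) (h x) with h2 | h2
            · exact Or.inl ⟨h2, hx⟩
            · exact Or.inr ⟨hx, h2⟩
          have h4 := hsum.trans (add_le_add le_rfl h1)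
          have h6 : volume (ball z (ρ * d z)) / 2 + volume (ball z (ρ * d z)) / 2 =
            volume (ball z (ρ * d z)) := ENNReal.add_halves _
          exact ENNReal.le_of_add_le_add_right h5 (h6.trans_le h4)
        have e3 : F z ≤ (∫⁻ z' in ball z (ρ * d z), h z') / (volume (ball z (ρ * d z)) / 2) :=
          (ENNReal.le_div_iff_mul_le (Or.inl h50) (Or.inl h5)).2 e2
        have e4 : (∫⁻ z' in ball z (ρ * d z), h z') / (volume (ball z (ρ * d z)) / 2) =
            2 * ∫⁻ z', Φ z z' := by
          rw [e1, div_eq_mul_inv, div_eq_mul_inv, ENNReal.mul_inv (Or.inl hB0) (Or.inl hBt),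
            inv_inv]
          ring
        rw [e4] at e3
        exact e3.trans le_add_self
  have hinner : ∀ z', ∫⁻ z, Φ z z' ≤ 3 ^ N * h z' := by
    intro z'
    have hkey : ∀ z, (z, z') ∈ S → (2 / 3) * d z' ≤ d z ∧ d z ≤ 2 * d z' ∧ 0 < d z' := by
      intro z hz
      have h1 : 0 < d z := hz.1
      have h2 : dist z z' < ρ * d z := hz.2
      have h3 := hdl z z'
      have h4 := hdl z' z
      rw [dist_comm] at h4
      have h5 : ρ * d z ≤ 1 / 2 * d z := by gcongr
      refine ⟨by linarith, by linarith, by linarith⟩
    by_cases hz' : 0 < d z'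
    · set V : ℝ≥0∞ := ENNReal.ofReal ((ρ * ((2 / 3) * d z')) ^ N) * c with hV
      have hpos : 0 < (ρ * ((2 / 3) * d z')) ^ N := by positivity
      have hV0 : V ≠ 0 := mul_ne_zero (by simpa using hpos) hc0
      have hVt : V ≠ ⊤ := ENNReal.mul_ne_top ENNReal.ofReal_ne_top hct
      calc ∫⁻ z, Φ z z' ≤ ∫⁻ z, (ball z' (2 * ρ * d z')).indicator (fun _ => V⁻¹ * h z') z := by
            refine lintegral_mono fun z => ?_
            by_cases hs : (z, z') ∈ S
            · obtain ⟨h1, h2, h3⟩ := hkey z hs
              have hmem : z ∈ ball z' (2 * ρ * d z') := by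
                rw [mem_ball]
                refine hs.2.trans_le ?_
                show ρ * d z ≤ _
                nlinarith
              simp only [Φ, indicator_of_mem hs, indicator_of_mem hmem, β, V]
              gcongr
            · simp only [Φ, indicator_of_notMem hs]
              exact bot_le
        _ = V⁻¹ * h z' * volume (ball z' (2 * ρ * d z')) := by
            rw [lintegral_indicator measurableSet_ball, lintegral_const,
              Measure.restrict_apply_univ]
        _ = V⁻¹ * h z' * (3 ^ N * V) := by
            rw [hvol z' _ (by positivity)]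
            have : (2 * ρ * d z') ^ N = 3 ^ N * (ρ * ((2 / 3) * d z')) ^ N := by
              rw [← mul_pow]; ring
            rw [this, ENNReal.ofReal_mul (by positivity), ENNReal.ofReal_pow (by norm_num)]
            simp only [V, ENNReal.ofReal_ofNat]
            ring
        _ = (V⁻¹ * V) * (3 ^ N * h z') := by ring
        _ = 3 ^ N * h z' := by rw [ENNReal.inv_mul_cancel hV0 hVt, one_mul]
        _ ≤ 3 ^ N * h z' := le_rfl
    · have : ∀ z, Φ z z' = 0 := fun z => by
        have : (z, z') ∉ S := fun hs => hz' (hkey z hs).2.2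
        simp only [Φ, indicator_of_notMem this]
      simp [this]
  have htot : ∫⁻ z, ∫⁻ z', Φ z z' ≤ 3 ^ N * ∫⁻ x, h x := by
    rw [lintegral_lintegral_swap hΦm.aemeasurable, ← lintegral_const_mul _ hh]
    exact lintegral_mono hinner
  have hgm : Measurable fun z => ∫⁻ z', Φ z z' := hΦm.lintegral_prod_right'
  have hae : ∀ᵐ z ∂(volume.restrict Ω), F z ≤ M + 2 * ∫⁻ z', Φ z z' := by
    have h1 : ∀ᵐ z ∂(volume : Measure (E N)), z ∉ K := measure_eq_zero_iff_ae_notMem.1 hK0
    refine ae_restrict_of_ae (h1.mono fun z hz => hpt z ?_)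
    exact (hK.isClosed.notMem_iff_infDist_pos hKne).1 hz
  calc ∫⁻ x in Ω, F x ≤ ∫⁻ z in Ω, ((M : ℝ≥0∞) + 2 * ∫⁻ z', Φ z z') := lintegral_mono_ae hae
    _ = M * volume Ω + 2 * ∫⁻ z in Ω, ∫⁻ z', Φ z z' := by
        rw [lintegral_add_left measurable_const, lintegral_const, Measure.restrict_apply_univ,
          lintegral_const_mul _ hgm]
    _ ≤ M * volume Ω + 2 * (3 ^ N * ∫⁻ x, h x) := by
        gcongr
        exact (setLIntegral_le_lintegral _ _).trans htot
    _ < ⊤ := by
        refine ENNReal.add_lt_top.2 ⟨ENNReal.mul_lt_top ENNReal.coe_lt_top hb.measure_lt_top, ?_⟩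
        refine ENNReal.mul_lt_top (by norm_num) (ENNReal.mul_lt_top ?_ hint)
        exact ENNReal.pow_lt_top (by norm_num)

end R197VP
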