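import Pool.Agent.R197.VP.Stm

/-!
Piece WEYL of project VP: Weyl's lemma, local boundedness of very weakly harmonic functions.
-/

set_option autoImplicit false

open MeasureTheory Set Filter Topology Metric
open scoped ENNReal NNReal ContDiff Laplacian

namespace R197VP

namespace WeylX

variable {N : ℕ}

/-- the profile -/
noncomputable def f (t : ℝ) : ℝ := Real.smoothTransition (1 - t)

theorem f_contDiff : ContDiff ℝ ∞ f :=
  Real.smoothTransition.contDiff.comp (contDiff_const.sub contDiff_id)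

theorem f_nonneg (t : ℝ) : 0 ≤ f t := Real.smoothTransition.nonneg _

theorem f_le_one (t : ℝ) : f t ≤ 1 := Real.smoothTransition.le_one _

theorem f_zero (t : ℝ) (h : 1 ≤ t) : f t = 0 :=
  Real.smoothTransition.zero_of_nonpos (by linarith)

theorem f_at_zero : f 0 = 1 := Real.smoothTransition.one_of_one_le (by norm_num)

theorem f_hasDeriv (t : ℝ) : HasDerivAt f (deriv f t) t :=
  (f_contDiff.differentiable (by simp) t).hasDerivAt

theorem df_contDiff : ContDiff ℝ ∞ (deriv f) :=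
  (contDiff_infty_iff_deriv.1 f_contDiff).2

theorem exists_bound : ∃ M : ℝ, 0 ≤ M ∧ ∀ t, 0 ≤ t → |t * deriv f t| ≤ M := by
  have hc : ContinuousOn (fun t => t * deriv f t) (Icc 0 1) :=
    (continuous_id.mul df_contDiff.continuous).continuousOn
  obtain ⟨M, hM⟩ := isCompact_Icc.exists_bound_of_continuousOn hc
  have hM0 : 0 ≤ M := (norm_nonneg _).trans (hM 0 ⟨le_rfl, zero_le_one⟩)
  refine ⟨M, hM0, fun t ht => ?_⟩
  rcases le_or_gt t 1 with h | h
  · exact hM t ⟨ht, h⟩
  · have h1 : f =ᶠ[𝓝 t] fun _ => (0 : ℝ) := by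
      filter_upwards [lt_mem_nhds h] with u hu
      exact f_zero u hu.le
    rw [h1.deriv_eq]
    simpa using hM0

/-- primitive of the profile -/
noncomputable def G (t : ℝ) : ℝ := ∫ u in t..1, f u

theorem G_hasDeriv (t : ℝ) : HasDerivAt G (-f t) t :=
  intervalIntegral.integral_hasDerivAt_left (f_contDiff.continuous.intervalIntegrable _ _)
    (f_contDiff.continuous.stronglyMeasurableAtFilter _ _) f_contDiff.continuous.continuousAt

theorem G_zero (t : ℝ) (h : 1 ≤ t) : G t = 0 := by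
  unfold G
  rw [intervalIntegral.integral_symm, neg_eq_zero]
  apply intervalIntegral.integral_zero_ae
  refine Eventually.of_forall fun u hu => ?_
  rw [uIoc_of_le h] at hu
  exact f_zero u hu.1.le

theorem G_contDiff : ContDiff ℝ ∞ G := by
  rw [contDiff_infty_iff_deriv]
  refine ⟨fun t => (G_hasDeriv t).differentiableAt, ?_⟩
  have : deriv G = fun t => -f t := funext fun t => (G_hasDeriv t).deriv
  rw [this]
  exact f_contDiff.neg

/-! ### the Laplacian of radial functions -/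

theorem line_deriv {u : E N → ℝ} {x v : E N} (hu : ContDiffAt ℝ 2 u x) :
    ∀ᶠ t in 𝓝 (0 : ℝ), HasDerivAt (fun t : ℝ => u (x + t • v)) (fderiv ℝ u (x + t • v) v) t := by
  have h1 : ∀ᶠ y in 𝓝 x, ContDiffAt ℝ 2 u y := hu.eventually (by simp)
  have hc : Tendsto (fun t : ℝ => x + t • v) (𝓝 0) (𝓝 x) := by
    have : Continuous fun t : ℝ => x + t • v := by fun_prop
    have h2 := this.tendsto 0
    simpa using h2
  filter_upwards [hc.eventually h1] with t ht
  have hd : HasFDerivAt u (fderiv ℝ u (x + t • v)) (x + t • v) :=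
    (ht.differentiableAt (by simp)).hasFDerivAt
  have hl : HasDerivAt (fun t : ℝ => x + t • v) v t := by
    have := ((hasDerivAt_id t).smul_const v).const_add x
    simpa using this
  exact hd.comp_hasDerivAt t hl

theorem line_deriv2 {u : E N → ℝ} {x v : E N} (hu : ContDiffAt ℝ 2 u x) :
    HasDerivAt (fun t : ℝ => fderiv ℝ u (x + t • v) v) (iteratedFDeriv ℝ 2 u x (fun _ => v)) 0 := by
  have h1 : DifferentiableAt ℝ (fderiv ℝ u) x :=
    (hu.fderiv_right (m := 1) (by norm_num)).differentiableAt (by simp)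
  rw [iteratedFDeriv_two_apply]
  have hl : HasDerivAt (fun t : ℝ => x + t • v) v 0 := by
    have := ((hasDerivAt_id (0 : ℝ)).smul_const v).const_add x
    simpa using this
  have h2 : HasFDerivAt (fderiv ℝ u) (fderiv ℝ (fderiv ℝ u) x) (x + (0 : ℝ) • v) := by
    rw [zero_smul, add_zero]; exact h1.hasFDerivAt
  have h3 := h2.comp_hasDerivAt (0 : ℝ) hl
  have h4 := h3.clm_apply (hasDerivAt_const (0 : ℝ) v)
  simpa using h4

/-- second derivative along a line -/
theorem iteratedFDeriv_two_of_line {u : E N → ℝ} {x v : E N} (hu : ContDiffAt ℝ 2 u x)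
    {g : ℝ → ℝ} {c : ℝ} (h1 : ∀ᶠ t in 𝓝 (0 : ℝ), HasDerivAt (fun t : ℝ => u (x + t • v)) (g t) t)
    (h2 : HasDerivAt g c 0) : iteratedFDeriv ℝ 2 u x (fun _ => v) = c := by
  have e1 := line_deriv (v := v) hu
  have e2 := line_deriv2 (v := v) hu
  have e3 : (fun t : ℝ => fderiv ℝ u (x + t • v) v) =ᶠ[𝓝 0] g := by
    filter_upwards [e1, h1] with t ht ht'
    exact ht.unique ht'
  exact (e3.hasDerivAt_iff.1 e2).unique h2

theorem lap_eq (u : E N → ℝ) (x : E N) :
    (Δ u) x = ∑ i : Fin N, iteratedFDeriv ℝ 2 u x (fun _ => EuclideanSpace.single i (1 : ℝ)) := by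
  rw [InnerProductSpace.laplacian_eq_iteratedFDeriv_orthonormalBasis u (EuclideanSpace.basisFun (Fin N) ℝ)]
  refine Finset.sum_congr rfl fun i _ => ?_
  congr 1
  ext j
  fin_cases j <;> simp

/-- Laplacian of `g (‖x - c‖ ^ 2)` -/
theorem lap_radial {g g' g'' : ℝ → ℝ} (c x : E N)
    (hg : ∀ᶠ r in 𝓝 (‖x - c‖ ^ 2), HasDerivAt g (g' r) r)
    (hg' : HasDerivAt g' (g'' (‖x - c‖ ^ 2)) (‖x - c‖ ^ 2))
    (hC : ContDiffAt ℝ 2 (fun y : E N => g (‖y - c‖ ^ 2)) x) :
    (Δ (fun y : E N => g (‖y - c‖ ^ 2))) x =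
      4 * ‖x - c‖ ^ 2 * g'' (‖x - c‖ ^ 2) + 2 * N * g' (‖x - c‖ ^ 2) := by
  rw [lap_eq]
  set q0 := ‖x - c‖ ^ 2 with hq0
  have key : ∀ i : Fin N, iteratedFDeriv ℝ 2 (fun y : E N => g (‖y - c‖ ^ 2)) x
      (fun _ => EuclideanSpace.single i (1 : ℝ)) = 4 * ((x - c) i) ^ 2 * g'' q0 + 2 * g' q0 := by
    intro i
    set a := (x - c) i with ha
    have hq : ∀ t : ℝ, ‖x + t • EuclideanSpace.single i (1 : ℝ) - c‖ ^ 2 = q0 + 2 * t * a + t ^ 2 := by
      intro t
      have e1 : x + t • EuclideanSpace.single i (1 : ℝ) - c = (x - c) + t • EuclideanSpace.single i (1 : ℝ) := by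
        abel
      rw [e1, norm_add_sq_real, inner_smul_right, EuclideanSpace.inner_single_right, norm_smul]
      simp [ha, hq0]
      ring
    have hqd : ∀ t : ℝ, HasDerivAt (fun t : ℝ => q0 + 2 * t * a + t ^ 2) (2 * a + 2 * t) t := by
      intro t
      have h1 : HasDerivAt (fun t : ℝ => 2 * t * a) (2 * 1 * a) t := ((hasDerivAt_id t).const_mul 2).mul_const a
      have h2 : HasDerivAt (fun t : ℝ => t ^ 2) (2 * t) t := by simpa using hasDerivAt_pow 2 t
      have := (h1.const_add q0).fun_add h2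
      simpa using this
    refine iteratedFDeriv_two_of_line (g := fun t => g' (q0 + 2 * t * a + t ^ 2) * (2 * a + 2 * t)) hC ?_ ?_
    · have hcont : Tendsto (fun t : ℝ => q0 + 2 * t * a + t ^ 2) (𝓝 0) (𝓝 q0) := by
        have : Continuous fun t : ℝ => q0 + 2 * t * a + t ^ 2 := by fun_prop
        have h2 := this.tendsto 0
        simpa using h2
      filter_upwards [hcont.eventually hg] with t ht
      have h1 := ht.comp t (hqd t)
      have h2 : (fun t : ℝ => g (‖x + t • EuclideanSpace.single i (1 : ℝ) - c‖ ^ 2)) =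
          g ∘ fun t : ℝ => q0 + 2 * t * a + t ^ 2 := by
        funext t
        simp only [Function.comp_apply, hq]
      rw [h2]
      exact h1
    · have h0 : (fun t : ℝ => q0 + 2 * t * a + t ^ 2) 0 = q0 := by simp
      have h1 : HasDerivAt (fun t : ℝ => g' (q0 + 2 * t * a + t ^ 2)) (g'' q0 * (2 * a + 2 * 0)) 0 := by
        have hg2 : HasDerivAt g' (g'' q0) ((fun t : ℝ => q0 + 2 * t * a + t ^ 2) 0) := by rw [h0]; exact hg'
        exact hg2.comp 0 (hqd 0)
      have h2 : HasDerivAt (fun t : ℝ => 2 * a + 2 * t) 2 0 := by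
        have := ((hasDerivAt_id (0 : ℝ)).const_mul 2).const_add (2 * a)
        simpa using this
      have h3 := h1.mul h2
      refine h3.congr_deriv ?_
      simp
      ring
  simp only [key]
  rw [Finset.sum_add_distrib, ← Finset.sum_mul, ← Finset.mul_sum, Finset.sum_const, Finset.card_univ,
    Fintype.card_fin, nsmul_eq_mul]
  have h5 : ∑ i, ((x - c) i) ^ 2 = q0 := by rw [hq0, EuclideanSpace.real_norm_sq_eq]
  rw [h5]
  ring

/-! ### the test functions -/

/-- the test function -/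
noncomputable def Ps (x : E N) (l : ℝ) (y : E N) : ℝ := G (l ^ 2 * ‖y - x‖ ^ 2)

theorem Ps_contDiff (x : E N) (l : ℝ) : ContDiff ℝ ∞ (Ps x l) := by
  unfold Ps
  exact G_contDiff.comp (contDiff_const.mul ((contDiff_norm_sq ℝ).comp (contDiff_id.sub contDiff_const)))

theorem Ps_support (x : E N) {l : ℝ} (hl : 0 < l) :
    Function.support (Ps x l) ⊆ closedBall x l⁻¹ := by
  intro y hy
  by_contra hcon
  apply hy
  rw [mem_closedBall, dist_eq_norm, not_le] at hcon
  apply G_zero
  have h1 : 1 ≤ l * ‖y - x‖ := by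
    have := mul_lt_mul_of_pos_left hcon hl
    rw [mul_inv_cancel₀ hl.ne'] at this
    exact this.le
  nlinarith [norm_nonneg (y - x)]

theorem Ps_lap (x y : E N) (l : ℝ) : (Δ (Ps x l)) y =
    -(4 * ‖y - x‖ ^ 2 * (l ^ 4 * deriv f (l ^ 2 * ‖y - x‖ ^ 2)) +
      2 * N * (l ^ 2 * f (l ^ 2 * ‖y - x‖ ^ 2))) := by
  have h := lap_radial (N := N) (g := fun r => G (l ^ 2 * r)) (g' := fun r => -(l ^ 2 * f (l ^ 2 * r)))
    (g'' := fun r => -(l ^ 4 * deriv f (l ^ 2 * r))) x y ?_ ?_ ?_
  · show (Δ (fun y : E N => G (l ^ 2 * ‖y - x‖ ^ 2))) y = _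
    rw [h]
    ring
  · refine Eventually.of_forall fun r => ?_
    have h1 : HasDerivAt (fun r : ℝ => l ^ 2 * r) (l ^ 2) r := by
      simpa using (hasDerivAt_id r).const_mul (l ^ 2)
    have h2 := (G_hasDeriv (l ^ 2 * r)).comp r h1
    refine h2.congr_deriv ?_
    ring
  · have h1 : HasDerivAt (fun r : ℝ => l ^ 2 * r) (l ^ 2) (‖y - x‖ ^ 2) := by
      simpa using (hasDerivAt_id (‖y - x‖ ^ 2)).const_mul (l ^ 2)
    have h2 := (f_hasDeriv (l ^ 2 * ‖y - x‖ ^ 2)).comp _ h1
    have h3 := (h2.const_mul (l ^ 2)).neg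
    refine h3.congr_deriv ?_
    ring
  · exact (contDiff_infty.1 (Ps_contDiff x l) 2).contDiffAt

/-- the kernel (not normalised) -/
noncomputable def om (x : E N) (l : ℝ) (y : E N) : ℝ := l ^ N * f (l ^ 2 * ‖y - x‖ ^ 2)

/-- its derivative in the parameter -/
noncomputable def dom (x : E N) (l : ℝ) (y : E N) : ℝ :=
  N * l ^ (N - 1) * f (l ^ 2 * ‖y - x‖ ^ 2) +
    l ^ N * (deriv f (l ^ 2 * ‖y - x‖ ^ 2) * (2 * l * ‖y - x‖ ^ 2))

theorem om_hasDeriv (x : E N) (l : ℝ) (y : E N) : HasDerivAt (fun l => om x l y) (dom x l y) l := by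
  unfold om dom
  have h1 : HasDerivAt (fun l : ℝ => l ^ 2 * ‖y - x‖ ^ 2) (2 * l * ‖y - x‖ ^ 2) l := by
    have h := (hasDerivAt_pow 2 l).mul_const (‖y - x‖ ^ 2)
    simpa using h
  have h2 := (f_hasDeriv (l ^ 2 * ‖y - x‖ ^ 2)).comp l h1
  exact (hasDerivAt_pow N l).mul h2

theorem dom_eq (hN : 1 ≤ N) (x : E N) {l : ℝ} (hl : 0 < l) (y : E N) :
    dom x l y = (-(l ^ N) / (2 * l ^ 3)) * (Δ (Ps x l)) y := by
  rw [Ps_lap]
  unfold dom
  obtain ⟨n, rfl⟩ : ∃ n, N = n + 1 := ⟨N - 1, by omega⟩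
  rw [Nat.add_sub_cancel]
  field_simp
  ring

theorem dom_continuous (x : E N) (l : ℝ) : Continuous (dom x l) := by
  unfold dom
  have h1 := f_contDiff.continuous
  have h2 := df_contDiff.continuous
  have h3 : Continuous fun y : E N => l ^ 2 * ‖y - x‖ ^ 2 := by fun_prop
  have h4 := h1.comp h3
  have h5 := h2.comp h3
  refine Continuous.add (continuous_const.mul h4) (continuous_const.mul (h5.mul ?_))
  fun_prop

theorem om_continuous (x : E N) (l : ℝ) : Continuous (om x l) := by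
  unfold om
  have h1 := f_contDiff.continuous
  have h3 : Continuous fun y : E N => l ^ 2 * ‖y - x‖ ^ 2 := by fun_prop
  exact continuous_const.mul (h1.comp h3)

theorem om_le (x : E N) {l : ℝ} (hl : 0 < l) (y : E N) : |om x l y| ≤ l ^ N := by
  unfold om
  rw [abs_mul, abs_of_pos (pow_pos hl N), abs_of_nonneg (f_nonneg _)]
  have := f_le_one (l ^ 2 * ‖y - x‖ ^ 2)
  have h2 := pow_pos hl N
  nlinarith

theorem dom_le (hN : 1 ≤ N) {M : ℝ} (hM : ∀ t, 0 ≤ t → |t * deriv f t| ≤ M) (x : E N) {l : ℝ}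
    (hl : 0 < l) (y : E N) : |dom x l y| ≤ (N + 2 * M) * l ^ (N - 1) := by
  obtain ⟨n, rfl⟩ : ∃ n, N = n + 1 := ⟨N - 1, by omega⟩
  unfold dom
  rw [Nat.add_sub_cancel]
  set t := l ^ 2 * ‖y - x‖ ^ 2 with ht
  have ht0 : 0 ≤ t := by positivity
  have h1 := hM t ht0
  have h2 : 0 < l ^ n := pow_pos hl n
  have h3 : ((n + 1 : ℕ) : ℝ) * l ^ n * f t + l ^ (n + 1) * (deriv f t * (2 * l * ‖y - x‖ ^ 2)) =
      l ^ n * (((n + 1 : ℕ) : ℝ) * f t + 2 * (t * deriv f t)) := by
    rw [ht]; ring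
  rw [h3, abs_mul, abs_of_pos h2, mul_comm]
  refine mul_le_mul_of_nonneg_right ?_ h2.le
  refine (abs_add_le _ _).trans ?_
  rw [abs_mul, abs_mul, abs_of_nonneg (f_nonneg t), abs_of_nonneg (Nat.cast_nonneg _), abs_two]
  have h4 := f_le_one t
  have h5 : (0 : ℝ) ≤ ((n + 1 : ℕ) : ℝ) := Nat.cast_nonneg _
  nlinarith

/-! ### approximate identity -/

/-- the bump -/
noncomputable def P (w : E N) : ℝ := f (‖w‖ ^ 2)

theorem P_contDiff : ContDiff ℝ ∞ (P : E N → ℝ) := f_contDiff.comp (contDiff_norm_sq ℝ)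

theorem P_nonneg (w : E N) : 0 ≤ P w := f_nonneg _

theorem P_le_one (w : E N) : P w ≤ 1 := f_le_one _

theorem P_zero_of (w : E N) (h : 1 ≤ ‖w‖) : P w = 0 := f_zero _ (by nlinarith)

theorem P_compact : HasCompactSupport (P : E N → ℝ) := by
  apply HasCompactSupport.of_support_subset_isCompact (isCompact_closedBall (0 : E N) 1)
  intro w hw
  rw [mem_closedBall_zero_iff]
  by_contra h
  push Not at h
  exact hw (P_zero_of w h.le)

theorem P_int_pos : 0 < ∫ w : E N, P w := by
  apply Continuous.integral_pos_of_hasCompactSupport_nonneg_nonzero (x := 0)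
  · exact P_contDiff.continuous
  · exact P_compact
  · exact fun w => P_nonneg w
  · have : P (0 : E N) = 1 := by
      unfold P
      rw [norm_zero]
      simpa using f_at_zero
    rw [this]; exact one_ne_zero

/-- the mollifier -/
noncomputable def rho (s : ℝ) (w : E N) : ℝ :=
  (s ^ Module.finrank ℝ (E N) * ∫ x : E N, P x)⁻¹ * P (s⁻¹ • w)

theorem rho_nonneg {s : ℝ} (hs : 0 < s) (w : E N) : 0 ≤ rho s w :=
  mul_nonneg (inv_nonneg.2 (mul_nonneg (pow_nonneg hs.le _) (P_int_pos (N := N)).le)) (P_nonneg _)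

theorem rho_zero_of {s : ℝ} (hs : 0 < s) (w : E N) (h : s ≤ ‖w‖) : rho s w = 0 := by
  unfold rho
  rw [P_zero_of, mul_zero]
  rw [norm_smul, norm_inv, Real.norm_of_nonneg hs.le, inv_mul_eq_div, le_div_iff₀ hs, one_mul]
  exact h

theorem rho_integral {s : ℝ} (hs : 0 < s) : ∫ w : E N, rho s w = 1 := by
  unfold rho
  rw [integral_const_mul, Measure.integral_comp_inv_smul_of_nonneg _ _ hs.le, smul_eq_mul]
  have := P_int_pos (N := N)
  exact inv_mul_cancel₀ (by positivity)

theorem rho_bound {s : ℝ} (hs : 0 < s) (x w : E N) :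
    |rho s w| ≤ ((volume : Measure (E N)).real (ball 0 1) / ∫ x : E N, P x) /
      (volume : Measure (E N)).real (closedBall x s) := by
  have h1 := P_int_pos (N := N)
  have h2 : (volume : Measure (E N)).real (closedBall x s) =
      s ^ Module.finrank ℝ (E N) * (volume : Measure (E N)).real (ball 0 1) := by
    rw [measureReal_def, measureReal_def, Measure.addHaar_closedBall _ _ hs.le, ENNReal.toReal_mul,
      ENNReal.toReal_ofReal (by positivity)]
  have h3 : 0 < (volume : Measure (E N)).real (ball 0 1) :=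
    ENNReal.toReal_pos (measure_ball_pos _ _ one_pos).ne' measure_ball_lt_top.ne
  rw [abs_of_nonneg (rho_nonneg hs w), h2]
  unfold rho
  have h4 := P_le_one (s⁻¹ • w)
  have h5 : (s ^ Module.finrank ℝ (E N) * ∫ x : E N, P x)⁻¹ * P (s⁻¹ • w) ≤
      (s ^ Module.finrank ℝ (E N) * ∫ x : E N, P x)⁻¹ * 1 :=
    mul_le_mul_of_nonneg_left h4 (by positivity)
  refine h5.trans (le_of_eq ?_)
  field_simp

theorem rho_sub_integral {s : ℝ} (hs : 0 < s) (x : E N) : ∫ y, rho s (x - y) = 1 := by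
  rw [integral_sub_left_eq_self (fun y => rho s y) volume x, rho_integral hs]

theorem rho_tendsto (F : E N → ℝ) (hF : Integrable F) :
    ∀ᵐ x, Tendsto (fun s => ∫ y, rho s (x - y) • F y) (𝓝[>] 0) (𝓝 (F x)) := by
  filter_upwards [(Besicovitch.vitaliFamily (volume : Measure (E N))).ae_tendsto_average_norm_sub
    hF.locallyIntegrable] with x h0
  have h1 := h0.comp (Besicovitch.tendsto_filterAt (volume : Measure (E N)) x)
  have hpos : ∀ᶠ s : ℝ in 𝓝[>] 0, 0 < s := self_mem_nhdsWithin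
  refine tendsto_integral_smul_of_tendsto_average_norm_sub
    ((volume : Measure (E N)).real (ball 0 1) / ∫ x : E N, P x) h1 ?_ ?_ ?_ ?_
  · filter_upwards with s using hF.integrableOn
  · apply tendsto_const_nhds.congr'
    filter_upwards [hpos] with s hs
    exact (rho_sub_integral hs x).symm
  · filter_upwards [hpos] with s hs
    intro y hy
    by_contra hcon
    apply hy
    rw [mem_closedBall, dist_comm, dist_eq_norm, not_le] at hcon
    exact rho_zero_of hs (x - y) hcon.le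
  · filter_upwards [hpos] with s hs y
    exact rho_bound hs x (x - y)

theorem rho_eq {s : ℝ} (hs : 0 < s) (x y : E N) :
    rho s (x - y) = (∫ x : E N, P x)⁻¹ * om x s⁻¹ y := by
  unfold rho om P
  rw [finrank_euclideanSpace, Fintype.card_fin, norm_smul, norm_inv, Real.norm_of_nonneg hs.le,
    norm_sub_rev x y, mul_pow, inv_pow, mul_inv]
  ring

end WeylX

open WeylX in
theorem WEYL : Stm_WEYL := by
  intro N hN Ω hΩ v hv hφ K hK hKΩ
  obtain ⟨δ, hδ, hsub⟩ := hK.exists_cthickening_subset_open hΩ hKΩ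
  have hball : ∀ x ∈ K, closedBall x δ ⊆ Ω := fun x hx =>
    (closedBall_subset_cthickening hx δ).trans hsub
  obtain ⟨M, hM0, hM⟩ := exists_bound
  obtain ⟨A, hA⟩ : ∃ A, A = ∫ w : E N, P w := ⟨_, rfl⟩
  have hA0 : 0 < A := hA ▸ P_int_pos
  obtain ⟨h, hh⟩ : ∃ h : E N → ℝ → ℝ, h = fun x l => ∫ y in Ω, v y * om x l y := ⟨_, rfl⟩
  have hδi : 0 < δ⁻¹ := inv_pos.2 hδ
  -- the derivative vanishes
  have hder : ∀ x ∈ K, ∀ l, δ⁻¹ ≤ l → HasDerivAt (h x) 0 l := by
    intro x hx l hl
    have hl0 : 0 < l := hδi.trans_le hl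
    have hz : ∫ y in Ω, v y * dom x l y = 0 := by
      have h1 : ∫ y in Ω, v y * (Δ (Ps x l)) y = 0 := by
        have hsupp := Ps_support x hl0
        have hts : tsupport (Ps x l) ⊆ closedBall x l⁻¹ :=
          closure_minimal hsupp isClosed_closedBall
        refine hφ _ (Ps_contDiff x l) ?_ ?_
        · exact HasCompactSupport.of_support_subset_isCompact (isCompact_closedBall x l⁻¹) hsupp
        · refine (hts.trans (closedBall_subset_closedBall ?_)).trans (hball x hx)
          exact inv_le_of_inv_le₀ hδ hl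
      have h2 : ∀ y, v y * dom x l y = (-(l ^ N) / (2 * l ^ 3)) * (v y * (Δ (Ps x l)) y) := by
        intro y
        rw [dom_eq hN x hl0]
        ring
      simp only [h2]
      rw [integral_const_mul, h1, mul_zero]
    rw [← hz, hh]
    refine (hasDerivAt_integral_of_dominated_loc_of_deriv_le (μ := volume.restrict Ω)
      (F := fun l y => v y * om x l y) (F' := fun l y => v y * dom x l y)
      (bound := fun y => |v y| * ((N + 2 * M) * (2 * l) ^ (N - 1))) (x₀ := l)
      (s := ball l (l / 2)) (ball_mem_nhds l (by positivity)) ?_ ?_ ?_ ?_ ?_ ?_).2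
    · exact Eventually.of_forall fun l' =>
        hv.aestronglyMeasurable.mul (om_continuous x l').aestronglyMeasurable
    · refine Integrable.mono' (hv.norm.mul_const (l ^ N))
        (hv.aestronglyMeasurable.mul (om_continuous x l).aestronglyMeasurable) ?_
      refine Eventually.of_forall fun y => ?_
      rw [norm_mul]
      exact mul_le_mul_of_nonneg_left (om_le x hl0 y) (norm_nonneg _)
    · exact hv.aestronglyMeasurable.mul (dom_continuous x l).aestronglyMeasurable
    · refine Eventually.of_forall fun y l' hl' => ?_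
      rw [mem_ball, Real.dist_eq] at hl'
      obtain ⟨h1, h2⟩ := abs_lt.1 hl'
      have hl'0 : 0 < l' := by linarith
      rw [norm_mul, Real.norm_eq_abs, Real.norm_eq_abs]
      refine mul_le_mul_of_nonneg_left ((dom_le hN hM x hl'0 y).trans ?_) (abs_nonneg _)
      refine mul_le_mul_of_nonneg_left ?_ (by positivity)
      exact pow_le_pow_left₀ hl'0.le (by linarith) _
    · exact (hv.norm.mul_const _)
    · refine Eventually.of_forall fun y l' _ => ?_
      exact (om_hasDeriv x l' y).const_mul (v y)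
  have hconst : ∀ x ∈ K, ∀ l, δ⁻¹ ≤ l → h x l = h x δ⁻¹ := by
    intro x hx l hl
    have h1 := constant_of_has_deriv_right_zero (f := h x) (a := δ⁻¹) (b := l)
      (fun u hu => (hder x hx u hu.1).continuousAt.continuousWithinAt)
      (fun u hu => (hder x hx u hu.1).hasDerivWithinAt)
    exact h1 l ⟨hl, le_rfl⟩
  have hbd : ∀ x, |h x δ⁻¹| ≤ (∫ y in Ω, |v y|) * δ⁻¹ ^ N := by
    intro x
    rw [hh, ← integral_mul_const]
    refine (abs_integral_le_integral_abs).trans ?_
    refine integral_mono_of_nonneg (Eventually.of_forall fun y => abs_nonneg _)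
      (hv.abs.mul_const _) (Eventually.of_forall fun y => ?_)
    show |v y * om x δ⁻¹ y| ≤ |v y| * δ⁻¹ ^ N
    rw [abs_mul]
    exact mul_le_mul_of_nonneg_left (om_le x hδi y) (abs_nonneg _)
  obtain ⟨F, hF⟩ : ∃ F, F = Ω.indicator v := ⟨_, rfl⟩
  have hFi : Integrable F := by
    rw [hF, integrable_indicator_iff hΩ.measurableSet]
    exact hv
  have hB0 : 0 ≤ ∫ y in Ω, |v y| := integral_nonneg fun y => abs_nonneg _
  refine ⟨A⁻¹ * ((∫ y in Ω, |v y|) * δ⁻¹ ^ N), by positivity, ?_⟩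
  rw [ae_restrict_iff' hK.measurableSet]
  filter_upwards [rho_tendsto F hFi] with x hx hxK
  have hFx : F x = v x := by rw [hF, Set.indicator_of_mem (hKΩ hxK)]
  rw [← hFx]
  have hT : Tendsto (fun s => |∫ y, rho s (x - y) • F y|) (𝓝[>] 0) (𝓝 |F x|) := hx.abs
  refine le_of_tendsto hT ?_
  filter_upwards [Ioo_mem_nhdsGT hδ] with s hs
  have h1 : ∫ y, rho s (x - y) • F y = A⁻¹ * h x s⁻¹ := by
    rw [hh, ← integral_const_mul, ← integral_indicator hΩ.measurableSet]
    refine integral_congr_ae (Eventually.of_forall fun y => ?_)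
    show rho s (x - y) • F y = Ω.indicator (fun y => A⁻¹ * (v y * om x s⁻¹ y)) y
    rw [rho_eq hs.1, ← hA, hF]
    by_cases hy : y ∈ Ω
    · rw [Set.indicator_of_mem hy, Set.indicator_of_mem hy, smul_eq_mul]
      ring
    · rw [Set.indicator_of_notMem hy, Set.indicator_of_notMem hy, smul_zero]
  rw [h1, hconst x hxK s⁻¹ (inv_anti₀ hs.1 hs.2.le), abs_mul, abs_of_pos (inv_pos.2 hA0)]
  exact mul_le_mul_of_nonneg_left (hbd x) (inv_pos.2 hA0).le

end R197VP
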